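import Pool.Agent.E8helper35.RP.Box

/-!
# Tuples without private prime factors
-/

set_option autoImplicit false

namespace Pool.Agent.E8helper35.RP

open Finset

section prod

variable {k : ℕ}

open scoped Classical in
/-- functions with support in `I` and values in the sets `F j` -/
noncomputable def PP (I : Finset (Fin k)) (F : Fin k → Finset ℚ) : Finset (Fin k → ℚ) :=
  Fintype.piFinset (fun j => if j ∈ I then F j else {0})

lemma card_PP (I : Finset (Fin k)) (F : Fin k → Finset ℚ) :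
    (PP I F).card = ∏ j ∈ I, (F j).card := by
  classical
  rw [PP, Fintype.card_piFinset]
  have h1 : ∀ j, (if j ∈ I then F j else ({0} : Finset ℚ)).card =
      if j ∈ I then (F j).card else 1 := by
    intro j
    split_ifs
    · rfl
    · rfl
  rw [Finset.prod_congr rfl fun j _ => h1 j, Finset.prod_ite_mem, Finset.univ_inter]

open scoped Classical in
/-- the restriction of `t` to `I` -/
noncomputable def rs (I : Finset (Fin k)) (t : Fin k → ℚ) : Fin k → ℚ :=
  fun j => if j ∈ I then t j else 0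

lemma rs_of_mem {I : Finset (Fin k)} {t : Fin k → ℚ} {j : Fin k} (hj : j ∈ I) : rs I t j = t j := by
  rw [rs, if_pos hj]

lemma rs_mem_PP {I : Finset (Fin k)} {F : Fin k → Finset ℚ} {t : Fin k → ℚ} :
    rs I t ∈ PP I F ↔ ∀ j ∈ I, t j ∈ F j := by
  classical
  rw [PP, Fintype.mem_piFinset]
  constructor
  · intro h j hj
    have := h j
    rwa [if_pos hj, rs_of_mem hj] at this
  · intro h j
    by_cases hj : j ∈ I
    · rw [if_pos hj, rs_of_mem hj]
      exact h j hj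
    · rw [if_neg hj, rs, if_neg hj]
      exact Finset.mem_singleton_self 0

open scoped Classical in
lemma card_PP1 {B : ℕ} (hB : 1 ≤ B) {I : Finset (Fin k)} {i : Fin k} (hi : i ∈ I) (F : Finset ℚ)
    {x : ℝ} (hF : (F.card : ℝ) ≤ x * (B : ℝ) ^ 2) :
    ((PP I (fun j => if j = i then F else S B)).card : ℝ) ≤ x * (3 * (B : ℝ) ^ 2) ^ I.card := by
  have hB' : (1 : ℝ) ≤ B := by exact_mod_cast hB
  have hx : 0 ≤ x := by
    by_contra h
    push Not at h
    have h1 : x * (B : ℝ) ^ 2 < 0 := mul_neg_of_neg_of_pos h (by positivity)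
    have h2 : (0 : ℝ) ≤ F.card := Nat.cast_nonneg _
    linarith
  have hS : ((S B).card : ℝ) ≤ 3 * (B : ℝ) ^ 2 := by exact_mod_cast card_S hB
  rw [card_PP, ← Finset.mul_prod_erase I _ hi, if_pos rfl]
  have h1 : ∏ j ∈ I.erase i, (if j = i then F else S B).card = (S B).card ^ (I.card - 1) := by
    rw [← Finset.card_erase_of_mem hi, ← Finset.prod_const]
    apply Finset.prod_congr rfl
    intro j hj
    rw [if_neg (Finset.ne_of_mem_erase hj)]
  rw [h1]
  push_cast
  have hc : 1 ≤ I.card := Finset.card_pos.2 ⟨i, hi⟩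
  obtain ⟨m, hm⟩ : ∃ m, I.card = m + 1 := ⟨I.card - 1, by omega⟩
  rw [hm, Nat.add_sub_cancel, pow_succ]
  calc (F.card : ℝ) * ((S B).card : ℝ) ^ m
      ≤ (x * (B : ℝ) ^ 2) * (3 * (B : ℝ) ^ 2) ^ m :=
        mul_le_mul hF (pow_le_pow_left₀ (Nat.cast_nonneg _) hS m) (by positivity) (by positivity)
    _ ≤ x * ((3 * (B : ℝ) ^ 2) ^ m * (3 * (B : ℝ) ^ 2)) := by
        have h3 : 0 ≤ x * (3 * (B : ℝ) ^ 2) ^ m := by positivity
        nlinarith [mul_nonneg h3 (sq_nonneg (B : ℝ))]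

open scoped Classical in
lemma card_PP2 {B : ℕ} (hB : 1 ≤ B) {I : Finset (Fin k)} {i j : Fin k} (hi : i ∈ I)
    (hj : j ∈ I.erase i) (F F' : Finset ℚ)
    {x y : ℝ} (hx : 0 ≤ x) (hy : 0 ≤ y) (hF : (F.card : ℝ) ≤ x * (B : ℝ) ^ 2)
    (hF' : (F'.card : ℝ) ≤ y * (B : ℝ) ^ 2) :
    ((PP I (fun l => if l = i then F else if l = j then F' else S B)).card : ℝ) ≤
      x * y * (3 * (B : ℝ) ^ 2) ^ I.card := by
  have hB' : (1 : ℝ) ≤ B := by exact_mod_cast hB
  have hS : ((S B).card : ℝ) ≤ 3 * (B : ℝ) ^ 2 := by exact_mod_cast card_S hB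
  have hji : j ≠ i := Finset.ne_of_mem_erase hj
  rw [card_PP, ← Finset.mul_prod_erase I _ hi, if_pos rfl, ← Finset.mul_prod_erase (I.erase i) _ hj,
    if_neg hji, if_pos rfl]
  have h1 : ∏ l ∈ (I.erase i).erase j, (if l = i then F else if l = j then F' else S B).card =
      (S B).card ^ (I.card - 2) := by
    have h2 : ((I.erase i).erase j).card = I.card - 2 := by
      rw [Finset.card_erase_of_mem hj, Finset.card_erase_of_mem hi]
      omega
    rw [← h2, ← Finset.prod_const]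
    apply Finset.prod_congr rfl
    intro l hl
    rw [if_neg (Finset.ne_of_mem_erase (Finset.mem_of_mem_erase hl)),
      if_neg (Finset.ne_of_mem_erase hl)]
  rw [h1]
  push_cast
  have hc : 2 ≤ I.card := by
    have h2 : 0 < (I.erase i).card := Finset.card_pos.2 ⟨j, hj⟩
    rw [Finset.card_erase_of_mem hi] at h2
    omega
  obtain ⟨m, hm⟩ : ∃ m, I.card = m + 2 := ⟨I.card - 2, by omega⟩
  rw [hm, Nat.add_sub_cancel, pow_add]
  calc (F.card : ℝ) * ((F'.card : ℝ) * ((S B).card : ℝ) ^ m)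
      ≤ (x * (B : ℝ) ^ 2) * ((y * (B : ℝ) ^ 2) * (3 * (B : ℝ) ^ 2) ^ m) :=
        mul_le_mul hF (mul_le_mul hF' (pow_le_pow_left₀ (Nat.cast_nonneg _) hS m) (by positivity)
          (by positivity)) (by positivity) (by positivity)
    _ ≤ x * y * ((3 * (B : ℝ) ^ 2) ^ m * (3 * (B : ℝ) ^ 2) ^ 2) := by
        have h3 : 0 ≤ x * y * (3 * (B : ℝ) ^ 2) ^ m := by positivity
        nlinarith [mul_nonneg h3 (sq_nonneg ((B : ℝ) ^ 2))]

end prod

/-- numbers without private simple prime factors -/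
theorem private_bound {ι : Type*} (J : Finset ι) (f : ι → ℕ) {n : ℕ} (hn : n ≠ 0)
    (h : ∀ p, p.Prime → p ∣ n → ¬ p ^ 2 ∣ n → ∃ j ∈ J, p ∣ f j) :
    ∃ b, b ^ 2 ∣ n ∧ n ≤ b ^ 3 * ∏ j ∈ J, Nat.gcd n (f j) := by
  obtain ⟨a, b, hab, hsq⟩ := Nat.sq_mul_squarefree n
  have hb : b ≠ 0 := by
    rintro rfl
    apply hn
    rw [← hab]
    ring
  have hgcd : ∀ j ∈ J, Nat.gcd n (f j) ≠ 0 := fun j _ => by
    rw [Ne, Nat.gcd_eq_zero_iff]
    tauto
  have hprod : ∏ j ∈ J, Nat.gcd n (f j) ≠ 0 := Finset.prod_ne_zero_iff.2 hgcd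
  have hdvd : a ∣ b * ∏ j ∈ J, Nat.gcd n (f j) := by
    rw [← Nat.prod_primeFactors_of_squarefree hsq]
    apply Finset.prod_primes_dvd
    · intro p hp
      exact (Nat.prime_of_mem_primeFactors hp).prime
    · intro p hp
      have hpp := Nat.prime_of_mem_primeFactors hp
      have hpa := Nat.dvd_of_mem_primeFactors hp
      by_cases hpb : p ∣ b
      · exact hpb.mul_right _
      · have h1 : p ∣ n := by
          rw [← hab]
          exact hpa.mul_left _
        have h2 : ¬ p ^ 2 ∣ n := by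
          intro h2
          rw [← hab] at h2
          have h3 : Nat.Coprime (p ^ 2) (b ^ 2) :=
            Nat.Coprime.pow 2 2 ((Nat.Prime.coprime_iff_not_dvd hpp).2 hpb)
          have h4 : p ^ 2 ∣ a := h3.dvd_of_dvd_mul_left h2
          have h5 := hsq p (by rwa [← pow_two])
          exact hpp.one_lt.ne' (Nat.isUnit_iff.1 h5)
        obtain ⟨j, hj, hpj⟩ := h p hpp h1 h2
        exact ((Nat.dvd_gcd h1 hpj).trans
          (Finset.dvd_prod_of_mem (fun j => Nat.gcd n (f j)) hj)).mul_left _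
  refine ⟨b, ⟨a, hab.symm⟩, ?_⟩
  have h1 : a ≤ b * ∏ j ∈ J, Nat.gcd n (f j) :=
    Nat.le_of_dvd (Nat.pos_of_ne_zero (mul_ne_zero hb hprod)) hdvd
  calc n = b ^ 2 * a := hab.symm
    _ ≤ b ^ 2 * (b * ∏ j ∈ J, Nat.gcd n (f j)) := Nat.mul_le_mul_left _ h1
    _ = b ^ 3 * ∏ j ∈ J, Nat.gcd n (f j) := by ring

/-- private simple prime factors -/
def Good {k : ℕ} (I : Finset (Fin k)) (t : Fin k → ℚ) : Prop :=
  ∀ i ∈ I, ∀ w : Fin 3, w ≠ 2 → ∃ p : ℕ, p.Prime ∧ (p : ℤ) ∣ W w (t i) ∧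
    ¬ ((p : ℤ) ^ 2 ∣ W w (t i)) ∧ ∀ j ∈ I, j ≠ i → ¬ p ∣ nn (t j)

lemma dvd_nn {p : ℕ} (hp : p.Prime) {a : ℚ} (h : p ∣ nn a) : ∃ w : Fin 3, (p : ℤ) ∣ W w a := by
  unfold nn at h
  rcases (Nat.Prime.dvd_mul hp).1 h with h | h
  · rcases (Nat.Prime.dvd_mul hp).1 h with h | h
    · exact ⟨0, Int.natCast_dvd.2 h⟩
    · exact ⟨1, Int.natCast_dvd.2 h⟩
  · refine ⟨2, ?_⟩
    change (p : ℤ) ∣ ((a.den : ℕ) : ℤ)
    exact_mod_cast h

/-- a tuple without private prime factors -/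
theorem bad_cases {k B : ℕ} {t : Fin k → ℚ} (ht : ∀ i, InBox B (t i)) {I : Finset (Fin k)}
    {D : ℝ} (hD : 1 ≤ D) (hbad : ¬ Good I t) : ∃ i ∈ I, ∃ w : Fin 3,
      (((W w (t i)).natAbs : ℕ) : ℝ) ≤ D ^ (3 * I.card) ∨
      (∃ b : ℕ, 1 ≤ b ∧ b ≤ 2 * B ∧ D ≤ b ∧ ((b ^ 2 : ℕ) : ℤ) ∣ W w (t i)) ∨
      (∃ j ∈ I.erase i, ∃ w' : Fin 3, ∃ g : ℕ, 1 ≤ g ∧ g ≤ 2 * B ∧ D ≤ g ∧
        (g : ℤ) ∣ W w (t i) ∧ (g : ℤ) ∣ W w' (t j)) := by
  classical
  unfold Good at hbad
  push Not at hbad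
  obtain ⟨i, hi, w, _, h⟩ := hbad
  refine ⟨i, hi, w, ?_⟩
  have hti := ht i
  have hn0 : (W w (t i)).natAbs ≠ 0 := Int.natAbs_ne_zero.2 (W_ne hti.1 hti.2.1 w)
  obtain ⟨b, hb2, hle⟩ := private_bound ((I.erase i) ×ˢ (univ : Finset (Fin 3)))
    (fun x => (W x.2 (t x.1)).natAbs) hn0 (by
      intro p hp hpn hp2
      obtain ⟨j, hj, hji, hpj⟩ := h p hp (Int.natCast_dvd.2 hpn) (by
        intro h2
        apply hp2
        have h3 : ((p ^ 2 : ℕ) : ℤ) ∣ W w (t i) := by push_cast; exact h2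
        exact Int.natCast_dvd.1 h3)
      obtain ⟨w', hw'⟩ := dvd_nn hp hpj
      exact ⟨(j, w'), by simp [hj, hji], Int.natCast_dvd.1 hw'⟩)
  have hb0 : b ≠ 0 := by
    rintro rfl
    rw [zero_pow two_ne_zero, zero_dvd_iff] at hb2
    exact hn0 hb2
  by_cases hbD : D ≤ (b : ℝ)
  · right; left
    refine ⟨b, Nat.pos_of_ne_zero hb0, ?_, hbD, Int.natCast_dvd.2 hb2⟩
    have h1 := Nat.le_of_dvd (Nat.pos_of_ne_zero hn0) hb2
    have h2 := W_le hti w
    nlinarith [Nat.pos_of_ne_zero hb0]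
  · by_cases hg : ∃ x ∈ (I.erase i) ×ˢ (univ : Finset (Fin 3)),
        D ≤ ((Nat.gcd (W w (t i)).natAbs (W x.2 (t x.1)).natAbs : ℕ) : ℝ)
    · right; right
      obtain ⟨⟨j, w'⟩, hx, hDg⟩ := hg
      rw [Finset.mem_product] at hx
      refine ⟨j, hx.1, w', Nat.gcd (W w (t i)).natAbs (W w' (t j)).natAbs, ?_, ?_, hDg, ?_, ?_⟩
      · exact Nat.pos_of_ne_zero fun h0 => hn0 (Nat.gcd_eq_zero_iff.1 h0).1
      · exact (Nat.le_of_dvd (Nat.pos_of_ne_zero hn0) (Nat.gcd_dvd_left _ _)).trans (W_le hti w)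
      · exact Int.natCast_dvd.2 (Nat.gcd_dvd_left _ _)
      · exact Int.natCast_dvd.2 (Nat.gcd_dvd_right _ _)
    · left
      push Not at hbD hg
      have h1 : (((W w (t i)).natAbs : ℕ) : ℝ) ≤ (b : ℝ) ^ 3 *
          ∏ x ∈ (I.erase i) ×ˢ (univ : Finset (Fin 3)),
            ((Nat.gcd (W w (t i)).natAbs (W x.2 (t x.1)).natAbs : ℕ) : ℝ) := by
        exact_mod_cast hle
      have hcard : ((I.erase i) ×ˢ (univ : Finset (Fin 3))).card = (I.card - 1) * 3 := by
        rw [Finset.card_product, Finset.card_erase_of_mem hi, Finset.card_univ, Fintype.card_fin]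
      have h2 : ∏ x ∈ (I.erase i) ×ˢ (univ : Finset (Fin 3)),
            ((Nat.gcd (W w (t i)).natAbs (W x.2 (t x.1)).natAbs : ℕ) : ℝ) ≤
            D ^ ((I.card - 1) * 3) := by
        rw [← hcard, ← Finset.prod_const]
        exact Finset.prod_le_prod (fun x _ => Nat.cast_nonneg _) fun x hx => (hg x hx).le
      have h3 : (b : ℝ) ^ 3 ≤ D ^ 3 := pow_le_pow_left₀ (Nat.cast_nonneg _) hbD.le 3
      have hc : 1 ≤ I.card := Finset.card_pos.2 ⟨i, hi⟩
      calc (((W w (t i)).natAbs : ℕ) : ℝ) ≤ _ := h1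
        _ ≤ D ^ 3 * D ^ ((I.card - 1) * 3) :=
            mul_le_mul h3 h2 (Finset.prod_nonneg fun x _ => Nat.cast_nonneg _) (by positivity)
        _ = D ^ (3 * I.card) := by
            rw [← pow_add]
            congr 1
            omega

open scoped Classical in
/-- the thresholds -/
noncomputable def Th (B : ℕ) (D : ℝ) : Finset ℕ := (Finset.Icc 1 (2 * B)).filter fun b => D ≤ (b : ℝ)

open scoped Classical in
/-- the exceptional functions for `i`, `w` -/
noncomputable def BadS1 {k : ℕ} (I : Finset (Fin k)) (B : ℕ) (D : ℝ) (i : Fin k) (w : Fin 3) :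
    Finset (Fin k → ℚ) :=
  (PP I (fun j => if j = i then
      (S B).filter (fun a => (((W w a).natAbs : ℕ) : ℝ) ≤ D ^ (3 * I.card)) else S B) ∪
    (Th B D).biUnion (fun b => PP I (fun j => if j = i then
      (S B).filter (fun a => ((b ^ 2 : ℕ) : ℤ) ∣ W w a) else S B))) ∪
    (I.erase i).biUnion (fun j => (univ : Finset (Fin 3)).biUnion fun w' => (Th B D).biUnion fun g =>
      PP I (fun l => if l = i then (S B).filter (fun a => (g : ℤ) ∣ W w a) else
        if l = j then (S B).filter (fun a => (g : ℤ) ∣ W w' a) else S B))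

open scoped Classical in
/-- the exceptional functions -/
noncomputable def BadS {k : ℕ} (I : Finset (Fin k)) (B : ℕ) (D : ℝ) : Finset (Fin k → ℚ) :=
  I.biUnion fun i => (univ : Finset (Fin 3)).biUnion fun w => BadS1 I B D i w

lemma mem_BadS {k B : ℕ} {t : Fin k → ℚ} (ht : ∀ i, InBox B (t i)) {I : Finset (Fin k)}
    {D : ℝ} (hD : 1 ≤ D) (hbad : ¬ Good I t) : rs I t ∈ BadS I B D := by
  classical
  obtain ⟨i, hi, w, h⟩ := bad_cases ht hD hbad
  rw [BadS, Finset.mem_biUnion]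
  refine ⟨i, hi, ?_⟩
  rw [Finset.mem_biUnion]
  refine ⟨w, Finset.mem_univ _, ?_⟩
  rw [BadS1, Finset.mem_union, Finset.mem_union]
  rcases h with h | ⟨b, h1, h2, h3, h4⟩ | ⟨j, hj, w', g, h1, h2, h3, h4, h5⟩
  · left; left
    rw [rs_mem_PP]
    intro j hj
    split_ifs with hji
    · subst hji
      rw [Finset.mem_filter]
      exact ⟨mem_S.2 (ht j), h⟩
    · exact mem_S.2 (ht j)
  · left; right
    rw [Finset.mem_biUnion]
    refine ⟨b, ?_, ?_⟩
    · rw [Th, Finset.mem_filter, Finset.mem_Icc]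
      exact ⟨⟨h1, h2⟩, h3⟩
    · rw [rs_mem_PP]
      intro j hj
      split_ifs with hji
      · subst hji
        rw [Finset.mem_filter]
        exact ⟨mem_S.2 (ht j), h4⟩
      · exact mem_S.2 (ht j)
  · right
    rw [Finset.mem_biUnion]
    refine ⟨j, hj, ?_⟩
    rw [Finset.mem_biUnion]
    refine ⟨w', Finset.mem_univ _, ?_⟩
    rw [Finset.mem_biUnion]
    refine ⟨g, ?_, ?_⟩
    · rw [Th, Finset.mem_filter, Finset.mem_Icc]
      exact ⟨⟨h1, h2⟩, h3⟩
    · rw [rs_mem_PP]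
      intro l hl
      split_ifs with hli hlj
      · subst hli
        rw [Finset.mem_filter]
        exact ⟨mem_S.2 (ht l), h4⟩
      · subst hlj
        rw [Finset.mem_filter]
        exact ⟨mem_S.2 (ht l), h5⟩
      · exact mem_S.2 (ht l)

lemma card_bU {α β : Type*} [DecidableEq β] (s : Finset α) (f : α → Finset β) (c : α → ℝ)
    (h : ∀ a ∈ s, ((f a).card : ℝ) ≤ c a) : ((s.biUnion f).card : ℝ) ≤ ∑ a ∈ s, c a := by
  have h1 : ((s.biUnion f).card : ℝ) ≤ ((∑ a ∈ s, (f a).card : ℕ) : ℝ) := by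
    exact_mod_cast Finset.card_biUnion_le
  refine h1.trans ?_
  rw [Nat.cast_sum]
  exact Finset.sum_le_sum h

lemma card_uR {β : Type*} [DecidableEq β] (s t : Finset β) :
    ((s ∪ t).card : ℝ) ≤ (s.card : ℝ) + (t.card : ℝ) := by
  exact_mod_cast Finset.card_union_le s t

lemma card_BadS1 {k B : ℕ} (hB : 1 ≤ B) {I : Finset (Fin k)} {D : ℝ} (hD : 1 ≤ D)
    (hDB : D ^ (6 * I.card) ≤ B) {i : Fin k} (hi : i ∈ I) (w : Fin 3) :
    ((BadS1 I B D i w).card : ℝ) ≤
      (30 + 864 * (I.card : ℝ)) / D * (3 * (B : ℝ) ^ 2) ^ I.card := by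
  classical
  have hD0 : (0 : ℝ) < D := by linarith
  obtain ⟨T, hT⟩ : ∃ T : ℝ, T = (3 * (B : ℝ) ^ 2) ^ I.card := ⟨_, rfl⟩
  have hT0 : 0 ≤ T := by rw [hT]; positivity
  have hc : 1 ≤ I.card := Finset.card_pos.2 ⟨i, hi⟩
  have hsum := sum_sq hD (2 * B)
  rw [← hT]
  have h1 : ((PP I (fun j => if j = i then
      (S B).filter (fun a => (((W w a).natAbs : ℕ) : ℝ) ≤ D ^ (3 * I.card)) else S B)).card : ℝ) ≤
      6 / D * T := by
    rw [hT]
    apply card_PP1 hB hi
    refine (card_small hB w (by positivity : (0 : ℝ) ≤ D ^ (3 * I.card))).trans ?_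
    have h2 : D ^ (3 * I.card) * D ≤ B := by
      rw [← pow_succ]
      exact (pow_le_pow_right₀ hD (by omega)).trans hDB
    rw [div_mul_eq_mul_div, le_div_iff₀ hD0]
    have hBp : (0 : ℝ) ≤ B := Nat.cast_nonneg _
    nlinarith [mul_le_mul_of_nonneg_right h2 hBp]
  have h2 : (((Th B D).biUnion (fun b => PP I (fun j => if j = i then
      (S B).filter (fun a => ((b ^ 2 : ℕ) : ℤ) ∣ W w a) else S B))).card : ℝ) ≤ 24 / D * T := by
    refine (card_bU _ _ (fun b : ℕ => 12 / (b : ℝ) ^ 2 * T) (fun b hb => ?_)).trans ?_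
    · rw [Th, Finset.mem_filter, Finset.mem_Icc] at hb
      have hb1 := hb.1.1
      rw [hT]
      apply card_PP1 hB hi
      refine (card_dvd hB w (q := b ^ 2) (Nat.one_le_pow _ _ (by omega))).trans (le_of_eq ?_)
      push_cast
      ring
    · rw [← Finset.sum_mul]
      apply mul_le_mul_of_nonneg_right _ hT0
      have h3 : ∑ b ∈ Th B D, 12 / (b : ℝ) ^ 2 = 12 * ∑ b ∈ Th B D, 1 / (b : ℝ) ^ 2 := by
        rw [Finset.mul_sum]
        apply Finset.sum_congr rfl
        intro b _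
        ring
      rw [h3]
      have h4 : ∑ b ∈ Th B D, 1 / (b : ℝ) ^ 2 ≤ 2 / D := by
        refine le_trans (le_of_eq ?_) hsum
        rw [Th]
      calc 12 * ∑ b ∈ Th B D, 1 / (b : ℝ) ^ 2 ≤ 12 * (2 / D) := by linarith
        _ = 24 / D := by ring
  have h3 : (((I.erase i).biUnion (fun j => (univ : Finset (Fin 3)).biUnion fun w' =>
      (Th B D).biUnion fun g =>
      PP I (fun l => if l = i then (S B).filter (fun a => (g : ℤ) ∣ W w a) else
        if l = j then (S B).filter (fun a => (g : ℤ) ∣ W w' a) else S B))).card : ℝ) ≤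
      864 * (I.card : ℝ) / D * T := by
    refine (card_bU _ _ (fun _ => 864 / D * T) (fun j hj => ?_)).trans ?_
    · refine (card_bU _ _ (fun _ => 288 / D * T) (fun w' _ => ?_)).trans ?_
      · refine (card_bU _ _ (fun g : ℕ => 144 / (g : ℝ) ^ 2 * T) (fun g hg => ?_)).trans ?_
        · rw [Th, Finset.mem_filter, Finset.mem_Icc] at hg
          have hg1 := hg.1.1
          have h4 := card_PP2 hB hi hj ((S B).filter (fun a => (g : ℤ) ∣ W w a))
            ((S B).filter (fun a => (g : ℤ) ∣ W w' a)) (x := 12 / (g : ℝ)) (y := 12 / (g : ℝ))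
            (by positivity) (by positivity)
            ((card_dvd hB w hg1).trans (le_of_eq (by ring)))
            ((card_dvd hB w' hg1).trans (le_of_eq (by ring)))
          rw [← hT] at h4
          refine h4.trans (le_of_eq ?_)
          ring
        · rw [← Finset.sum_mul]
          apply mul_le_mul_of_nonneg_right _ hT0
          have h3 : ∑ b ∈ Th B D, 144 / (b : ℝ) ^ 2 = 144 * ∑ b ∈ Th B D, 1 / (b : ℝ) ^ 2 := by
            rw [Finset.mul_sum]
            apply Finset.sum_congr rfl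
            intro b _
            ring
          rw [h3]
          have h4 : ∑ b ∈ Th B D, 1 / (b : ℝ) ^ 2 ≤ 2 / D := by
            refine le_trans (le_of_eq ?_) hsum
            rw [Th]
          calc 144 * ∑ b ∈ Th B D, 1 / (b : ℝ) ^ 2 ≤ 144 * (2 / D) := by linarith
            _ = 288 / D := by ring
      · rw [Finset.sum_const, Finset.card_univ, Fintype.card_fin, nsmul_eq_mul]
        apply le_of_eq
        push_cast
        ring
    · rw [Finset.sum_const, nsmul_eq_mul]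
      have h5 : ((I.erase i).card : ℝ) ≤ I.card := by
        exact_mod_cast Finset.card_le_card (Finset.erase_subset i I)
      calc ((I.erase i).card : ℝ) * (864 / D * T) ≤ (I.card : ℝ) * (864 / D * T) :=
            mul_le_mul_of_nonneg_right h5 (by positivity)
        _ = 864 * (I.card : ℝ) / D * T := by ring
  have h4 : ((BadS1 I B D i w).card : ℝ) ≤ 6 / D * T + 24 / D * T +
      864 * (I.card : ℝ) / D * T := by
    rw [BadS1]
    exact (card_uR _ _).trans (add_le_add ((card_uR _ _).trans (add_le_add h1 h2)) h3)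
  refine h4.trans (le_of_eq ?_)
  ring

/-- the number of the exceptional functions -/
theorem card_BadS {k B : ℕ} (hB : 1 ≤ B) {I : Finset (Fin k)} {D : ℝ} (hD : 1 ≤ D)
    (hDB : D ^ (6 * I.card) ≤ B) :
    ((BadS I B D).card : ℝ) ≤
      3 * (I.card : ℝ) * (30 + 864 * (I.card : ℝ)) / D * (3 * (B : ℝ) ^ 2) ^ I.card := by
  classical
  rw [BadS]
  obtain ⟨c, hc⟩ : ∃ c : ℝ, c = (30 + 864 * (I.card : ℝ)) / D * (3 * (B : ℝ) ^ 2) ^ I.card :=
    ⟨_, rfl⟩
  refine (card_bU _ _ (fun _ => 3 * c) (fun i hi => ?_)).trans ?_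
  · refine (card_bU _ _ (fun _ => c) (fun w _ => ?_)).trans ?_
    · rw [hc]
      exact card_BadS1 hB hD hDB hi w
    · rw [Finset.sum_const, Finset.card_univ, Fintype.card_fin, nsmul_eq_mul]
      push_cast
      exact le_rfl
  · rw [Finset.sum_const, nsmul_eq_mul, hc]
    apply le_of_eq
    ring

end Pool.Agent.E8helper35.RP
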