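import Pool.Agent.E8helper35.RP.Val

/-!
# Counting rational numbers in boxes
-/

set_option autoImplicit false

namespace Pool.Agent.E8helper35.RP

open Finset

/-- a rational number different from `0`, `1`, of height at most `B` -/
def InBox (B : ℕ) (a : ℚ) : Prop := a ≠ 0 ∧ a ≠ 1 ∧ a.num.natAbs ≤ B ∧ a.den ≤ B

open scoped Classical in
/-- the rational numbers in the box -/
noncomputable def S (B : ℕ) : Finset ℚ :=
  (((Finset.Icc (-(B : ℤ)) B) ×ˢ (Finset.Icc (1 : ℤ) B)).image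
    (fun x => (x.1 : ℚ) / (x.2 : ℚ))).filter (InBox B)

lemma mem_S {B : ℕ} {a : ℚ} : a ∈ S B ↔ InBox B a := by
  classical
  rw [S, Finset.mem_filter]
  constructor
  · exact fun h => h.2
  · intro h
    refine ⟨?_, h⟩
    rw [Finset.mem_image]
    refine ⟨(a.num, (a.den : ℤ)), ?_, ?_⟩
    · rw [Finset.mem_product, Finset.mem_Icc, Finset.mem_Icc]
      have h1 := h.2.2.1
      have h2 := h.2.2.2
      have h3 := a.den_pos
      refine ⟨⟨?_, ?_⟩, ?_, ?_⟩ <;> simp only <;> omega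
    · simp only
      rw [Int.cast_natCast]
      exact Rat.num_div_den a

/-- the three numbers: `a = W 0 / W 2`, `1 - a = W 1 / W 2` -/
def W (i : Fin 3) (a : ℚ) : ℤ := if i = 0 then a.num else if i = 1 then Y a else a.den

lemma W_zero (a : ℚ) : W 0 a = a.num := rfl

lemma W_one (a : ℚ) : W 1 a = Y a := rfl

lemma W_two (a : ℚ) : W 2 a = a.den := rfl

lemma W_ne {a : ℚ} (h0 : a ≠ 0) (h1 : a ≠ 1) (i : Fin 3) : W i a ≠ 0 := by
  fin_cases i
  · exact Rat.num_ne_zero.2 h0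
  · exact Y_ne h1
  · change ((a.den : ℕ) : ℤ) ≠ 0
    exact_mod_cast a.den_nz

lemma W_le {B : ℕ} {a : ℚ} (h : InBox B a) (i : Fin 3) : (W i a).natAbs ≤ 2 * B := by
  obtain ⟨_, _, h1, h2⟩ := h
  fin_cases i
  · change a.num.natAbs ≤ _
    omega
  · change (Y a).natAbs ≤ _
    unfold Y
    omega
  · change ((a.den : ℕ) : ℤ).natAbs ≤ _
    rw [Int.natAbs_natCast]
    omega

open scoped Classical in
lemma card_W_mem {B : ℕ} (hB : 1 ≤ B) (i : Fin 3) (T : Finset ℤ) :
    ((S B).filter (fun a => W i a ∈ T)).card ≤ T.card * (3 * B) := by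
  have h1 : ((S B).filter (fun a => W i a ∈ T)).card ≤
      (T ×ˢ (Finset.Icc (-(B : ℤ)) B)).card := by
    apply Finset.card_le_card_of_injOn (fun a => (W i a, if i = 2 then a.num else a.den))
    · intro a ha
      rw [Finset.mem_coe, Finset.mem_filter, mem_S] at ha
      rw [Finset.mem_coe, Finset.mem_product, Finset.mem_Icc]
      obtain ⟨⟨_, _, h1, h2⟩, h3⟩ := ha
      refine ⟨h3, ?_⟩
      simp only
      split_ifs <;> constructor <;> omega
    · intro a _ b _ hab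
      rw [Prod.mk.injEq] at hab
      obtain ⟨h1, h2⟩ := hab
      have h3 : a.num = b.num ∧ (a.den : ℤ) = b.den := by
        fin_cases i
        · exact ⟨h1, h2⟩
        · change Y a = Y b at h1
          change (a.den : ℤ) = b.den at h2
          unfold Y at h1
          constructor <;> omega
        · exact ⟨h2, h1⟩
      exact Rat.ext h3.1 (by exact_mod_cast h3.2)
  have h2 : (Finset.Icc (-(B : ℤ)) B).card ≤ 3 * B := by
    rw [Int.card_Icc]
    omega
  rw [Finset.card_product] at h1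
  exact h1.trans (Nat.mul_le_mul_left _ h2)

lemma card_S {B : ℕ} (hB : 1 ≤ B) : (S B).card ≤ 3 * B ^ 2 := by
  classical
  have h := card_W_mem hB 2 (Finset.Icc (1 : ℤ) B)
  have h1 : (S B).filter (fun a => W 2 a ∈ Finset.Icc (1 : ℤ) B) = S B := by
    apply Finset.filter_true_of_mem
    intro a ha
    rw [mem_S] at ha
    rw [W_two, Finset.mem_Icc]
    have h1 := a.den_pos
    have h2 := ha.2.2.2
    omega
  rw [h1, Int.card_Icc] at h
  have h2 : ((B : ℤ) + 1 - 1).toNat = B := by omega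
  rw [h2] at h
  calc (S B).card ≤ B * (3 * B) := h
    _ = 3 * B ^ 2 := by ring

/-- the nonzero multiples of `q` in `[-M, M]` -/
noncomputable def Mul (M q : ℕ) : Finset ℤ :=
  ((Finset.Icc (-(M : ℤ)) M).filter fun n => n ≠ 0 ∧ (q : ℤ) ∣ n)

lemma card_Mul {M q : ℕ} (hq : 1 ≤ q) : ((Mul M q).card : ℝ) ≤ 2 * M / q := by
  have h1 : Mul M q ⊆ ((Finset.Icc (-((M / q : ℕ) : ℤ)) ((M / q : ℕ) : ℤ)).erase 0).image
      (fun k => (q : ℤ) * k) := by
    intro n hn
    rw [Mul, Finset.mem_filter, Finset.mem_Icc] at hn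
    obtain ⟨⟨h1, h2⟩, h3, k, hk⟩ := hn
    rw [Finset.mem_image]
    refine ⟨k, ?_, hk.symm⟩
    have hk0 : k ≠ 0 := fun h => h3 (by rw [hk, h, mul_zero])
    have h4 : k.natAbs ≤ M / q := by
      rw [Nat.le_div_iff_mul_le (by omega)]
      have h5 : n.natAbs ≤ M := by omega
      rw [hk, Int.natAbs_mul, Int.natAbs_natCast] at h5
      rw [mul_comm]
      exact h5
    rw [Finset.mem_erase, Finset.mem_Icc]
    refine ⟨hk0, ?_, ?_⟩ <;> omega
  have h2 : (Mul M q).card ≤ 2 * (M / q) := by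
    refine (Finset.card_le_card h1).trans (Finset.card_image_le.trans ?_)
    generalize M / q = m
    rw [Finset.card_erase_of_mem (by rw [Finset.mem_Icc]; omega), Int.card_Icc]
    omega
  have h3 : ((M / q : ℕ) : ℝ) ≤ (M : ℝ) / q := Nat.cast_div_le
  calc ((Mul M q).card : ℝ) ≤ ((2 * (M / q) : ℕ) : ℝ) := by exact_mod_cast h2
    _ = 2 * ((M / q : ℕ) : ℝ) := by push_cast; ring
    _ ≤ 2 * ((M : ℝ) / q) := by linarith
    _ = 2 * M / q := by ring

open scoped Classical in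
/-- the numbers `a` in the box with `q ∣ W i a` -/
lemma card_dvd {B : ℕ} (hB : 1 ≤ B) (i : Fin 3) {q : ℕ} (hq : 1 ≤ q) :
    (((S B).filter (fun a => (q : ℤ) ∣ W i a)).card : ℝ) ≤ 12 * (B : ℝ) ^ 2 / q := by
  have h1 : (S B).filter (fun a => (q : ℤ) ∣ W i a) ⊆
      (S B).filter (fun a => W i a ∈ Mul (2 * B) q) := by
    intro a ha
    rw [Finset.mem_filter] at ha ⊢
    refine ⟨ha.1, ?_⟩
    have h2 := mem_S.1 ha.1
    have h3 := W_le h2 i
    rw [Mul, Finset.mem_filter, Finset.mem_Icc]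
    refine ⟨⟨?_, ?_⟩, W_ne h2.1 h2.2.1 i, ha.2⟩ <;> push_cast <;> omega
  have h2 := (Finset.card_le_card h1).trans (card_W_mem hB i _)
  have h3 := card_Mul (M := 2 * B) hq
  calc (((S B).filter (fun a => (q : ℤ) ∣ W i a)).card : ℝ)
      ≤ (((Mul (2 * B) q).card * (3 * B) : ℕ) : ℝ) := by exact_mod_cast h2
    _ = ((Mul (2 * B) q).card : ℝ) * (3 * B) := by push_cast; ring
    _ ≤ (2 * ((2 * B : ℕ) : ℝ) / q) * (3 * B) := mul_le_mul_of_nonneg_right h3 (by positivity)
    _ = 12 * (B : ℝ) ^ 2 / q := by push_cast; ring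

open scoped Classical in
/-- the numbers `a` in the box with `|W i a|` small -/
lemma card_small {B : ℕ} (hB : 1 ≤ B) (i : Fin 3) {s : ℝ} (hs : 0 ≤ s) :
    (((S B).filter (fun a => (((W i a).natAbs : ℕ) : ℝ) ≤ s)).card : ℝ) ≤ 6 * s * B := by
  have h1 : (S B).filter (fun a => (((W i a).natAbs : ℕ) : ℝ) ≤ s) ⊆
      (S B).filter (fun a => W i a ∈ Mul ⌊s⌋₊ 1) := by
    intro a ha
    rw [Finset.mem_filter] at ha ⊢
    refine ⟨ha.1, ?_⟩
    have h2 := mem_S.1 ha.1
    have h3 : (W i a).natAbs ≤ ⌊s⌋₊ := Nat.le_floor ha.2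
    rw [Mul, Finset.mem_filter, Finset.mem_Icc]
    refine ⟨⟨?_, ?_⟩, W_ne h2.1 h2.2.1 i, one_dvd _⟩ <;> omega
  have h2 := (Finset.card_le_card h1).trans (card_W_mem hB i _)
  have h3 := card_Mul (M := ⌊s⌋₊) (le_refl 1)
  have h4 : ((⌊s⌋₊ : ℕ) : ℝ) ≤ s := Nat.floor_le hs
  calc (((S B).filter (fun a => (((W i a).natAbs : ℕ) : ℝ) ≤ s)).card : ℝ)
      ≤ (((Mul ⌊s⌋₊ 1).card * (3 * B) : ℕ) : ℝ) := by exact_mod_cast h2
    _ = ((Mul ⌊s⌋₊ 1).card : ℝ) * (3 * B) := by push_cast; ring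
    _ ≤ (2 * ((⌊s⌋₊ : ℕ) : ℝ) / ((1 : ℕ) : ℝ)) * (3 * B) :=
        mul_le_mul_of_nonneg_right h3 (by positivity)
    _ = 6 * ((⌊s⌋₊ : ℕ) : ℝ) * B := by push_cast; ring
    _ ≤ 6 * s * B := by
        apply mul_le_mul_of_nonneg_right _ (Nat.cast_nonneg _)
        linarith

/-- `∑ 1 / b ^ 2 ≤ 2 / D`, the sum over `D ≤ b ≤ M` -/
lemma sum_sq {D : ℝ} (hD : 1 ≤ D) (M : ℕ) :
    ∑ b ∈ (Finset.Icc 1 M).filter (fun b : ℕ => D ≤ (b : ℝ)), 1 / (b : ℝ) ^ 2 ≤ 2 / D := by
  have hD0 : (0 : ℝ) < D := by linarith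
  have hzero : ∀ M : ℕ, (M : ℝ) < D →
      ∑ b ∈ (Finset.Icc 1 M).filter (fun b : ℕ => D ≤ (b : ℝ)), 1 / (b : ℝ) ^ 2 = 0 := by
    intro M hM
    apply Finset.sum_eq_zero
    intro b hb
    exfalso
    rw [Finset.mem_filter, Finset.mem_Icc] at hb
    have h1 : (b : ℝ) ≤ M := by exact_mod_cast hb.1.2
    linarith [hb.2]
  have hind : ∀ M : ℕ, D ≤ (M : ℝ) + 1 →
      ∑ b ∈ (Finset.Icc 1 M).filter (fun b : ℕ => D ≤ (b : ℝ)), 1 / (b : ℝ) ^ 2 ≤
        2 / D - 2 / ((M : ℝ) + 1) := by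
    intro M
    induction M with
    | zero =>
      intro h
      rw [Finset.Icc_eq_empty (by omega), Finset.filter_empty, Finset.sum_empty]
      have h1 : D = 1 := le_antisymm (by simpa using h) hD
      rw [h1]
      norm_num
    | succ M ih =>
      intro h
      by_cases hc : D ≤ (M : ℝ) + 1
      · have hIcc : Finset.Icc 1 (M + 1) = insert (M + 1) (Finset.Icc 1 M) := by
          ext x
          simp only [Finset.mem_Icc, Finset.mem_insert]
          omega
        rw [hIcc, Finset.filter_insert, if_pos (by push_cast; exact hc), Finset.sum_insert (by simp)]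
        have h1 := ih hc
        have h2 : (0 : ℝ) < (M : ℝ) + 1 := by positivity
        have h4 : 1 / ((M : ℝ) + 1) ^ 2 ≤ 2 / ((M : ℝ) + 1) - 2 / ((M : ℝ) + 1 + 1) := by
          rw [div_sub_div _ _ (by positivity) (by positivity), div_le_div_iff₀ (by positivity)
            (by positivity)]
          have h5 : (0 : ℝ) ≤ M := Nat.cast_nonneg M
          nlinarith [mul_nonneg h5 h2.le]
        push_cast
        linarith
      · push Not at hc
        rw [hzero (M + 1) (by push_cast; exact hc)]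
        push_cast at h ⊢
        have h3 : 2 / ((M : ℝ) + 1 + 1) ≤ 2 / D :=
          div_le_div_of_nonneg_left (by norm_num) hD0 h
        linarith
  by_cases hc : D ≤ (M : ℝ) + 1
  · have h1 := hind M hc
    have h2 : (0 : ℝ) ≤ 2 / ((M : ℝ) + 1) := by positivity
    linarith
  · push Not at hc
    rw [hzero M (by linarith)]
    positivity

end Pool.Agent.E8helper35.RP
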