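import Pool.Agent.E8helper35.RP.Zero

/-!
# The counting theorem: upper bounds
-/

set_option autoImplicit false

namespace Pool.Agent.E8helper35.RP

open Finset

variable {k : ℕ}

open scoped Classical in
/-- the admissible numbers -/
noncomputable def AA (B N : ℕ) : Finset ℚ := (S B).filter (Adm N)

lemma card_AA (B N : ℕ) : (AA B N).card ≤ 12 * (FS N (2 * B)).card ^ 2 := by
  classical
  obtain ⟨G, hG⟩ : ∃ G : Finset ℤ, G = (FS N (2 * B)).image (fun n : ℕ => (n : ℤ)) ∪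
      (FS N (2 * B)).image (fun n : ℕ => -(n : ℤ)) := ⟨_, rfl⟩
  have hGc : G.card ≤ 2 * (FS N (2 * B)).card := by
    rw [hG]
    refine (Finset.card_union_le _ _).trans ?_
    have h1 := Finset.card_image_le (s := FS N (2 * B)) (f := fun n : ℕ => (n : ℤ))
    have h2 := Finset.card_image_le (s := FS N (2 * B)) (f := fun n : ℕ => -(n : ℤ))
    omega
  have hmem : ∀ n : ℤ, n ≠ 0 → n.natAbs ≤ 2 * B → Fac N n.natAbs → n ∈ G := by
    intro n h0 h1 h2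
    rw [hG, Finset.mem_union, Finset.mem_image, Finset.mem_image]
    have h3 : n.natAbs ∈ FS N (2 * B) := mem_FS.2 ⟨⟨Nat.pos_of_ne_zero
      (Int.natAbs_ne_zero.2 h0), h1⟩, h2⟩
    rcases Int.natAbs_eq n with h | h
    · left; exact ⟨n.natAbs, h3, h.symm⟩
    · right; exact ⟨n.natAbs, h3, h.symm⟩
  have hsub : AA B N ⊆ ((G ×ˢ G).image (fun x => (x.1 : ℚ) / ((x.1 : ℚ) + (x.2 : ℚ))) ∪
      (G ×ˢ G).image (fun x => (x.1 : ℚ) / (x.2 : ℚ))) ∪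
      (G ×ˢ G).image (fun x => 1 - (x.1 : ℚ) / (x.2 : ℚ)) := by
    intro a ha
    rw [AA, Finset.mem_filter, mem_S] at ha
    obtain ⟨hb, hA⟩ := ha
    have w0 := W_le hb 0
    have w1 := W_le hb 1
    have w2 : a.den ≤ 2 * B := by have := hb.2.2.2; omega
    have n0 := Rat.num_ne_zero.2 hb.1
    have n1 := Y_ne hb.2.1
    have hz : Fac N a.den → (a.den : ℤ) ∈ G := fun h => hmem _ (by exact_mod_cast a.den_nz)
      (by rw [Int.natAbs_natCast]; exact w2) (by rw [Int.natAbs_natCast]; exact h)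
    rw [Finset.mem_union, Finset.mem_union]
    rcases hA with ⟨h1, h2⟩ | ⟨h1, h2⟩ | ⟨h1, h2⟩
    · left; left
      rw [Finset.mem_image]
      refine ⟨(a.num, Y a), Finset.mem_product.2 ⟨hmem _ n0 w0 h1, hmem _ n1 w1 h2⟩, ?_⟩
      simp only
      have h3 : (a.num : ℚ) + (Y a : ℚ) = a.den := by unfold Y; push_cast; ring
      rw [h3]
      exact Rat.num_div_den a
    · left; right
      rw [Finset.mem_image]
      refine ⟨(a.num, (a.den : ℤ)), Finset.mem_product.2 ⟨hmem _ n0 w0 h1, hz h2⟩, ?_⟩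
      simp only
      rw [Int.cast_natCast]
      exact Rat.num_div_den a
    · right
      rw [Finset.mem_image]
      refine ⟨(Y a, (a.den : ℤ)), Finset.mem_product.2 ⟨hmem _ n1 w1 h1, hz h2⟩, ?_⟩
      simp only
      rw [Int.cast_natCast, ← one_sub_eq]
      ring
  have h1 := Finset.card_le_card hsub
  have hprod : (G ×ˢ G).card ≤ 4 * (FS N (2 * B)).card ^ 2 := by
    rw [Finset.card_product]
    nlinarith [Nat.mul_le_mul hGc hGc]
  refine h1.trans ((Finset.card_union_le _ _).trans ?_)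
  have h2 := Finset.card_union_le
    ((G ×ˢ G).image (fun x => (x.1 : ℚ) / ((x.1 : ℚ) + (x.2 : ℚ))))
    ((G ×ˢ G).image (fun x => (x.1 : ℚ) / (x.2 : ℚ)))
  have h3 := Finset.card_image_le (s := G ×ˢ G) (f := fun x => (x.1 : ℚ) / ((x.1 : ℚ) + (x.2 : ℚ)))
  have h4 := Finset.card_image_le (s := G ×ˢ G) (f := fun x => (x.1 : ℚ) / (x.2 : ℚ))
  have h5 := Finset.card_image_le (s := G ×ˢ G) (f := fun x => 1 - (x.1 : ℚ) / (x.2 : ℚ))
  omega

/-- the bound for the admissible numbers -/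
theorem U_bound (k : ℕ) {η : ℝ} (hη : 0 < η) : ∃ C : ℝ, 0 < C ∧ ∀ B : ℕ, 1 ≤ B → ∀ N : ℕ, N ≠ 0 →
    N ≤ (2 * B ^ 3) ^ k → (((AA B N).card : ℝ) + 1) ^ k ≤ C * (B : ℝ) ^ η := by
  have hk1 : (0 : ℝ) < (k : ℝ) + 1 := by positivity
  obtain ⟨σ, hσd⟩ : ∃ σ : ℝ, σ = η / (4 * ((k : ℝ) + 1)) := ⟨_, rfl⟩
  obtain ⟨ε, hεd⟩ : ∃ ε : ℝ, ε = η / (12 * ((k : ℝ) + 1) ^ 2) := ⟨_, rfl⟩
  have hσ : 0 < σ := by rw [hσd]; positivity
  have hε : 0 < ε := by rw [hεd]; positivity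
  obtain ⟨C1, hC1, h1⟩ := card_FS hσ hε
  obtain ⟨C2, hC2⟩ : ∃ C2 : ℝ, C2 = C1 * (2 : ℝ) ^ σ * ((2 : ℝ) ^ (k : ℝ)) ^ ε := ⟨_, rfl⟩
  have hC2p : 0 < C2 := by rw [hC2]; positivity
  obtain ⟨τ, hτ⟩ : ∃ τ : ℝ, τ = σ + 3 * k * ε := ⟨_, rfl⟩
  refine ⟨(12 * C2 ^ 2 + 1) ^ k, by positivity, fun B hB N hN hNB => ?_⟩
  have hB1 : (1 : ℝ) ≤ B := by exact_mod_cast hB
  have hB0 : (0 : ℝ) ≤ B := by linarith
  have hF : ((FS N (2 * B)).card : ℝ) ≤ C2 * (B : ℝ) ^ τ := by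
    have hN' : (N : ℝ) ^ ε ≤ ((2 : ℝ) ^ (k : ℝ)) ^ ε * (B : ℝ) ^ (3 * k * ε) := by
      have h2 : (N : ℝ) ≤ (2 * (B : ℝ) ^ 3) ^ k := by exact_mod_cast hNB
      calc (N : ℝ) ^ ε ≤ ((2 * (B : ℝ) ^ 3) ^ k) ^ ε :=
            Real.rpow_le_rpow (Nat.cast_nonneg _) h2 hε.le
        _ = ((2 : ℝ) ^ (k : ℝ)) ^ ε * (B : ℝ) ^ (3 * k * ε) := by
            rw [mul_pow, Real.mul_rpow (by positivity) (by positivity), Real.rpow_natCast, ← pow_mul]
            congr 1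
            rw [← Real.rpow_natCast, ← Real.rpow_mul hB0]
            push_cast
            ring_nf
    calc ((FS N (2 * B)).card : ℝ) ≤ C1 * ((2 * B : ℕ) : ℝ) ^ σ * (N : ℝ) ^ ε := h1 N (2 * B) hN
      _ ≤ C1 * ((2 : ℝ) ^ σ * (B : ℝ) ^ σ) * (((2 : ℝ) ^ (k : ℝ)) ^ ε * (B : ℝ) ^ (3 * k * ε)) := by
          rw [Nat.cast_mul, Nat.cast_ofNat, Real.mul_rpow (by norm_num) hB0]
          exact mul_le_mul_of_nonneg_left hN' (by positivity)
      _ = C2 * (B : ℝ) ^ τ := by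
          rw [hC2, hτ, Real.rpow_add (by linarith)]
          ring
  have hBτ : (1 : ℝ) ≤ (B : ℝ) ^ τ := Real.one_le_rpow hB1 (by rw [hτ]; positivity)
  have hA : ((AA B N).card : ℝ) + 1 ≤ (12 * C2 ^ 2 + 1) * ((B : ℝ) ^ τ) ^ 2 := by
    have h2 : ((AA B N).card : ℝ) ≤ 12 * ((FS N (2 * B)).card : ℝ) ^ 2 := by
      exact_mod_cast card_AA B N
    have h3 : ((FS N (2 * B)).card : ℝ) ^ 2 ≤ (C2 * (B : ℝ) ^ τ) ^ 2 :=
      pow_le_pow_left₀ (Nat.cast_nonneg _) hF 2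
    have h4 : (1 : ℝ) ≤ ((B : ℝ) ^ τ) ^ 2 := one_le_pow₀ hBτ
    calc ((AA B N).card : ℝ) + 1 ≤ 12 * (C2 * (B : ℝ) ^ τ) ^ 2 + ((B : ℝ) ^ τ) ^ 2 := by linarith
      _ = (12 * C2 ^ 2 + 1) * ((B : ℝ) ^ τ) ^ 2 := by ring
  calc (((AA B N).card : ℝ) + 1) ^ k ≤ ((12 * C2 ^ 2 + 1) * ((B : ℝ) ^ τ) ^ 2) ^ k :=
        pow_le_pow_left₀ (by positivity) hA k
    _ = (12 * C2 ^ 2 + 1) ^ k * (B : ℝ) ^ (τ * 2 * k) := by
        rw [mul_pow]
        congr 1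
        rw [← pow_mul, ← Real.rpow_natCast, ← Real.rpow_mul hB0]
        push_cast
        ring_nf
    _ ≤ (12 * C2 ^ 2 + 1) ^ k * (B : ℝ) ^ η := by
        apply mul_le_mul_of_nonneg_left _ (by positivity)
        apply Real.rpow_le_rpow_of_exponent_le hB1
        rw [hτ, hσd, hεd]
        have hk0 : (0 : ℝ) ≤ k := Nat.cast_nonneg k
        have e1 : (η / (4 * ((k : ℝ) + 1)) + 3 * k * (η / (12 * ((k : ℝ) + 1) ^ 2))) * 2 * k =
            η * ((k * (2 * (k + 1) + k * 1)) / (2 * (k + 1) ^ 2 + 2 * (k + 1) ^ 2) +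
              k * k / (4 * (k + 1) ^ 2)) := by
          field_simp
          ring
        rw [e1]
        have e2 : (k * (2 * ((k : ℝ) + 1) + k * 1)) / (2 * (k + 1) ^ 2 + 2 * (k + 1) ^ 2) +
              k * k / (4 * (k + 1) ^ 2) ≤ 1 := by
          have e3 : 2 * ((k : ℝ) + 1) ^ 2 + 2 * (k + 1) ^ 2 = 4 * (k + 1) ^ 2 := by ring
          rw [e3, ← add_div, div_le_one (by positivity)]
          nlinarith
        calc η * _ ≤ η * 1 := mul_le_mul_of_nonneg_left e2 hη.le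
          _ = η := mul_one η

end Pool.Agent.E8helper35.RP
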