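import Pool.Agent.E8helper35.RP.Cramer

/-!
# Relations with small exponents: the general case
-/

set_option autoImplicit false

namespace Pool.Agent.E8helper35.RP

open Finset

variable {k : ℕ}

/-- the matrix of the valuations -/
noncomputable def VMs (s : Finset (Fin k × Bool)) (B : ℕ) (t : Fin k → ℚ) :
    Matrix {x // x ∈ s} {p // p ∈ PB B} ℤ := fun y p => padicValRat p.1 (crd t y.1)

lemma VMs_li {s : Finset (Fin k × Bool)} {B : ℕ} {t : Fin k → ℚ} (ht : ∀ i, InBox B (t i))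
    (hI : MulIndep t s) :
    LinearIndependent ℤ (fun (y : {x // x ∈ s}) (p : {p // p ∈ PB B}) =>
      ((VMs s B t y p : ℤ) : ℚ)) := by
  classical
  have htn : ∀ i, t i ≠ 0 ∧ t i ≠ 1 := fun i => ⟨(ht i).1, (ht i).2.1⟩
  have hcr := crd_ne htn
  rw [Fintype.linearIndependent_iff]
  intro g hg y
  obtain ⟨e, he⟩ : ∃ e : Fin k × Bool → ℤ,
      e = fun x => if hx : x ∈ s then g ⟨x, hx⟩ else 0 := ⟨_, rfl⟩
  have hes : ∀ (x : Fin k × Bool) (hx : x ∈ s), e x = g ⟨x, hx⟩ := by
    intro x hx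
    rw [he]
    simp only
    rw [dif_pos hx]
  have hval : ∀ p : ℕ, p.Prime → padicValRat p (∏ x ∈ s, crd t x ^ e x) = 0 := by
    intro p hp
    have hpf : Fact p.Prime := ⟨hp⟩
    rw [val_prod _ _ _ (fun y _ => hcr y)]
    by_cases hpB : p ∈ PB B
    · have h1 := congrFun hg ⟨p, hpB⟩
      simp only [Finset.sum_apply, Pi.smul_apply, Pi.zero_apply] at h1
      have h2 : ∑ x : {x // x ∈ s}, g x * padicValRat p (crd t x.1) = 0 := by
        have h3 : ((∑ x : {x // x ∈ s}, g x * padicValRat p (crd t x.1) : ℤ) : ℚ) = 0 := by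
          rw [← h1]
          push_cast
          apply Finset.sum_congr rfl
          intro x _
          rw [zsmul_eq_mul]
          rfl
        exact_mod_cast h3
      rw [← Finset.sum_attach, ← h2]
      apply Finset.sum_congr rfl
      intro x _
      rw [hes x.1 x.2]
    · apply Finset.sum_eq_zero
      intro x _
      rw [val_out ht hp hpB, mul_zero]
  have h1 := sq_one_of_val (Finset.prod_ne_zero_iff.2 fun y _ => zpow_ne_zero _ (hcr y)) hval
  rw [← Finset.prod_zpow] at h1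
  have h2 := hI (fun x => e x * 2) (by
    rw [← h1]
    apply Finset.prod_congr rfl
    intro x _
    rw [zpow_mul]) y.1 y.2
  rw [hes y.1 y.2] at h2
  have h3 : g y = g ⟨y.1, y.2⟩ := rfl
  omega

/-- a nonzero minor -/
lemma minors {s : Finset (Fin k × Bool)} {B : ℕ} {t : Fin k → ℚ} (ht : ∀ i, InBox B (t i))
    (hI : MulIndep t s) :
    ∃ c : {x // x ∈ s} → {p // p ∈ PB B},
      (Matrix.of fun j y => VMs s B t y (c j) : Matrix {x // x ∈ s} {x // x ∈ s} ℤ).det ≠ 0
      := by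
  classical
  have hli := VMs_li ht hI
  rw [LinearIndependent.iff_fractionRing ℤ ℚ] at hli
  obtain ⟨A, hA⟩ : ∃ A : Matrix {x // x ∈ s} {p // p ∈ PB B} ℚ,
      ∀ y p, A y p = ((VMs s B t y p : ℤ) : ℚ) := ⟨fun y p => ((VMs s B t y p : ℤ) : ℚ), fun _ _ => rfl⟩
  have hliA : LinearIndependent ℚ A.row := by
    have : A.row = fun (y : {x // x ∈ s}) (p : {p // p ∈ PB B}) =>
      ((VMs s B t y p : ℤ) : ℚ) := by
      funext y p
      exact hA y p
    rw [this]
    exact hli
  have hrank := hliA.rank_matrix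
  rw [Matrix.rank_eq_finrank_span_cols] at hrank
  have htop : Submodule.span ℚ (Set.range A.col) = ⊤ := by
    apply Submodule.eq_top_of_finrank_eq
    rw [hrank, Module.finrank_fintype_fun_eq_card]
  obtain ⟨κ, a, ha, hsp, hlic⟩ := exists_linearIndependent' ℚ A.col
  rw [htop] at hsp
  have hκ : Finite κ := Finite.of_injective a ha
  have hκ' : Fintype κ := Fintype.ofFinite κ
  have bas := Module.Basis.mk hlic hsp.ge
  have hcard : Fintype.card κ = Fintype.card {x // x ∈ s} := by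
    rw [← Module.finrank_eq_card_basis bas, Module.finrank_fintype_fun_eq_card]
  have eqv : {x // x ∈ s} ≃ κ := Fintype.equivOfCardEq hcard.symm
  refine ⟨fun j => a (eqv j), ?_⟩
  have h1 : LinearIndependent ℚ (Matrix.of fun j y => A y (a (eqv j)) :
      Matrix {x // x ∈ s} {x // x ∈ s} ℚ).row := hlic.comp eqv eqv.injective
  rw [Matrix.linearIndependent_rows_iff_isUnit, Matrix.isUnit_iff_isUnit_det, isUnit_iff_ne_zero] at h1
  intro h0
  apply h1
  have h2 : (Matrix.of fun j y => A y (a (eqv j)) :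
      Matrix {x // x ∈ s} {x // x ∈ s} ℚ) =
      (Int.castRingHom ℚ).mapMatrix (Matrix.of fun j y => VMs s B t y (a (eqv j))) := by
    ext j y
    simp [hA]
  rw [h2, ← RingHom.map_det, h0, map_zero]

theorem cramers {B : ℕ} (hB : 1 ≤ B) {t : Fin k → ℚ} (ht : ∀ i, InBox B (t i))
    {s : Finset (Fin k × Bool)} (hI : MulIndep t s) {z : Fin k × Bool} {n : ℤ} (hn : n ≠ 0)
    {e : Fin k × Bool → ℤ} (h : crd t z ^ n * ∏ x ∈ s, crd t x ^ e x = 1) :
    ∃ (N : ℤ) (f : Fin k × Bool → ℤ), N ≠ 0 ∧ |N| ≤ (MB k (Nat.log 2 (2 * B)) : ℕ) ∧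
      (∀ x, |f x| ≤ (MB k (Nat.log 2 (2 * B)) : ℕ)) ∧
      (N : ℝ) * Real.log (crd t z : ℝ) = ∑ x ∈ s, (f x : ℝ) * Real.log (crd t x : ℝ) := by
  classical
  have htn : ∀ i, t i ≠ 0 ∧ t i ≠ 1 := fun i => ⟨(ht i).1, (ht i).2.1⟩
  have hcr := crd_ne htn
  obtain ⟨L, hL⟩ : ∃ L, L = Nat.log 2 (2 * B) := ⟨_, rfl⟩
  have hL1 : 1 ≤ L := by
    rw [hL]
    exact Nat.log_pos (by norm_num) (by omega)
  obtain ⟨c, hs⟩ := minors ht hI
  obtain ⟨M, hM⟩ : ∃ M : Matrix {x // x ∈ s} {x // x ∈ s} ℤ,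
      M = Matrix.of fun j y => VMs s B t y (c j) := ⟨_, rfl⟩
  rw [← hM] at hs
  obtain ⟨w, hw⟩ : ∃ w : {x // x ∈ s} → ℤ, w = fun j => padicValRat (c j).1 (crd t z) :=
    ⟨_, rfl⟩
  obtain ⟨e', he'⟩ : ∃ e' : {x // x ∈ s} → ℤ, e' = fun y => e y.1 := ⟨_, rfl⟩
  have hMe : M.mulVec e' = -(n • w) := by
    funext j
    have hp : (c j).1.Prime := (Finset.mem_filter.1 (c j).2).2
    have hpf : Fact (c j).1.Prime := ⟨hp⟩
    have h1 := congrArg (padicValRat (c j).1) h
    rw [padicValRat.mul (zpow_ne_zero _ (hcr z))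
      (Finset.prod_ne_zero_iff.2 fun y _ => zpow_ne_zero _ (hcr y)), val_zpow (hcr z),
      val_prod _ _ _ (fun y _ => hcr y), padicValRat.one, ← Finset.sum_attach] at h1
    have h2 : M.mulVec e' j = ∑ y ∈ s.attach, e y.1 * padicValRat (c j).1 (crd t y.1) := by
      rw [Matrix.mulVec, dotProduct]
      apply Finset.sum_congr rfl
      intro y _
      rw [hM, he']
      exact mul_comm _ _
    rw [h2, hw]
    simp only [Pi.neg_apply, Pi.smul_apply, smul_eq_mul]
    linarith
  have hf : ∀ y, n * M.cramer w y = -(M.det * e' y) := by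
    intro y
    have h1 : M.cramer (M.mulVec e') = M.det • e' := by
      rw [Matrix.cramer_eq_adjugate_mulVec, Matrix.mulVec_mulVec, Matrix.adjugate_mul,
        Matrix.smul_mulVec, Matrix.one_mulVec]
    rw [hMe, map_neg, map_smul] at h1
    have h2 := congrFun h1 y
    simp only [Pi.neg_apply, Pi.smul_apply, smul_eq_mul] at h2
    linarith
  -- bounds
  have hcardι : Fintype.card {x // x ∈ s} ≤ 2 * k := by
    rw [Fintype.card_coe]
    have := Finset.card_le_univ s
    rw [Fintype.card_prod, Fintype.card_fin, Fintype.card_bool] at this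
    omega
  have hbd : ∀ A : Matrix {x // x ∈ s} {x // x ∈ s} ℤ, (∀ i j, |A i j| ≤ (L : ℤ)) →
      |A.det| ≤ (MB k L : ℕ) := by
    intro A hA
    have h1 := Matrix.det_le (A := A) (abv := AbsoluteValue.abs) (x := (L : ℤ)) hA
    refine le_trans h1 ?_
    rw [nsmul_eq_mul, MB]
    push_cast
    have h2 : ((Fintype.card {x // x ∈ s}).factorial : ℤ) ≤ ((2 * k).factorial : ℤ) := by
      exact_mod_cast Nat.factorial_le hcardι
    have h3 : (L : ℤ) ^ Fintype.card {x // x ∈ s} ≤ (L : ℤ) ^ (2 * k) :=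
      pow_le_pow_right₀ (by exact_mod_cast hL1) hcardι
    exact mul_le_mul h2 h3 (by positivity) (by positivity)
  have hval : ∀ (j : {x // x ∈ s}) (x : Fin k × Bool),
      |padicValRat (c j).1 (crd t x)| ≤ (L : ℤ) := by
    intro j x
    have hp : (c j).1.Prime := (Finset.mem_filter.1 (c j).2).2
    have hpf : Fact (c j).1.Prime := ⟨hp⟩
    rw [hL]
    exact val_bound ht x
  have hdet : |M.det| ≤ (MB k L : ℕ) := by
    apply hbd
    intro i j
    rw [hM]
    exact hval i j.1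
  have hcra : ∀ y, |M.cramer w y| ≤ (MB k L : ℕ) := by
    intro y
    rw [Matrix.cramer_apply]
    apply hbd
    intro i j
    rw [Matrix.updateCol_apply]
    split_ifs
    · rw [hw]; exact hval i z
    · rw [hM]; exact hval i j.1
  refine ⟨M.det, fun x => if hx : x ∈ s then M.cramer w ⟨x, hx⟩ else 0, hs, ?_, ?_, ?_⟩
  · rw [← hL]; exact hdet
  · intro x
    simp only
    rw [← hL]
    split_ifs with hx
    · exact hcra _
    · simp
  · -- the relation
    have hlog : (n : ℝ) * Real.log (crd t z : ℝ) +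
        ∑ x ∈ s, (e x : ℝ) * Real.log (crd t x : ℝ) = 0 := by
      have h1 : ((crd t z : ℚ) : ℝ) ^ n * ∏ x ∈ s, ((crd t x : ℚ) : ℝ) ^ e x = 1 := by
        exact_mod_cast congrArg (fun q : ℚ => (q : ℝ)) h
      have hcr' : ∀ x, ((crd t x : ℚ) : ℝ) ≠ 0 := fun x => by exact_mod_cast hcr x
      have h2 := congrArg Real.log h1
      rw [Real.log_mul (zpow_ne_zero _ (hcr' z))
        (Finset.prod_ne_zero_iff.2 fun y _ => zpow_ne_zero _ (hcr' y)), Real.log_zpow, Real.log_one,
        Real.log_prod (fun x _ => zpow_ne_zero _ (hcr' x))] at h2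
      rw [← h2]
      congr 1
      apply Finset.sum_congr rfl
      intro x _
      rw [Real.log_zpow]
    have hn' : (n : ℝ) ≠ 0 := by exact_mod_cast hn
    apply mul_left_cancel₀ hn'
    have h3 : (n : ℝ) * ∑ x ∈ s, (((if hx : x ∈ s then M.cramer w ⟨x, hx⟩ else 0 : ℤ)) : ℝ) *
        Real.log (crd t x : ℝ) = -(M.det : ℝ) * ∑ x ∈ s, (e x : ℝ) *
          Real.log (crd t x : ℝ) := by
      rw [Finset.mul_sum, Finset.mul_sum]
      apply Finset.sum_congr rfl
      intro x hx
      rw [dif_pos hx]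
      have h4 : (n : ℝ) * (M.cramer w ⟨x, hx⟩ : ℝ) = -((M.det : ℝ) * (e x : ℝ)) := by
        have := hf ⟨x, hx⟩
        rw [he'] at this
        exact_mod_cast this
      linear_combination Real.log (crd t x : ℝ) * h4
    rw [h3]
    linear_combination (M.det : ℝ) * hlog

end Pool.Agent.E8helper35.RP
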