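import Pool.Agent.E8helper35.RP.Sharp

/-!
# Rational points of rank at most `2 m`: the final statement
-/

set_option autoImplicit false

namespace Pool.Agent.E8helper35.RP

theorem mainQ (k m : ℕ) (hm : 1 ≤ m) (hmk : m ≤ k) :
    (∀ σ : Fin k → Fin k × Fin 6, par σ ≤ m → ∃ Λ : Submodule ℤ (Fin k ⊕ Fin k → ℤ),
      2 * (k - m) ≤ Module.finrank ℤ Λ ∧ ∀ t ∈ SpV σ, ∀ a ∈ Λ, mon t a = 1) ∧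
    (∃ c C : ℝ, 0 < c ∧ ∀ B : ℕ, 1 ≤ B → (Pts k (2 * m) B).Finite ∧
      c * (B : ℝ) ^ (2 * m) ≤ (Pts k (2 * m) B).ncard ∧
      ((Pts k (2 * m) B).ncard : ℝ) ≤ C * (B : ℝ) ^ (2 * m)) ∧
    (∀ ε : ℝ, 0 < ε → ∃ C : ℝ, ∀ B : ℕ, 1 ≤ B →
      ((Exc k m B).ncard : ℝ) ≤ C * (B : ℝ) ^ (2 * (m : ℝ) - 2 + ε)) ∧
    (m < k → ∃ c : ℝ, 0 < c ∧ ∃ B₀ : ℕ, ∀ B : ℕ, B₀ ≤ B →
      c * (B : ℝ) ^ (2 * m - 2) ≤ (Exc k m B).ncard) := by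
  obtain ⟨h1, ⟨c, hc, h2⟩, ⟨C, h3⟩, _, h5, _⟩ := main k m hm hmk
  exact ⟨h5, ⟨c, C, hc, fun B hB => ⟨h1 _ B, h2 _ B le_rfl hB, h3 B hB⟩⟩,
    fun ε hε => exc_upper k m hm hε, fun h => exc_lower k m hm h⟩

end Pool.Agent.E8helper35.RP
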