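import Pool.Agent.E8helper35.RP.LogCount

/-!
# The upper bounds, with powers of logarithms
-/

set_option autoImplicit false

namespace Pool.Agent.E8helper35.RP

open Finset

variable {k : ℕ}

/-- the exponents' bound and the logarithm -/
lemma MB_log (k : ℕ) : ∃ K : ℝ, 0 < K ∧ ∀ B : ℕ, 1 ≤ B →
    2 * (MB k (Nat.log 2 (2 * B)) : ℝ) + 1 ≤ K * Real.log (B + 1) ^ (2 * k) := by
  have hl2 : 0 < Real.log 2 := Real.log_pos (by norm_num)
  obtain ⟨A, hA⟩ : ∃ A : ℝ, A = 5 / Real.log 2 := ⟨_, rfl⟩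
  have hAp : 0 < A := by rw [hA]; positivity
  refine ⟨(2 * ((2 * k).factorial : ℝ) + 1) * A ^ (2 * k), by positivity, fun B hB => ?_⟩
  have hB1 : (1 : ℝ) ≤ B := by exact_mod_cast hB
  obtain ⟨L, hL⟩ : ∃ L : ℝ, L = (Nat.log 2 (2 * B) : ℝ) := ⟨_, rfl⟩
  have hL0 : 0 ≤ L := by rw [hL]; exact Nat.cast_nonneg _
  have hlogB : Real.log 2 ≤ Real.log (B + 1) := Real.log_le_log (by norm_num) (by linarith)
  have hL1 : 2 * L + 1 ≤ A * Real.log (B + 1) := by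
    have h1 : L ≤ Real.logb 2 ((2 * B : ℕ) : ℝ) := by rw [hL]; exact Real.natLog_le_logb _ _
    have h2 : Real.logb 2 ((2 * B : ℕ) : ℝ) ≤ 2 * Real.log (B + 1) / Real.log 2 := by
      rw [Real.logb, div_le_div_iff_of_pos_right hl2]
      have h3 : Real.log ((2 * B : ℕ) : ℝ) = Real.log 2 + Real.log B := by
        push_cast
        rw [Real.log_mul (by norm_num) (by linarith)]
      have h4 : Real.log (B : ℝ) ≤ Real.log (B + 1) := Real.log_le_log (by linarith) (by linarith)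
      rw [h3]
      linarith
    have h5 : (1 : ℝ) ≤ Real.log (B + 1) / Real.log 2 := by
      rw [le_div_iff₀ hl2]
      linarith
    rw [hA]
    have h6 : 5 / Real.log 2 * Real.log (B + 1) =
        2 * (2 * Real.log (B + 1) / Real.log 2) + Real.log (B + 1) / Real.log 2 := by ring
    rw [h6]
    linarith
  have h2 : L ^ (2 * k) ≤ (2 * L + 1) ^ (2 * k) := pow_le_pow_left₀ hL0 (by linarith) _
  have h3 : (1 : ℝ) ≤ (2 * L + 1) ^ (2 * k) := one_le_pow₀ (by linarith)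
  have h4 : (0 : ℝ) ≤ 2 * ((2 * k).factorial : ℝ) := by positivity
  calc 2 * (MB k (Nat.log 2 (2 * B)) : ℝ) + 1
      = 2 * ((2 * k).factorial : ℝ) * L ^ (2 * k) + 1 := by
        rw [MB, hL]
        push_cast
        ring
    _ ≤ 2 * ((2 * k).factorial : ℝ) * (2 * L + 1) ^ (2 * k) + (2 * L + 1) ^ (2 * k) :=
        add_le_add (mul_le_mul_of_nonneg_left h2 h4) h3
    _ = (2 * ((2 * k).factorial : ℝ) + 1) * (2 * L + 1) ^ (2 * k) := by ring
    _ ≤ (2 * ((2 * k).factorial : ℝ) + 1) * (A * Real.log (B + 1)) ^ (2 * k) := by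
        apply mul_le_mul_of_nonneg_left _ (by positivity)
        exact pow_le_pow_left₀ (by linarith) hL1 _
    _ = (2 * ((2 * k).factorial : ℝ) + 1) * A ^ (2 * k) * Real.log (B + 1) ^ (2 * k) := by
        rw [mul_pow]
        ring

lemma mem_CC {B : ℕ} (hB : 1 ≤ B) {t : Fin k → ℚ} (ht : ∀ i, InBox B (t i))
    {I : Finset (Fin k)} (hI : MulIndep t (gens I)) {j : Fin k} (hj : j ∉ I)
    (hd : ¬ MulIndep t (gens (insert j I))) :
    t j ∈ CC B (MB k (Nat.log 2 (2 * B))) I t := by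
  classical
  obtain ⟨a, b, f, hab, ha, hb, hf, h⟩ := compl_rel hB ht hI hj hd
  simp only [CC, Finset.mem_biUnion]
  refine ⟨a, ?_, b, ?_, f, mem_Ex.2 hf, ?_⟩
  · rw [Finset.mem_Icc]; exact abs_le.1 ha
  · rw [Finset.mem_Icc]; exact abs_le.1 hb
  · rw [C1, Finset.mem_filter]
    exact ⟨mem_S.2 (ht j), hab, h⟩

/-- tuples of rank at most `2 m + 1` -/
theorem upper_AL (k m : ℕ) : ∃ (C : ℝ) (a : ℕ), ∀ B : ℕ, 1 ≤ B →
    ∀ T : Finset (Fin k → ℚ), (∀ t ∈ T, (∀ i, InBox B (t i)) ∧ RankLE (2 * m + 1) t) →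
      (T.card : ℝ) ≤ C * (B : ℝ) ^ (2 * m) * Real.log (B + 1) ^ a := by
  classical
  obtain ⟨K, hK, hKB⟩ := MB_log k
  refine ⟨2 ^ k * 3 ^ m * (7 * K ^ (2 * k + 2)) ^ k, 2 * k * (2 * k + 2) * k, fun B hB T hT => ?_⟩
  have hB1 : (1 : ℝ) ≤ B := by exact_mod_cast hB
  have hlog0 : 0 ≤ Real.log (B + 1) := Real.log_nonneg (by linarith)
  obtain ⟨M, hM⟩ : ∃ M, M = MB k (Nat.log 2 (2 * B)) := ⟨_, rfl⟩
  have hMK := hKB B hB
  rw [← hM] at hMK
  have h := countL (B := B) (M := M) (fun I => if I.card ≤ m then PP I (fun _ => S B) else ∅) T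
    (fun t ht => by
      obtain ⟨h1, h2⟩ := hT t ht
      obtain ⟨I, k1, k2, k3, _⟩ := struct2 h2
      refine ⟨h1, I, ?_, fun j hj => by rw [hM]; exact mem_CC hB h1 k1 hj (k3 j hj)⟩
      rw [if_pos (by omega), rs_mem_PP]
      exact fun j _ => mem_S.2 (h1 j)) (c := (3 * (B : ℝ) ^ 2) ^ m)
    (fun I => by
      split_ifs with hI
      · rw [card_PPS]
        have hS : ((S B).card : ℝ) ≤ 3 * (B : ℝ) ^ 2 := by exact_mod_cast card_S hB
        push_cast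
        refine (pow_le_pow_left₀ (Nat.cast_nonneg _) hS _).trans ?_
        apply pow_le_pow_right₀ _ hI
        nlinarith
      · rw [Finset.card_empty, Nat.cast_zero]
        positivity)
  refine h.trans ?_
  have h1 : (7 * (2 * (M : ℝ) + 1) ^ (2 * k + 2)) ^ k ≤
      (7 * K ^ (2 * k + 2)) ^ k * Real.log (B + 1) ^ (2 * k * (2 * k + 2) * k) := by
    rw [pow_mul (Real.log (B + 1)), ← mul_pow]
    apply pow_le_pow_left₀ (by positivity)
    rw [pow_mul (Real.log (B + 1)), mul_assoc, ← mul_pow]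
    apply mul_le_mul_of_nonneg_left _ (by norm_num)
    exact pow_le_pow_left₀ (by positivity) hMK _
  calc 2 ^ k * ((3 * (B : ℝ) ^ 2) ^ m * (7 * (2 * (M : ℝ) + 1) ^ (2 * k + 2)) ^ k)
      ≤ 2 ^ k * ((3 * (B : ℝ) ^ 2) ^ m * ((7 * K ^ (2 * k + 2)) ^ k *
        Real.log (B + 1) ^ (2 * k * (2 * k + 2) * k))) := by gcongr
    _ = _ := by rw [mul_pow, ← pow_mul]; ring

/-- tuples of rank at most `2 m` with more than `m` orbits -/
theorem upper_QL (k m : ℕ) (hm : 1 ≤ m) : ∃ (C : ℝ) (a : ℕ), ∀ B : ℕ, 1 ≤ B →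
    ∀ T : Finset (Fin k → ℚ), (∀ t ∈ T, (∀ i, InBox B (t i)) ∧ RankLE (2 * m) t ∧ ¬ Special m t) →
      (T.card : ℝ) ≤ C * (B : ℝ) ^ (2 * m - 2) * Real.log (B + 1) ^ a := by
  classical
  obtain ⟨K, hK, hKB⟩ := MB_log k
  obtain ⟨m', hm'⟩ : ∃ m', m = m' + 1 := ⟨m - 1, by omega⟩
  obtain ⟨n, hn⟩ : ∃ n, n = 4 * k + 2 + (2 * k + 2) * k := ⟨_, rfl⟩
  refine ⟨2 ^ k * (73 * m * 3 ^ m' * 7 ^ k) * K ^ n, 2 * k * n, fun B hB T hT => ?_⟩
  have hm1 : (1 : ℝ) ≤ m := by exact_mod_cast hm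
  have hB1 : (1 : ℝ) ≤ B := by exact_mod_cast hB
  have hB0 : (0 : ℝ) < B := by linarith
  have hlog0 : 0 ≤ Real.log (B + 1) := Real.log_nonneg (by linarith)
  obtain ⟨M, hM⟩ : ∃ M, M = MB k (Nat.log 2 (2 * B)) := ⟨_, rfl⟩
  have hMK := hKB B hB
  rw [← hM] at hMK
  have hM0 : (0 : ℝ) ≤ M := Nat.cast_nonneg _
  have hS : ((S B).card : ℝ) ≤ 3 * (B : ℝ) ^ 2 := by exact_mod_cast card_S hB
  have h31 : (1 : ℝ) ≤ 3 * (B : ℝ) ^ 2 := by nlinarith
  obtain ⟨P, hP⟩ : ∃ P : ℝ, P = (B : ℝ) ^ (2 * m - 2) := ⟨_, rfl⟩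
  have hP' : P = ((B : ℝ) ^ 2) ^ m' := by
    rw [hP, ← pow_mul]
    congr 1
    omega
  have hP0 : 0 < P := by rw [hP]; positivity
  obtain ⟨Q, hQ⟩ : ∃ Q : ℝ, Q = (2 * (M : ℝ) + 1) ^ (4 * k + 2) := ⟨_, rfl⟩
  have hQ1 : 1 ≤ Q := by rw [hQ]; exact one_le_pow₀ (by linarith)
  obtain ⟨E, hE⟩ : ∃ E : ℝ, E = P * Q := ⟨_, rfl⟩
  have hPE : P ≤ E := by rw [hE]; nlinarith
  have hE0 : 0 < E := lt_of_lt_of_le hP0 hPE
  have hSm : ((S B).card : ℝ) ^ m' ≤ 3 ^ m' * P := by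
    calc ((S B).card : ℝ) ^ m' ≤ (3 * (B : ℝ) ^ 2) ^ m' :=
          pow_le_pow_left₀ (Nat.cast_nonneg _) hS m'
      _ = 3 ^ m' * P := by rw [mul_pow, hP']
  have b1 : ∀ I : Finset (Fin k), I.card < m →
      ((PP I (fun _ => S B)).card : ℝ) ≤ 73 * m * 3 ^ m' * E := by
    intro I hI
    rw [card_PPS]
    push_cast
    calc ((S B).card : ℝ) ^ I.card ≤ (3 * (B : ℝ) ^ 2) ^ I.card :=
          pow_le_pow_left₀ (Nat.cast_nonneg _) hS _
      _ ≤ (3 * (B : ℝ) ^ 2) ^ m' := pow_le_pow_right₀ h31 (by omega)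
      _ = 3 ^ m' * P := by rw [mul_pow, hP']
      _ ≤ 3 ^ m' * E := mul_le_mul_of_nonneg_left hPE (by positivity)
      _ ≤ 73 * m * (3 ^ m' * E) := by
          have h0 : (0 : ℝ) ≤ 3 ^ m' * E := by positivity
          nlinarith
      _ = 73 * m * 3 ^ m' * E := by ring
  have b3 : ∀ I : Finset (Fin k), I.card = m →
      ((ZZq I B M).card : ℝ) ≤ 73 * m * 3 ^ m' * E := by
    intro I hI
    have h := card_ZZq I B M
    rw [hI] at h
    have h2 : ((ZZq I B M).card : ℝ) ≤ m * (2 * (2 * ((2 * (M : ℝ) + 1) *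
        ((2 * (M : ℝ) + 1) ^ (2 * k) * ((2 * (M : ℝ) + 1) * ((2 * (M : ℝ) + 1) ^ (2 * k) *
          (18 * ((S B).card : ℝ) ^ m'))))))) := by
      have h3 : m - 1 = m' := by omega
      rw [h3] at h
      exact_mod_cast h
    calc ((ZZq I B M).card : ℝ) ≤ m * (2 * (2 * ((2 * (M : ℝ) + 1) *
        ((2 * (M : ℝ) + 1) ^ (2 * k) * ((2 * (M : ℝ) + 1) * ((2 * (M : ℝ) + 1) ^ (2 * k) *
          (18 * ((S B).card : ℝ) ^ m'))))))) := h2
      _ = 72 * m * Q * ((S B).card : ℝ) ^ m' := by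
          have : Q = (2 * (M : ℝ) + 1) ^ (2 * k) *
              (2 * (M : ℝ) + 1) ^ (2 * k) * (2 * (M : ℝ) + 1) * (2 * (M : ℝ) + 1) := by
            rw [hQ, ← pow_add, ← pow_succ, ← pow_succ]
            congr 1
            omega
          rw [this]
          ring
      _ ≤ 72 * m * Q * (3 ^ m' * P) := mul_le_mul_of_nonneg_left hSm (by positivity)
      _ = 72 * m * 3 ^ m' * E := by rw [hE]; ring
      _ ≤ 73 * m * 3 ^ m' * E := by
          apply mul_le_mul_of_nonneg_right _ hE0.le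
          apply mul_le_mul_of_nonneg_right _ (by positivity)
          nlinarith
  have h := countL (B := B) (M := M) (fun I => if I.card < m then PP I (fun _ => S B) else
      if I.card = m then ZZq I B M else ∅) T (fun t ht => by
    obtain ⟨h1, h2, h3⟩ := hT t ht
    obtain ⟨I, k1, k2, k3, k4⟩ := struct2 h2
    refine ⟨h1, I, ?_, fun j hj => by rw [hM]; exact mem_CC hB h1 k1 hj (k3 j hj)⟩
    by_cases hI : I.card < m
    · rw [if_pos hI, rs_mem_PP]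
      exact fun j _ => mem_S.2 (h1 j)
    · have hI' : I.card = m := by omega
      rw [if_neg hI, if_pos hI', hM]
      exact mem_ZZq hB h1 k1 (k4 (by rw [hI'])) (by rw [hI']; exact h3))
    (c := 73 * m * 3 ^ m' * E)
    (fun I => by
      split_ifs with hI hI'
      · exact b1 I hI
      · exact b3 I hI'
      · rw [Finset.card_empty, Nat.cast_zero]
        positivity)
  refine h.trans ?_
  have h1 : (2 * (M : ℝ) + 1) ^ n ≤ K ^ n * Real.log (B + 1) ^ (2 * k * n) := by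
    rw [pow_mul (Real.log (B + 1)), ← mul_pow]
    exact pow_le_pow_left₀ (by positivity) hMK _
  calc 2 ^ k * (73 * m * 3 ^ m' * E * (7 * (2 * (M : ℝ) + 1) ^ (2 * k + 2)) ^ k)
      = 2 ^ k * (73 * m * 3 ^ m' * 7 ^ k) * P * (2 * (M : ℝ) + 1) ^ n := by
        rw [hE, hQ, hn, mul_pow, ← pow_mul, pow_add _ (4 * k + 2)]
        ring
    _ ≤ 2 ^ k * (73 * m * 3 ^ m' * 7 ^ k) * P * (K ^ n * Real.log (B + 1) ^ (2 * k * n)) :=
        mul_le_mul_of_nonneg_left h1 (by positivity)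
    _ = _ := by rw [hP]; ring

end Pool.Agent.E8helper35.RP
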