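import Pool.Agent.E8helper35.RP.Final
import Pool.Agent.E8helper35.RP.UpperL

/-!
# Rational points of small rank: the final statements, with powers of logarithms
-/

set_option autoImplicit false

namespace Pool.Agent.E8helper35.RP

theorem exc_upperL (k m : ℕ) (hm : 1 ≤ m) : ∃ (C : ℝ) (a : ℕ), ∀ B : ℕ, 1 ≤ B →
    ((Exc k m B).ncard : ℝ) ≤ C * (B : ℝ) ^ (2 * m - 2) * Real.log (B + 1) ^ a := by
  classical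
  obtain ⟨C, a, hC⟩ := upper_QL k m hm
  refine ⟨C, a, fun B hB => ?_⟩
  rw [Set.ncard_eq_toFinset_card _ (Exc_finite k m B)]
  apply hC B hB
  intro t ht
  rw [Set.Finite.mem_toFinset] at ht
  obtain ⟨h1, h2⟩ := Pts_spec ht.1
  refine ⟨h1, h2, fun h => ?_⟩
  obtain ⟨σ, hσ, hσt⟩ := (special_iff (fun i => ⟨(h1 i).1, (h1 i).2.1⟩)).1 h
  exact ht.2 σ hσ hσt

theorem mainL (k m : ℕ) (hm : 1 ≤ m) (hmk : m ≤ k) :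
    (∀ σ : Fin k → Fin k × Fin 6, par σ ≤ m → ∃ Λ : Submodule ℤ (Fin k ⊕ Fin k → ℤ),
      2 * (k - m) ≤ Module.finrank ℤ Λ ∧ ∀ t ∈ SpV σ, ∀ a ∈ Λ, mon t a = 1) ∧
    (∃ c C : ℝ, 0 < c ∧ ∀ B : ℕ, 1 ≤ B → (Pts k (2 * m) B).Finite ∧
      c * (B : ℝ) ^ (2 * m) ≤ (Pts k (2 * m) B).ncard ∧
      ((Pts k (2 * m) B).ncard : ℝ) ≤ C * (B : ℝ) ^ (2 * m)) ∧
    (∃ (C : ℝ) (a : ℕ), ∀ B : ℕ, 1 ≤ B →
      ((Exc k m B).ncard : ℝ) ≤ C * (B : ℝ) ^ (2 * m - 2) * Real.log (B + 1) ^ a) ∧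
    (m < k → ∃ c : ℝ, 0 < c ∧ ∃ B₀ : ℕ, ∀ B : ℕ, B₀ ≤ B →
      c * (B : ℝ) ^ (2 * m - 2) ≤ (Exc k m B).ncard) := by
  obtain ⟨h1, h2, _, h4⟩ := mainQ k m hm hmk
  exact ⟨h1, h2, exc_upperL k m hm, h4⟩

/-- odd ranks -/
theorem mainOdd (k m : ℕ) (hm : 1 ≤ m) (hmk : m ≤ k) :
    (∃ c : ℝ, 0 < c ∧ ∀ B : ℕ, 1 ≤ B → (Pts k (2 * m + 1) B).Finite ∧
      c * (B : ℝ) ^ (2 * m) ≤ (Pts k (2 * m + 1) B).ncard) ∧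
    (∃ (C : ℝ) (a : ℕ), ∀ B : ℕ, 1 ≤ B →
      ((Pts k (2 * m + 1) B).ncard : ℝ) ≤ C * (B : ℝ) ^ (2 * m) * Real.log (B + 1) ^ a) := by
  classical
  obtain ⟨h1, ⟨c, hc, h2⟩, _⟩ := main k m hm hmk
  refine ⟨⟨c, hc, fun B hB => ⟨h1 _ B, h2 _ B (by omega) hB⟩⟩, ?_⟩
  obtain ⟨C, a, hC⟩ := upper_AL k m
  refine ⟨C, a, fun B hB => ?_⟩
  rw [Set.ncard_eq_toFinset_card _ (Pts_finite k (2 * m + 1) B)]
  apply hC B hB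
  intro t ht
  rw [Set.Finite.mem_toFinset] at ht
  exact Pts_spec ht

end Pool.Agent.E8helper35.RP
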