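import Mathlib

/-!
# The equation `c z ^ a (1 - z) ^ b + c' z ^ a' (1 - z) ^ b' = 1`
-/

set_option autoImplicit false

namespace Pool.Agent.E8helper35.RP

open Polynomial

/-- the identities -/
def Triv (a b a' b' : ℤ) (c c' : ℚ) : Prop :=
  (a = 0 ∧ b = 0 ∧ a' = 0 ∧ b' = 0) ∨
  (a = 1 ∧ b = 0 ∧ a' = 0 ∧ b' = 1 ∧ c = 1 ∧ c' = 1) ∨
  (a = 0 ∧ b = 1 ∧ a' = 1 ∧ b' = 0 ∧ c = 1 ∧ c' = 1) ∨
  (a = 1 ∧ b = -1 ∧ a' = 0 ∧ b' = -1 ∧ c = -1 ∧ c' = 1) ∨
  (a = 0 ∧ b = -1 ∧ a' = 1 ∧ b' = -1 ∧ c = 1 ∧ c' = -1) ∨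
  (a = -1 ∧ b = 1 ∧ a' = -1 ∧ b' = 0 ∧ c = -1 ∧ c' = 1) ∨
  (a = -1 ∧ b = 0 ∧ a' = -1 ∧ b' = 1 ∧ c = 1 ∧ c' = -1)

/-- the orders at zero -/
lemma at_zero {P Q R : ℚ[X]} {i j l : ℕ} {c c' : ℚ} (hc : c ≠ 0) (hc' : c' ≠ 0)
    (hP : P.eval 0 = c) (hQ : Q.eval 0 = c') (hR : R.eval 0 = 1)
    (h : X ^ i * P + X ^ j * Q = X ^ l * R) :
    (i = l ∧ j = l ∧ c + c' = 1) ∨ (∃ n, 1 ≤ n ∧ l = i + n ∧ j = i ∧ c + c' = 0) ∨
      (∃ n, 1 ≤ n ∧ i = l + n ∧ j = l ∧ c' = 1) ∨ (∃ n, 1 ≤ n ∧ j = l + n ∧ i = l ∧ c = 1) := by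
  obtain ⟨μ, i', j', l', hi, hj, hl, hz⟩ : ∃ μ i' j' l', i = μ + i' ∧ j = μ + j' ∧ l = μ + l' ∧
      (i' = 0 ∨ j' = 0 ∨ l' = 0) := by
    refine ⟨min i (min j l), i - min i (min j l), j - min i (min j l), l - min i (min j l), ?_, ?_,
      ?_, ?_⟩ <;> omega
  subst hi hj hl
  have h1 : X ^ i' * P + X ^ j' * Q = X ^ l' * R := by
    have hX : (X : ℚ[X]) ^ μ ≠ 0 := pow_ne_zero _ X_ne_zero
    apply mul_left_cancel₀ hX
    calc X ^ μ * (X ^ i' * P + X ^ j' * Q) = X ^ (μ + i') * P + X ^ (μ + j') * Q := by ring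
      _ = X ^ (μ + l') * R := h
      _ = X ^ μ * (X ^ l' * R) := by ring
  have h2 := congrArg (Polynomial.eval 0) h1
  simp only [eval_add, eval_mul, eval_pow, eval_X, hP, hQ, hR] at h2
  rcases Nat.eq_zero_or_pos i' with hi | hi <;> rcases Nat.eq_zero_or_pos j' with hj | hj <;>
    rcases Nat.eq_zero_or_pos l' with hl | hl
  · subst hi hj hl
    left
    exact ⟨rfl, rfl, by simpa using h2⟩
  · subst hi hj
    right; left
    rw [zero_pow hl.ne'] at h2
    exact ⟨l', hl, by omega, rfl, by simpa using h2⟩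
  · subst hi hl
    right; right; right
    rw [zero_pow hj.ne'] at h2
    exact ⟨j', hj, by omega, rfl, by simpa using h2⟩
  · subst hi
    rw [zero_pow hj.ne', zero_pow hl.ne'] at h2
    exact absurd (by simpa using h2) hc
  · subst hj hl
    right; right; left
    rw [zero_pow hi.ne'] at h2
    exact ⟨i', hi, by omega, rfl, by simpa using h2⟩
  · subst hj
    rw [zero_pow hi.ne', zero_pow hl.ne'] at h2
    exact absurd (by simpa using h2) hc'
  · subst hl
    rw [zero_pow hi.ne', zero_pow hj.ne'] at h2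
    simp at h2
  · omega

lemma two_pow_eq {n : ℕ} (hn : 1 ≤ n) {s : ℚ} (hs : s = 1 ∨ s = -1) (h : (2 : ℚ) ^ n = 1 - s) :
    n = 1 := by
  rcases hs with rfl | rfl
  · rw [sub_self] at h
    exact absurd h (by positivity)
  · have h1 : (2 : ℚ) ^ n = 2 ^ 1 := by rw [h]; norm_num
    exact pow_right_injective₀ (by norm_num) (by norm_num) h1

lemma sgn (n : ℕ) : ((-1 : ℚ) ^ n = 1) ∨ ((-1 : ℚ) ^ n = -1) := neg_one_pow_eq_or ℚ n

/-- the polynomial identities -/
theorem ident {c c' : ℚ} (hc : c ≠ 0) (hc' : c' ≠ 0) {α β α' β' L : ℕ}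
    (h : C c * (X ^ α * (1 - X) ^ β) + C c' * (X ^ α' * (1 - X) ^ β') =
      (X ^ L * (1 - X) ^ L : ℚ[X])) :
    Triv ((α : ℤ) - L) ((β : ℤ) - L) ((α' : ℤ) - L) ((β' : ℤ) - L) c c' := by
  have hev : ∀ z : ℚ, c * (z ^ α * (1 - z) ^ β) + c' * (z ^ α' * (1 - z) ^ β') =
      z ^ L * (1 - z) ^ L := by
    intro z
    have := congrArg (Polynomial.eval z) h
    simpa using this
  have e2 := hev 2
  have em := hev (-1)
  have k1 : (1 : ℚ) - 2 = -1 := by norm_num
  have k2 : (1 : ℚ) - -1 = 2 := by norm_num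
  rw [k1] at e2
  rw [k2] at em
  have t0 := at_zero (P := C c * (1 - X) ^ β) (Q := C c' * (1 - X) ^ β') (R := (1 - X) ^ L)
    (i := α) (j := α') (l := L) hc hc' (by simp) (by simp) (by simp) (by
      rw [← h]; ring)
  have t1 := at_zero (P := C c * (1 - X) ^ α) (Q := C c' * (1 - X) ^ α') (R := (1 - X) ^ L)
    (i := β) (j := β') (l := L) hc hc' (by simp) (by simp) (by simp) (by
      have h1 := congrArg (fun P : ℚ[X] => P.comp (1 - X)) h
      simp only [add_comp, mul_comp, C_comp, pow_comp, X_comp, sub_comp, one_comp] at h1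
      have h2 : (1 : ℚ[X]) - (1 - X) = X := by ring
      rw [h2] at h1
      linear_combination h1)
  have p2 : ∀ n : ℕ, (2 : ℚ) ^ n ≠ 0 := fun n => pow_ne_zero _ (by norm_num)
  have pm : ∀ n : ℕ, (-1 : ℚ) ^ n ≠ 0 := fun n => pow_ne_zero _ (by norm_num)
  rcases t0 with ⟨a1, a2, a3⟩ | ⟨n, hn, a1, a2, a3⟩ | ⟨n, hn, a1, a2, a3⟩ | ⟨n, hn, a1, a2, a3⟩ <;>
  rcases t1 with ⟨b1, b2, b3⟩ | ⟨m, hm, b1, b2, b3⟩ | ⟨m, hm, b1, b2, b3⟩ | ⟨m, hm, b1, b2, b3⟩
  · left; omega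
  · rw [a3] at b3; norm_num at b3
  · exact absurd (by linarith) hc
  · exact absurd (by linarith) hc'
  · rw [a3] at b3; norm_num at b3
  · -- P, P
    exfalso
    have hcc : c' = -c := by linarith
    rw [a2, b2, hcc, show c * ((2 : ℚ) ^ α * (-1) ^ β) + -c * (2 ^ α * (-1) ^ β) = 0 by ring] at e2
    exact mul_ne_zero (p2 _) (pm _) e2.symm
  · -- P, U
    have hc1 : c = -1 := by linarith
    subst b1 b2 a2 a1
    rw [hc1, b3] at e2 em
    have E1 : (2 : ℚ) ^ n = 1 - (-1) ^ m := by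
      apply mul_left_cancel₀ (mul_ne_zero (p2 α') (pm (α' + n)))
      simp only [pow_add] at e2 em ⊢
      linear_combination -e2
    have E2 : (2 : ℚ) ^ m = 1 - (-1) ^ n := by
      apply mul_left_cancel₀ (mul_ne_zero (p2 (α' + n)) (pm α'))
      simp only [pow_add] at e2 em ⊢
      linear_combination -em
    have hn1 := two_pow_eq hn (sgn m) E1
    have hm1 := two_pow_eq hm (sgn n) E2
    right; right; right; right; right; left
    refine ⟨by omega, by omega, by omega, by omega, hc1, b3⟩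
  · -- P, V
    have hc1 : c' = -1 := by linarith
    subst b1 b2 a2 a1
    rw [hc1, b3] at e2 em
    have E1 : (2 : ℚ) ^ n = 1 - (-1) ^ m := by
      apply mul_left_cancel₀ (mul_ne_zero (p2 α') (pm (α' + n)))
      simp only [pow_add] at e2 em ⊢
      linear_combination -e2
    have E2 : (2 : ℚ) ^ m = 1 - (-1) ^ n := by
      apply mul_left_cancel₀ (mul_ne_zero (p2 (α' + n)) (pm α'))
      simp only [pow_add] at e2 em ⊢
      linear_combination -em
    have hn1 := two_pow_eq hn (sgn m) E1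
    have hm1 := two_pow_eq hm (sgn n) E2
    right; right; right; right; right; right
    refine ⟨by omega, by omega, by omega, by omega, b3, hc1⟩
  · exact absurd (by linarith) hc
  · -- U, P
    have hc1 : c = -1 := by linarith
    subst a1 a2 b2 b1
    rw [hc1, a3] at e2 em
    have E1 : (2 : ℚ) ^ n = 1 - (-1) ^ m := by
      apply mul_left_cancel₀ (mul_ne_zero (p2 (β' + m)) (pm β'))
      simp only [pow_add] at e2 em ⊢
      linear_combination -e2
    have E2 : (2 : ℚ) ^ m = 1 - (-1) ^ n := by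
      apply mul_left_cancel₀ (mul_ne_zero (p2 β') (pm (β' + m)))
      simp only [pow_add] at e2 em ⊢
      linear_combination -em
    have hn1 := two_pow_eq hn (sgn m) E1
    have hm1 := two_pow_eq hm (sgn n) E2
    right; right; right; left
    refine ⟨by omega, by omega, by omega, by omega, hc1, a3⟩
  · -- U, U
    exfalso
    rw [a2, b2, a3, one_mul] at e2
    have : c * ((2 : ℚ) ^ α * (-1) ^ β) = 0 := by linarith
    exact mul_ne_zero hc (mul_ne_zero (p2 _) (pm _)) this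
  · -- U, V
    subst a1 a2 b1 b2
    rw [b3, a3] at e2 em
    have E1 : (2 : ℚ) ^ n = 1 - (-1) ^ m := by
      apply mul_left_cancel₀ (mul_ne_zero (p2 β) (pm β))
      simp only [pow_add] at e2 em ⊢
      linear_combination e2
    have E2 : (2 : ℚ) ^ m = 1 - (-1) ^ n := by
      apply mul_left_cancel₀ (mul_ne_zero (p2 β) (pm β))
      simp only [pow_add] at e2 em ⊢
      linear_combination em
    have hn1 := two_pow_eq hn (sgn m) E1
    have hm1 := two_pow_eq hm (sgn n) E2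
    right; left
    refine ⟨by omega, by omega, by omega, by omega, b3, a3⟩
  · exact absurd (by linarith) hc'
  · -- V, P
    have hc1 : c' = -1 := by linarith
    subst a1 a2 b2 b1
    rw [hc1, a3] at e2 em
    have E1 : (2 : ℚ) ^ n = 1 - (-1) ^ m := by
      apply mul_left_cancel₀ (mul_ne_zero (p2 (β' + m)) (pm β'))
      simp only [pow_add] at e2 em ⊢
      linear_combination -e2
    have E2 : (2 : ℚ) ^ m = 1 - (-1) ^ n := by
      apply mul_left_cancel₀ (mul_ne_zero (p2 β') (pm (β' + m)))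
      simp only [pow_add] at e2 em ⊢
      linear_combination -em
    have hn1 := two_pow_eq hn (sgn m) E1
    have hm1 := two_pow_eq hm (sgn n) E2
    right; right; right; right; left
    refine ⟨by omega, by omega, by omega, by omega, a3, hc1⟩
  · -- V, U
    subst a1 a2 b1 b2
    rw [b3, a3] at e2 em
    have E1 : (2 : ℚ) ^ n = 1 - (-1) ^ m := by
      apply mul_left_cancel₀ (mul_ne_zero (p2 β') (pm β'))
      simp only [pow_add] at e2 em ⊢
      linear_combination e2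
    have E2 : (2 : ℚ) ^ m = 1 - (-1) ^ n := by
      apply mul_left_cancel₀ (mul_ne_zero (p2 β') (pm β'))
      simp only [pow_add] at e2 em ⊢
      linear_combination em
    have hn1 := two_pow_eq hn (sgn m) E1
    have hm1 := two_pow_eq hm (sgn n) E2
    right; right; left
    refine ⟨by omega, by omega, by omega, by omega, a3, b3⟩
  · -- V, V
    exfalso
    rw [a2, b2, a3, one_mul] at e2
    have : c' * ((2 : ℚ) ^ α' * (-1) ^ β') = 0 := by linarith
    exact mul_ne_zero hc' (mul_ne_zero (p2 _) (pm _)) this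

/-- the number of solutions -/
theorem one_var {c c' : ℚ} (hc : c ≠ 0) (hc' : c' ≠ 0) {a b a' b' : ℤ} {L : ℕ}
    (ha : |a| ≤ L) (hb : |b| ≤ L) (ha' : |a'| ≤ L) (hb' : |b'| ≤ L)
    (hT : ¬ Triv a b a' b' c c') (Z : Finset ℚ)
    (hZ : ∀ z ∈ Z, z ≠ 0 ∧ z ≠ 1 ∧ c * (z ^ a * (1 - z) ^ b) + c' * (z ^ a' * (1 - z) ^ b') = 1) :
    Z.card ≤ 4 * L := by
  classical
  rw [abs_le] at ha hb ha' hb'
  obtain ⟨α, hα⟩ : ∃ α : ℕ, (α : ℤ) = a + L := ⟨(a + L).toNat, by omega⟩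
  obtain ⟨β, hβ⟩ : ∃ β : ℕ, (β : ℤ) = b + L := ⟨(b + L).toNat, by omega⟩
  obtain ⟨α', hα'⟩ : ∃ α' : ℕ, (α' : ℤ) = a' + L := ⟨(a' + L).toNat, by omega⟩
  obtain ⟨β', hβ'⟩ : ∃ β' : ℕ, (β' : ℤ) = b' + L := ⟨(b' + L).toNat, by omega⟩
  obtain ⟨F, hF⟩ : ∃ F : ℚ[X], F = C c * (X ^ α * (1 - X) ^ β) + C c' * (X ^ α' * (1 - X) ^ β') -
      X ^ L * (1 - X) ^ L := ⟨_, rfl⟩
  have hF0 : F ≠ 0 := by
    intro h0
    apply hT
    have h1 : C c * (X ^ α * (1 - X) ^ β) + C c' * (X ^ α' * (1 - X) ^ β') =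
      (X ^ L * (1 - X) ^ L : ℚ[X]) := by
      rw [← sub_eq_zero, ← hF, h0]
    have h2 := ident hc hc' h1
    have e1 : (α : ℤ) - L = a := by omega
    have e2 : (β : ℤ) - L = b := by omega
    have e3 : (α' : ℤ) - L = a' := by omega
    have e4 : (β' : ℤ) - L = b' := by omega
    rwa [e1, e2, e3, e4] at h2
  have hdeg1 : (1 - X : ℚ[X]).natDegree ≤ 1 := by
    refine (natDegree_sub_le _ _).trans ?_
    simp
  have hd : ∀ (x : ℚ) (m n : ℕ), m ≤ 2 * L → n ≤ 2 * L →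
      (C x * (X ^ m * (1 - X) ^ n) : ℚ[X]).natDegree ≤ 4 * L := by
    intro x m n hm hn
    refine (natDegree_C_mul_le _ _).trans (natDegree_mul_le.trans ?_)
    have h1 : ((X : ℚ[X]) ^ m).natDegree = m := natDegree_X_pow m
    have h2 : (((1 - X : ℚ[X])) ^ n).natDegree ≤ n * 1 :=
      natDegree_pow_le.trans (Nat.mul_le_mul_left n hdeg1)
    omega
  have hdF : F.natDegree ≤ 4 * L := by
    rw [hF]
    refine (natDegree_sub_le _ _).trans (max_le ((natDegree_add_le _ _).trans (max_le ?_ ?_)) ?_)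
    · exact hd c α β (by omega) (by omega)
    · exact hd c' α' β' (by omega) (by omega)
    · have := hd 1 L L (by omega) (by omega)
      rwa [C_1, one_mul] at this
  have hsub : Z ⊆ F.roots.toFinset := by
    intro z hz
    obtain ⟨h0, h1, h2⟩ := hZ z hz
    rw [Multiset.mem_toFinset, mem_roots hF0, IsRoot.def, hF]
    simp only [eval_sub, eval_add, eval_mul, eval_pow, eval_C, eval_X, eval_one]
    have h1' : (1 : ℚ) - z ≠ 0 := sub_ne_zero.2 h1.symm
    have key : ∀ (m : ℤ) (n : ℕ) (x : ℚ), x ≠ 0 → (n : ℤ) = m + L → x ^ n = x ^ m * x ^ L := by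
      intro m n x hx hn
      rw [← zpow_natCast x n, hn, zpow_add₀ hx, zpow_natCast]
    rw [key a α z h0 hα, key b β _ h1' hβ, key a' α' z h0 hα', key b' β' _ h1' hβ']
    linear_combination (z ^ L * (1 - z) ^ L) * h2
  calc Z.card ≤ F.roots.toFinset.card := Finset.card_le_card hsub
    _ ≤ F.roots.card := Multiset.toFinset_card_le _
    _ ≤ F.natDegree := card_roots' F
    _ ≤ 4 * L := hdF

end Pool.Agent.E8helper35.RP
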