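import Pool.Agent.E8helper35.RP.Bad
import Pool.Agent.E8helper35.RP.OneVar

/-!
# Numbers in the division group of a tuple with private prime factors
-/

set_option autoImplicit false

namespace Pool.Agent.E8helper35.RP

open Finset

variable {k : ℕ}

/-- the monomials -/
def Mo (I : Finset (Fin k)) (t : Fin k → ℚ) (f : Fin k × Bool → ℤ) : ℚ :=
  ∏ x ∈ gens I, crd t x ^ f x

lemma vi_one {p : ℕ} [hp : Fact p.Prime] {n : ℤ} (hn : n ≠ 0) (h : (p : ℤ) ∣ n)
    (h2 : ¬ (p : ℤ) ^ 2 ∣ n) : padicValInt p n = 1 := by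
  have h1 := vi_pos hn h
  have h3 : ¬ 2 ≤ padicValInt p n := by
    intro h3
    apply h2
    have h4 : p ^ 2 ∣ n.natAbs := (padicValNat_dvd_iff_le (Int.natAbs_ne_zero.2 hn)).2 h3
    have h5 : ((p ^ 2 : ℕ) : ℤ) ∣ n := Int.natCast_dvd.2 h4
    exact_mod_cast h5
  omega

lemma vn_le {p B n : ℕ} [hp : Fact p.Prime] (h : n ≤ 2 * B) :
    padicValNat p n ≤ Nat.log 2 (2 * B) :=
  (padicValNat_le_nat_log n).trans ((Nat.log_anti_left (by norm_num) hp.out.two_le).trans
    (Nat.log_mono_right h))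

lemma val_bound {p B : ℕ} [hp : Fact p.Prime] {t : Fin k → ℚ} (ht : ∀ i, InBox B (t i))
    (x : Fin k × Bool) : |padicValRat p (crd t x)| ≤ (Nat.log 2 (2 * B) : ℕ) := by
  have hx := ht x.1
  have h0 : padicValInt p (t x.1).num ≤ Nat.log 2 (2 * B) := vn_le (W_le hx 0)
  have h1 : padicValInt p (Y (t x.1)) ≤ Nat.log 2 (2 * B) := vn_le (W_le hx 1)
  have h2 : padicValNat p (t x.1).den ≤ Nat.log 2 (2 * B) := vn_le (by have := hx.2.2.2; omega)
  unfold crd
  split_ifs
  · rw [val_b hx.2.1, abs_le]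
    constructor
    · have : (0 : ℤ) ≤ (padicValInt p (Y (t x.1)) : ℕ) := Int.natCast_nonneg _
      have h3 : ((padicValNat p (t x.1).den : ℕ) : ℤ) ≤ (Nat.log 2 (2 * B) : ℕ) := by
        exact_mod_cast h2
      linarith
    · have : (0 : ℤ) ≤ (padicValNat p (t x.1).den : ℕ) := Int.natCast_nonneg _
      have h3 : ((padicValInt p (Y (t x.1)) : ℕ) : ℤ) ≤ (Nat.log 2 (2 * B) : ℕ) := by
        exact_mod_cast h1
      linarith
  · rw [val_a, abs_le]
    constructor
    · have : (0 : ℤ) ≤ (padicValInt p (t x.1).num : ℕ) := Int.natCast_nonneg _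
      have h3 : ((padicValNat p (t x.1).den : ℕ) : ℤ) ≤ (Nat.log 2 (2 * B) : ℕ) := by
        exact_mod_cast h2
      linarith
    · have : (0 : ℤ) ≤ (padicValNat p (t x.1).den : ℕ) := Int.natCast_nonneg _
      have h3 : ((padicValInt p (t x.1).num : ℕ) : ℤ) ≤ (Nat.log 2 (2 * B) : ℕ) := by
        exact_mod_cast h0
      linarith

/-- the private valuation of a generator -/
lemma priv {B : ℕ} {t : Fin k → ℚ} (ht : ∀ i, InBox B (t i)) {I : Finset (Fin k)} (hG : Good I t)
    {x : Fin k × Bool} (hx : x.1 ∈ I) : ∃ p : ℕ, p.Prime ∧ padicValRat p (crd t x) = 1 ∧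
      ∀ y ∈ gens I, y ≠ x → padicValRat p (crd t y) = 0 := by
  obtain ⟨i, b⟩ := x
  simp only at hx
  have hti := ht i
  cases b
  · obtain ⟨p, hp, h1, h2, h3⟩ := hG i hx 0 (by decide)
    have hpf : Fact p.Prime := ⟨hp⟩
    rw [W_zero] at h1 h2
    obtain ⟨k1, k2, k3, _, _⟩ := at_num hti.1 hti.2.1 h1
    refine ⟨p, hp, ?_, ?_⟩
    · change padicValRat p (t i) = 1
      rw [k1, vi_one (Rat.num_ne_zero.2 hti.1) h1 h2]
      rfl
    · rintro ⟨j, c⟩ hy hne
      rw [mem_gens] at hy
      simp only at hy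
      by_cases hji : j = i
      · subst hji
        cases c
        · exact absurd rfl hne
        · exact k3
      · have h4 := not_nn (ht j).2.1 (h3 j hy hji)
        cases c
        · exact h4.1
        · exact h4.2
  · obtain ⟨p, hp, h1, h2, h3⟩ := hG i hx 1 (by decide)
    have hpf : Fact p.Prime := ⟨hp⟩
    rw [W_one] at h1 h2
    obtain ⟨k1, k2, k3, _, _⟩ := at_Y hti.2.1 h1
    refine ⟨p, hp, ?_, ?_⟩
    · change padicValRat p (1 - t i) = 1
      rw [k1, vi_one (Y_ne hti.2.1) h1 h2]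
      rfl
    · rintro ⟨j, c⟩ hy hne
      rw [mem_gens] at hy
      simp only at hy
      by_cases hji : j = i
      · subst hji
        cases c
        · exact k3
        · exact absurd rfl hne
      · have h4 := not_nn (ht j).2.1 (h3 j hy hji)
        cases c
        · exact h4.1
        · exact h4.2

theorem form {B : ℕ} {t : Fin k → ℚ} (ht : ∀ i, InBox B (t i)) {I : Finset (Fin k)}
    (hG : Good I t) {z : Fin k × Bool} {n : ℤ} (hn : n ≠ 0) {e : Fin k × Bool → ℤ}
    (h : crd t z ^ n * ∏ x ∈ gens I, crd t x ^ e x = 1) :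
    ∃ (ε : ℚ) (f : Fin k × Bool → ℤ), (ε = 1 ∨ ε = -1) ∧
      (∀ x, |f x| ≤ (Nat.log 2 (2 * B) : ℕ)) ∧ crd t z = ε * Mo I t f := by
  classical
  have htn : ∀ i, t i ≠ 0 ∧ t i ≠ 1 := fun i => ⟨(ht i).1, (ht i).2.1⟩
  have hcr := crd_ne htn
  choose! p hp using fun (x : Fin k × Bool) (hx : x.1 ∈ I) => priv ht hG hx
  refine ⟨crd t z / Mo I t (fun x => if x.1 ∈ I then padicValRat (p x) (crd t z) else 0),
    fun x => if x.1 ∈ I then padicValRat (p x) (crd t z) else 0, ?_, ?_, ?_⟩
  · obtain ⟨f, hf⟩ : ∃ f : Fin k × Bool → ℤ,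
        f = fun x => if x.1 ∈ I then padicValRat (p x) (crd t z) else 0 := ⟨_, rfl⟩
    rw [← hf]
    have he : ∀ x ∈ gens I, e x = -(n * f x) := by
      intro x hx
      have hxI := mem_gens.1 hx
      obtain ⟨hp1, hp2, hp3⟩ := hp x hxI
      have hpf : Fact (p x).Prime := ⟨hp1⟩
      have h1 := congrArg (padicValRat (p x)) h
      rw [padicValRat.mul (zpow_ne_zero _ (hcr z))
        (Finset.prod_ne_zero_iff.2 fun y _ => zpow_ne_zero _ (hcr y)), val_zpow (hcr z),
        val_prod _ _ _ (fun y _ => hcr y), padicValRat.one,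
        Finset.sum_eq_single_of_mem x hx (fun y hy hyx => by rw [hp3 y hy hyx, mul_zero]), hp2,
        mul_one] at h1
      have h2 : f x = padicValRat (p x) (crd t z) := by rw [hf]; simp only; rw [if_pos hxI]
      rw [h2]
      linarith
    have hM0 : Mo I t f ≠ 0 := Finset.prod_ne_zero_iff.2 fun y _ => zpow_ne_zero _ (hcr y)
    have h2 : (crd t z / Mo I t f) ^ n = 1 := by
      rw [div_zpow, div_eq_mul_inv]
      have h3 : (Mo I t f ^ n)⁻¹ = ∏ x ∈ gens I, crd t x ^ e x := by
        rw [Mo, ← Finset.prod_zpow, ← Finset.prod_inv_distrib]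
        apply Finset.prod_congr rfl
        intro x hx
        rw [he x hx, zpow_neg, mul_comm n, zpow_mul]
      rw [h3]
      exact h
    have h3 : (crd t z / Mo I t f) ^ n.natAbs = 1 := by
      rcases Int.natAbs_eq n with h4 | h4
      · rw [h4, zpow_natCast] at h2
        exact h2
      · rw [h4, zpow_neg, inv_eq_one, zpow_natCast] at h2
        exact h2
    rcases (pow_eq_one_iff_of_ne_zero (Int.natAbs_ne_zero.2 hn)).1 h3 with h5 | ⟨h5, _⟩
    · exact Or.inl h5
    · exact Or.inr h5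
  · intro x
    simp only
    split_ifs with hx
    · have hpf : Fact (p x).Prime := ⟨(hp x hx).1⟩
      exact val_bound ht z
    · simp
  · rw [div_mul_cancel₀]
    exact Finset.prod_ne_zero_iff.2 fun y _ => zpow_ne_zero _ (hcr y)

/-- the relation of a number to another one -/
def Orb (a b : ℚ) : Prop :=
  b = a ∨ b = 1 - a ∨ b = 1 / a ∨ b = 1 / (1 - a) ∨ b = a / (a - 1) ∨ b = (a - 1) / a

lemma Mo_erase {I : Finset (Fin k)} {i : Fin k} (hi : i ∈ I) (t : Fin k → ℚ)
    (f : Fin k × Bool → ℤ) :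
    Mo I t f = (t i ^ f (i, false) * (1 - t i) ^ f (i, true)) * Mo (I.erase i) t f := by
  unfold Mo
  have h1 := gens_insert (Finset.notMem_erase i I) (fun x => crd t x ^ f x)
  rw [Finset.insert_erase hi] at h1
  exact h1

lemma Mo_congr {I : Finset (Fin k)} {t t' : Fin k → ℚ} (h : ∀ i ∈ I, t i = t' i)
    (f : Fin k × Bool → ℤ) : Mo I t f = Mo I t' f := by
  unfold Mo
  apply Finset.prod_congr rfl
  intro x hx
  unfold crd
  rw [h x.1 (mem_gens.1 hx)]

/-- if all the one variable equations are trivial then the number is in an orbit -/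
theorem orb_of_triv {t : Fin k → ℚ} (ht : ∀ i, t i ≠ 0 ∧ t i ≠ 1) {I : Finset (Fin k)}
    {ε ε' : ℚ} (hε : ε = 1 ∨ ε = -1) (hε' : ε' = 1 ∨ ε' = -1) {f f' : Fin k × Bool → ℤ}
    (h : ε * Mo I t f + ε' * Mo I t f' = 1)
    (hT : ∀ i ∈ I, Triv (f (i, false)) (f (i, true)) (f' (i, false)) (f' (i, true))
      (ε * Mo (I.erase i) t f) (ε' * Mo (I.erase i) t f')) :
    ∃ i ∈ I, Orb (t i) (ε * Mo I t f) := by
  by_cases hall : ∀ i ∈ I, f (i, false) = 0 ∧ f (i, true) = 0 ∧ f' (i, false) = 0 ∧ f' (i, true) = 0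
  · exfalso
    have h1 : Mo I t f = 1 := by
      unfold Mo
      apply Finset.prod_eq_one
      rintro ⟨i, b⟩ hx
      have := hall i (mem_gens.1 hx)
      cases b
      · rw [this.1, zpow_zero]
      · rw [this.2.1, zpow_zero]
    have h2 : Mo I t f' = 1 := by
      unfold Mo
      apply Finset.prod_eq_one
      rintro ⟨i, b⟩ hx
      have := hall i (mem_gens.1 hx)
      cases b
      · rw [this.2.2.1, zpow_zero]
      · rw [this.2.2.2, zpow_zero]
    rw [h1, h2] at h
    rcases hε with rfl | rfl <;> rcases hε' with rfl | rfl <;> norm_num at h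
  · push Not at hall
    obtain ⟨i, hi, hne⟩ := hall
    refine ⟨i, hi, ?_⟩
    have h0 := (ht i).1
    have h1 : (1 : ℚ) - t i ≠ 0 := sub_ne_zero.2 (ht i).2.symm
    have h1' : t i - 1 ≠ 0 := sub_ne_zero.2 (ht i).2
    have hM : ε * Mo I t f = (ε * Mo (I.erase i) t f) *
        (t i ^ f (i, false) * (1 - t i) ^ f (i, true)) := by
      rw [Mo_erase hi]; ring
    rw [hM]
    unfold Orb
    rcases hT i hi with h | h | h | h | h | h | h
    · exact absurd h.2.2.2 (hne h.1 h.2.1 h.2.2.1)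
    · rw [h.1, h.2.1, h.2.2.2.2.1]
      left; simp
    · rw [h.1, h.2.1, h.2.2.2.2.1]
      right; left; simp
    · rw [h.1, h.2.1, h.2.2.2.2.1]
      right; right; right; right; left
      rw [zpow_one, zpow_neg_one]
      field_simp
      ring
    · rw [h.1, h.2.1, h.2.2.2.2.1]
      right; right; right; left
      rw [zpow_zero, zpow_neg_one]
      field_simp
    · rw [h.1, h.2.1, h.2.2.2.2.1]
      right; right; right; right; right
      rw [zpow_one, zpow_neg_one]
      field_simp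
      ring
    · rw [h.1, h.2.1, h.2.2.2.2.1]
      right; right; left
      rw [zpow_zero, zpow_neg_one]
      field_simp

end Pool.Agent.E8helper35.RP
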