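import Pool.Agent.E8helper35.RP.RealVar

/-!
# The identities `c₁ |t|^A |1 - t|^B + c₂ |t|^C |1 - t|^D = 1`
-/

set_option autoImplicit false

namespace Pool.Agent.E8helper35.RP

open Finset

/-- the relation of a real number to another one -/
def OrbR (a b : ℝ) : Prop :=
  b = a ∨ b = 1 - a ∨ b = 1 / a ∨ b = 1 / (1 - a) ∨ b = a / (a - 1) ∨ b = (a - 1) / a

lemma exps {A B C D : ℝ} (r0 : (A - C) * A * C = 0) (r1 : (B - D) * B * D = 0)
    (r2 : (A + B - C - D) * (A + B) * (C + D) = 0)
    (r3 : -(A - C) * (A * (C + D) + (A + B) * C) - (A + B - C - D) * A * C +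
      (A * D - B * C) = 0) : A * D - B * C = 0 ∨ (A = 1 ∧ B = 0 ∧ C = 0 ∧ D = 1) ∨
      (A = 0 ∧ B = 1 ∧ C = 1 ∧ D = 0) ∨ (A = -1 ∧ B = 0 ∧ C = -1 ∧ D = 1) ∨
      (A = 0 ∧ B = -1 ∧ C = 1 ∧ D = -1) ∨ (A = 1 ∧ B = -1 ∧ C = 0 ∧ D = -1) ∨
      (A = -1 ∧ B = 1 ∧ C = -1 ∧ D = 0) := by
  have s0 : A = C ∨ A = 0 ∨ C = 0 := by
    rcases mul_eq_zero.1 r0 with h | h
    · rcases mul_eq_zero.1 h with h | h
      · exact Or.inl (by linarith)
      · exact Or.inr (Or.inl h)
    · exact Or.inr (Or.inr h)
  have s1 : B = D ∨ B = 0 ∨ D = 0 := by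
    rcases mul_eq_zero.1 r1 with h | h
    · rcases mul_eq_zero.1 h with h | h
      · exact Or.inl (by linarith)
      · exact Or.inr (Or.inl h)
    · exact Or.inr (Or.inr h)
  have s2 : D = A + B - C ∨ B = -A ∨ D = -C := by
    rcases mul_eq_zero.1 r2 with h | h
    · rcases mul_eq_zero.1 h with h | h
      · exact Or.inl (by linarith)
      · exact Or.inr (Or.inl (by linarith))
    · exact Or.inr (Or.inr (by linarith))
  clear r0 r1 r2
  have cub : ∀ x : ℝ, x ^ 3 = x ^ 2 → x = 0 ∨ x = 1 := by
    intro x hx
    have h1 : x ^ 2 * (x - 1) = 0 := by linear_combination hx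
    rcases mul_eq_zero.1 h1 with h | h
    · exact Or.inl (pow_eq_zero_iff (by norm_num) |>.1 h)
    · exact Or.inr (by linarith)
  rcases s0 with s0 | s0 | s0 <;> rcases s1 with s1 | s1 | s1 <;> rcases s2 with s2 | s2 | s2
  · -- A = C, B = D
    left; rw [s0, s1]; ring
  · left; rw [s0, s1]; ring
  · left; rw [s0, s1]; ring
  · left
    have hD : D = 0 := by linarith
    rw [hD, s1]; ring
  · left
    have hA : A = 0 := by linarith
    rw [← s0, hA, s1]; ring
  · -- good
    have e : D = -A := by rw [s2, s0]
    rw [s1, e, ← s0] at r3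
    rcases cub (-A) (by linear_combination r3) with h | h
    · left
      have hA : A = 0 := by linarith
      rw [e, s1, hA]; ring
    · right; right; right; left
      exact ⟨by linarith, s1, by linarith, by linarith⟩
  · left
    have hB : B = 0 := by linarith
    rw [hB, s1]; ring
  · -- good
    rw [s1, s2, ← s0] at r3
    rcases cub (-A) (by linear_combination -r3) with h | h
    · left
      have hA : A = 0 := by linarith
      rw [s1, s2, hA]; ring
    · right; right; right; right; right; right
      exact ⟨by linarith, by linarith, by linarith, s1⟩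
  · left
    have hC : C = 0 := by linarith
    rw [hC, s1]; ring
  · left
    have hC : C = 0 := by linarith
    rw [hC, s0]; ring
  · left
    have hB : B = 0 := by linarith
    rw [hB, s0]; ring
  · -- good
    have hC : C = -B := by linarith
    rw [s0, ← s1, hC] at r3
    rcases cub (-B) (by linear_combination -r3) with h | h
    · left
      have hB : B = 0 := by linarith
      rw [s0, hB]; ring
    · right; right; right; right; left
      exact ⟨s0, by linarith, by linarith, by linarith⟩
  · left; rw [s0, s1]; ring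
  · left; rw [s0, s1]; ring
  · left; rw [s0, s1]; ring
  · -- good
    have hC : C = B := by linarith
    rw [s0, s1, hC] at r3
    rcases cub B (by linear_combination r3) with h | h
    · left
      rw [s0, h]; ring
    · right; right; left
      exact ⟨s0, h, by linarith, s1⟩
  · left
    have hB : B = 0 := by linarith
    rw [hB, s0]; ring
  · left
    have hC : C = 0 := by linarith
    rw [hC, s0]; ring
  · left
    have hA : A = 0 := by linarith
    rw [hA, s0]; ring
  · -- good
    have hD : D = -A := by linarith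
    rw [s0, s2, hD] at r3
    rcases cub A (by linear_combination r3) with h | h
    · left
      rw [s0, h]; ring
    · right; right; right; right; right; left
      exact ⟨h, by linarith, s0, by linarith⟩
  · left
    have hD : D = 0 := by linarith
    rw [hD, s0]; ring
  · -- good
    have hD : D = A := by linarith
    rw [s0, s1, hD] at r3
    rcases cub A (by linear_combination -r3) with h | h
    · left
      rw [s0, h]; ring
    · right; left
      exact ⟨h, s1, s0, by linarith⟩
  · left
    have hA : A = 0 := by linarith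
    rw [hA, s0]; ring
  · left
    have hD : D = 0 := by linarith
    rw [hD, s0]; ring
  · left; rw [s0, s1]; ring
  · left; rw [s0, s1]; ring
  · left; rw [s0, s1]; ring

lemma lin0 {A B t t' : ℝ} (h : t ≠ t') (h1 : A * (1 - t) - B * t = 0)
    (h2 : A * (1 - t') - B * t' = 0) : A = 0 ∧ B = 0 := by
  have h3 : (A + B) * (t - t') = 0 := by linear_combination h2 - h1
  have h4 : A + B = 0 := (mul_eq_zero.1 h3).resolve_right (sub_ne_zero.2 h)
  have h5 : A = 0 := by linear_combination h1 + t * h4
  exact ⟨h5, by linarith⟩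

/-- at most six zeros, or trivial -/
theorem classify {J : Set ℝ} (hJ : J.OrdConnected) (h0 : (0 : ℝ) ∉ J) (h1 : (1 : ℝ) ∉ J)
    {c₁ c₂ A B C D : ℝ} (hc1 : c₁ ≠ 0) (hc2 : c₂ ≠ 0) (T : Finset ℝ) (hTJ : ∀ t ∈ T, t ∈ J)
    (hT : ∀ t ∈ T, c₁ * EE A B t + c₂ * EE C D t - 1 = 0) (hcard : 7 ≤ T.card) :
    (A = 0 ∧ B = 0 ∧ C = 0 ∧ D = 0) ∨ ∀ t ∈ J, OrbR t (c₁ * EE A B t) := by
  obtain ⟨hF, hH, hR⟩ := many_zeros hJ h0 h1 T hTJ hT hcard
  obtain ⟨r0, r2, r3, r4⟩ := hR hc2
  have r1 : (B - D) * B * D = 0 := by linear_combination -(r0 + r3 + r4 - r2)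
  -- two points
  obtain ⟨t, ht, t', ht', htt⟩ := Finset.one_lt_card.1 (by omega : 1 < T.card)
  have htJ := hTJ t ht
  have htJ' := hTJ t' ht'
  have hn0 : ∀ t ∈ J, t ≠ 0 := fun t ht h => h0 (h ▸ ht)
  have hn1 : ∀ t ∈ J, t ≠ 1 := fun t ht h => h1 (h ▸ ht)
  have hn1' : ∀ t ∈ J, (1 : ℝ) - t ≠ 0 := fun t ht => sub_ne_zero.2 (hn1 t ht).symm
  rcases exps r0 r1 r2 r3 with hΔ | h
  · left
    have hP0 : A = 0 → B = 0 → C = 0 ∧ D = 0 := by
      intro hA hB
      have key : ∀ t ∈ J, C * (1 - t) - D * t = 0 := by
        intro t ht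
        have := hH t ht
        rw [hA, hB, zero_mul, zero_mul, sub_zero, mul_zero, zero_add] at this
        exact (mul_eq_zero.1 this).resolve_left (mul_ne_zero hc2 (EE_pos _ _ _).ne')
      exact lin0 htt (key t htJ) (key t' htJ')
    have hQ0 : C = 0 → D = 0 → A = 0 ∧ B = 0 := by
      intro hA hB
      have key : ∀ t ∈ J, A * (1 - t) - B * t = 0 := by
        intro t ht
        have := hH t ht
        rw [hA, hB, zero_mul, zero_mul, sub_zero, mul_zero, add_zero] at this
        exact (mul_eq_zero.1 this).resolve_left (mul_ne_zero hc1 (EE_pos _ _ _).ne')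
      exact lin0 htt (key t htJ) (key t' htJ')
    have hPQ : A = C → B = D → A = 0 ∧ B = 0 := by
      intro hA hB
      have key : ∀ t ∈ J, A * (1 - t) - B * t = 0 := by
        intro t ht
        have k1 := hH t ht
        have k2 := hF t ht
        rw [← hA, ← hB] at k1 k2
        linear_combination k1 - (A * (1 - t) - B * t) * k2
      exact lin0 htt (key t htJ) (key t' htJ')
    have fin : (A = 0 ∧ B = 0) ∨ (C = 0 ∧ D = 0) ∨ (A = C ∧ B = D) := by
      by_cases hs : A = C ∧ B = D
      · exact Or.inr (Or.inr hs)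
      · obtain ⟨w, hw⟩ : ∃ w, w = A * (C + D) := ⟨_, rfl⟩
        have hw' : (A + B) * C = w := by rw [hw]; linear_combination -hΔ
        rw [hw', ← hw, hΔ] at r3
        rw [hw', ← hw, hΔ] at r4
        have f1 : (A - C) ^ 2 * w = 0 := by
          linear_combination (-(1 / 2) * (A - C)) * r3 - (1 / 2 * (A + B - C - D)) * r0
        have f2 : (A + B - C - D) ^ 2 * w = 0 := by
          linear_combination (1 / 2 * (A + B - C - D)) * r4 - (1 / 2 * (A - C)) * r2
        have hw0 : w = 0 := by
          by_contra hne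
          have g1 : A - C = 0 := by
            have := (mul_eq_zero.1 f1).resolve_right hne
            exact pow_eq_zero_iff (by norm_num) |>.1 this
          have g2 : A + B - C - D = 0 := by
            have := (mul_eq_zero.1 f2).resolve_right hne
            exact pow_eq_zero_iff (by norm_num) |>.1 this
          exact hs ⟨by linarith, by linarith⟩
        have hAC : A * C = 0 ∧ (A + B) * (C + D) = 0 := by
          by_cases ha : A - C = 0
          · have hq : A + B - C - D ≠ 0 := fun h => hs ⟨by linarith, by linarith⟩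
            constructor
            · rw [hw0, ha] at r3
              have : (A + B - C - D) * (A * C) = 0 := by linear_combination -r3
              exact (mul_eq_zero.1 this).resolve_left hq
            · have : (A + B - C - D) * ((A + B) * (C + D)) = 0 := by linear_combination r2
              exact (mul_eq_zero.1 this).resolve_left hq
          · constructor
            · have : (A - C) * (A * C) = 0 := by linear_combination r0
              exact (mul_eq_zero.1 this).resolve_left ha
            · rw [hw0] at r4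
              have : (A - C) * ((A + B) * (C + D)) = 0 := by linear_combination r4
              exact (mul_eq_zero.1 this).resolve_left ha
        rw [hw0] at hw hw'
        by_cases hA : A = 0
        · by_cases hA' : A + B = 0
          · exact Or.inl ⟨hA, by linarith⟩
          · have g1 := (mul_eq_zero.1 hw').resolve_left hA'
            have g2 := (mul_eq_zero.1 hAC.2).resolve_left hA'
            exact Or.inr (Or.inl ⟨g1, by linarith⟩)
        · have g1 := (mul_eq_zero.1 hAC.1).resolve_left hA
          have g2 := (mul_eq_zero.1 hw.symm).resolve_left hA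
          exact Or.inr (Or.inl ⟨g1, by linarith⟩)
    rcases fin with ⟨hA, hB⟩ | ⟨hC, hD⟩ | ⟨h, h'⟩
    · exact ⟨hA, hB, (hP0 hA hB).1, (hP0 hA hB).2⟩
    · exact ⟨(hQ0 hC hD).1, (hQ0 hC hD).2, hC, hD⟩
    · obtain ⟨hA, hB⟩ := hPQ h h'
      exact ⟨hA, hB, by rw [← h, hA], by rw [← h', hB]⟩
  · right
    intro t ht
    have k0 := hn0 t ht
    have k1 := hn1' t ht
    have k1' : t - 1 ≠ 0 := sub_ne_zero.2 (hn1 t ht)
    have k2 := hF t ht
    have k3 := hH t ht
    obtain ⟨u, hu⟩ : ∃ u, u = c₁ * EE A B t := ⟨_, rfl⟩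
    obtain ⟨v, hv⟩ : ∃ v, v = c₂ * EE C D t := ⟨_, rfl⟩
    rw [← hu, ← hv] at k2 k3
    rw [← hu]
    have hv' : v = 1 - u := by linarith
    rw [hv'] at k3
    unfold OrbR
    rcases h with ⟨rfl, rfl, rfl, rfl⟩ | ⟨rfl, rfl, rfl, rfl⟩ | ⟨rfl, rfl, rfl, rfl⟩ |
      ⟨rfl, rfl, rfl, rfl⟩ | ⟨rfl, rfl, rfl, rfl⟩ | ⟨rfl, rfl, rfl, rfl⟩
    · left; linear_combination k3
    · right; left; linear_combination -k3
    · right; right; left
      rw [eq_div_iff k0]; linear_combination k3
    · right; right; right; left
      rw [eq_div_iff k1]; linear_combination -k3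
    · right; right; right; right; left
      rw [eq_div_iff k1']; linear_combination -k3
    · right; right; right; right; right
      rw [eq_div_iff k0]; linear_combination -k3

end Pool.Agent.E8helper35.RP
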