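import Pool.Agent.E8helper35.RP.Cramer
import Pool.Agent.E8helper35.RP.RealVar2

/-!
# The zero sets, with real exponents
-/

set_option autoImplicit false

namespace Pool.Agent.E8helper35.RP

open Finset

variable {k : ℕ}

theorem one_varR {c₁ c₂ A B C D : ℝ} (hc1 : c₁ ≠ 0) (hc2 : c₂ ≠ 0)
    (hne : ¬ (A = 0 ∧ B = 0 ∧ C = 0 ∧ D = 0)) (T : Finset ℚ)
    (hT : ∀ z ∈ T, z ≠ 0 ∧ z ≠ 1 ∧ c₁ * EE A B z + c₂ * EE C D z - 1 = 0 ∧
      ¬ OrbR z (c₁ * EE A B z)) : T.card ≤ 18 := by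
  classical
  have key : ∀ J : Set ℝ, J.OrdConnected → (0 : ℝ) ∉ J → (1 : ℝ) ∉ J →
      ∃ T' : Finset ℚ, (∀ z ∈ T, (z : ℝ) ∈ J → z ∈ T') ∧ T'.card ≤ 6 := by
    intro J hJ h0 h1
    obtain ⟨T', hT'⟩ : ∃ T', T' = T.filter (fun z : ℚ => (z : ℝ) ∈ J) := ⟨_, rfl⟩
    refine ⟨T', fun z hz hzJ => by rw [hT']; exact Finset.mem_filter.2 ⟨hz, hzJ⟩, ?_⟩
    by_contra hcon
    push Not at hcon
    have hcard : (T'.image (fun z : ℚ => (z : ℝ))).card = T'.card :=
      Finset.card_image_of_injective _ Rat.cast_injective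
    have hmem : ∀ z ∈ T', z ∈ T ∧ (z : ℝ) ∈ J := fun z hz => by
      rwa [hT', Finset.mem_filter] at hz
    rcases classify hJ h0 h1 hc1 hc2 (A := A) (B := B) (C := C) (D := D)
      (T'.image (fun z : ℚ => (z : ℝ)))
      (fun t ht => by
        obtain ⟨z, hz, rfl⟩ := Finset.mem_image.1 ht
        exact (hmem z hz).2)
      (fun t ht => by
        obtain ⟨z, hz, rfl⟩ := Finset.mem_image.1 ht
        exact (hT z (hmem z hz).1).2.2.1) (by rw [hcard]; omega) with h | h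
    · exact hne h
    · obtain ⟨z, hz⟩ : T'.Nonempty := Finset.card_pos.1 (by omega)
      exact (hT z (hmem z hz).1).2.2.2 (h z (hmem z hz).2)
  obtain ⟨T1, m1, k1⟩ := key (Set.Iio 0) Set.ordConnected_Iio (by simp) (by simp)
  obtain ⟨T2, m2, k2⟩ := key (Set.Ioo 0 1) Set.ordConnected_Ioo (by simp) (by simp)
  obtain ⟨T3, m3, k3⟩ := key (Set.Ioi 1) Set.ordConnected_Ioi (by simp) (by simp)
  have hsub : T ⊆ (T1 ∪ T2) ∪ T3 := by
    intro z hz
    obtain ⟨h0, h1, _⟩ := hT z hz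
    rw [Finset.mem_union, Finset.mem_union]
    rcases lt_or_gt_of_ne h0 with h | h
    · left; left
      exact m1 z hz (by rw [Set.mem_Iio]; exact_mod_cast h)
    · rcases lt_or_gt_of_ne h1 with h' | h'
      · left; right
        exact m2 z hz (by rw [Set.mem_Ioo]; exact ⟨by exact_mod_cast h, by exact_mod_cast h'⟩)
      · right
        exact m3 z hz (by rw [Set.mem_Ioi]; exact_mod_cast h')
  have h1 := Finset.card_le_card hsub
  have h2 := Finset.card_union_le (T1 ∪ T2) T3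
  have h3 := Finset.card_union_le T1 T2
  omega

/-- the absolute values of the monomials, with real exponents -/
noncomputable def MoR (I : Finset (Fin k)) (t : Fin k → ℚ) (ρ : Fin k × Bool → ℝ) : ℝ :=
  Real.exp (∑ x ∈ gens I, ρ x * Real.log (crd t x : ℝ))

lemma MoR_pos (I : Finset (Fin k)) (t : Fin k → ℚ) (ρ : Fin k × Bool → ℝ) : 0 < MoR I t ρ :=
  Real.exp_pos _

lemma gens_sum {I : Finset (Fin k)} {i : Fin k} (hi : i ∈ I) (f : Fin k × Bool → ℝ) :
    ∑ x ∈ gens I, f x = (f (i, false) + f (i, true)) + ∑ x ∈ gens (I.erase i), f x := by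
  classical
  have h1 : gens I = insert (i, false) (insert (i, true) (gens (I.erase i))) := by
    ext ⟨a, b⟩
    simp only [mem_gens, Finset.mem_insert, Prod.mk.injEq, Finset.mem_erase]
    by_cases ha : a = i
    · subst ha
      cases b <;> simp [hi]
    · simp [ha]
  rw [h1, Finset.sum_insert, Finset.sum_insert]
  · ring
  · rw [mem_gens]; exact Finset.notMem_erase i I
  · simp only [Finset.mem_insert, mem_gens, Prod.mk.injEq]
    simp

lemma MoR_erase {I : Finset (Fin k)} {i : Fin k} (hi : i ∈ I) (t : Fin k → ℚ)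
    (ρ : Fin k × Bool → ℝ) :
    MoR I t ρ = EE (ρ (i, false)) (ρ (i, true)) (t i) * MoR (I.erase i) t ρ := by
  unfold MoR EE
  rw [gens_sum hi, Real.exp_add]
  congr 2
  have e1 : ((crd t (i, false) : ℚ) : ℝ) = t i := rfl
  have e2 : ((crd t (i, true) : ℚ) : ℝ) = 1 - (t i : ℝ) := by
    change (((1 - t i : ℚ)) : ℝ) = _
    push_cast
    rfl
  rw [e1, e2]

lemma MoR_congr {I : Finset (Fin k)} {t t' : Fin k → ℚ} (h : ∀ i ∈ I, t i = t' i)
    (ρ : Fin k × Bool → ℝ) : MoR I t ρ = MoR I t' ρ := by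
  unfold MoR
  congr 1
  apply Finset.sum_congr rfl
  intro x hx
  unfold crd
  rw [h x.1 (mem_gens.1 hx)]

/-- quotients of integers -/
noncomputable def ρq (N : ℤ) (f : Fin k × Bool → ℤ) : Fin k × Bool → ℝ :=
  fun x => (f x : ℝ) / (N : ℝ)

open scoped Classical in
/-- solutions of an equation, nontrivial in the `i`-th variable -/
noncomputable def Zq (I : Finset (Fin k)) (B : ℕ) (i : Fin k) (ε ε' N : ℤ)
    (f : Fin k × Bool → ℤ) (N' : ℤ) (f' : Fin k × Bool → ℤ) : Finset (Fin k → ℚ) :=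
  (PP I (fun _ => S B)).filter (fun x =>
    (ε : ℝ) * MoR I x (ρq N f) + (ε' : ℝ) * MoR I x (ρq N' f') = 1 ∧
    ¬ (ρq N f (i, false) = 0 ∧ ρq N f (i, true) = 0 ∧ ρq N' f' (i, false) = 0 ∧
      ρq N' f' (i, true) = 0) ∧ ¬ OrbR (x i) ((ε : ℝ) * MoR I x (ρq N f)))

theorem card_Zq {I : Finset (Fin k)} {B : ℕ} {i : Fin k} (hi : i ∈ I) {ε ε' : ℤ}
    (hε : ε = 1 ∨ ε = -1) (hε' : ε' = 1 ∨ ε' = -1) (N : ℤ) (f : Fin k × Bool → ℤ) (N' : ℤ)
    (f' : Fin k × Bool → ℤ) :
    (Zq I B i ε ε' N f N' f').card ≤ 18 * (S B).card ^ (I.card - 1) := by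
  classical
  have hε0 : (ε : ℝ) ≠ 0 := by rcases hε with rfl | rfl <;> norm_num
  have hε0' : (ε' : ℝ) ≠ 0 := by rcases hε' with rfl | rfl <;> norm_num
  have h1 := Finset.card_le_mul_card_image (f := fun x => rs (I.erase i) x)
    (Zq I B i ε ε' N f N' f') 18 (by
      intro a ha
      obtain ⟨x0, hx0, rfl⟩ := Finset.mem_image.1 ha
      rw [Zq, Finset.mem_filter, mem_PPS] at hx0
      obtain ⟨⟨hx01, hx02⟩, hx03, hx04, hx05⟩ := hx0
      have hagree : ∀ x ∈ (Zq I B i ε ε' N f N' f').filter (fun x => rs (I.erase i) x =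
          rs (I.erase i) x0), ∀ j ∈ I.erase i, x j = x0 j := by
        intro x hx j hj
        have h2 := (Finset.mem_filter.1 hx).2
        have h3 := congrFun h2 j
        rwa [rs_of_mem hj, rs_of_mem hj] at h3
      rw [← Finset.card_image_of_injOn (f := fun x : Fin k → ℚ => x i)
        (s := (Zq I B i ε ε' N f N' f').filter (fun x => rs (I.erase i) x = rs (I.erase i) x0))]
      · apply one_varR (mul_ne_zero hε0 (MoR_pos (I.erase i) x0 (ρq N f)).ne')
          (mul_ne_zero hε0' (MoR_pos (I.erase i) x0 (ρq N' f')).ne') hx04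
        intro z hz
        obtain ⟨x, hx, rfl⟩ := Finset.mem_image.1 hz
        have hag := hagree x hx
        have hx1 := (Finset.mem_filter.1 hx).1
        rw [Zq, Finset.mem_filter, mem_PPS] at hx1
        obtain ⟨⟨k1, _⟩, k3, _, k5⟩ := hx1
        refine ⟨(k1 i hi).1, (k1 i hi).2.1, ?_, ?_⟩
        · rw [MoR_erase hi x (ρq N f), MoR_erase hi x (ρq N' f'), MoR_congr hag (ρq N f),
            MoR_congr hag (ρq N' f')] at k3
          linear_combination k3
        · rw [MoR_erase hi x (ρq N f), MoR_congr hag (ρq N f)] at k5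
          intro h
          apply k5
          have e1 : (ε : ℝ) * (EE (ρq N f (i, false)) (ρq N f (i, true)) (x i : ℝ) *
              MoR (I.erase i) x0 (ρq N f)) = (ε : ℝ) * MoR (I.erase i) x0 (ρq N f) *
              EE (ρq N f (i, false)) (ρq N f (i, true)) (x i : ℝ) := by ring
          rw [e1]
          exact h
      · intro x hx y hy hxy
        funext j
        have hx' := hx
        have hy' := hy
        rw [Finset.mem_coe] at hx' hy'
        by_cases hji : j = i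
        · rw [hji]; exact hxy
        · by_cases hjI : j ∈ I
          · have hj : j ∈ I.erase i := Finset.mem_erase.2 ⟨hji, hjI⟩
            rw [hagree x hx' j hj, hagree y hy' j hj]
          · have hx1 := (Finset.mem_filter.1 hx').1
            have hy1 := (Finset.mem_filter.1 hy').1
            rw [Zq, Finset.mem_filter, mem_PPS] at hx1 hy1
            rw [hx1.1.2 j hjI, hy1.1.2 j hjI])
  refine h1.trans (Nat.mul_le_mul_left _ ?_)
  rw [← Finset.card_erase_of_mem hi, ← card_PPS]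
  apply Finset.card_le_card
  intro a ha
  obtain ⟨x, hx, rfl⟩ := Finset.mem_image.1 ha
  rw [Zq, Finset.mem_filter, mem_PPS] at hx
  rw [mem_PPS]
  refine ⟨fun j hj => ?_, fun j hj => ?_⟩
  · rw [rs_of_mem hj]
    exact hx.1.1 j (Finset.mem_of_mem_erase hj)
  · rw [rs, if_neg hj]

open scoped Classical in
/-- all the zero sets -/
noncomputable def ZZq (I : Finset (Fin k)) (B M : ℕ) : Finset (Fin k → ℚ) :=
  I.biUnion fun i => ({1, -1} : Finset ℤ).biUnion fun ε => ({1, -1} : Finset ℤ).biUnion fun ε' =>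
    (Finset.Icc (-(M : ℤ)) M).biUnion fun N => (Ex k M).biUnion fun f =>
      (Finset.Icc (-(M : ℤ)) M).biUnion fun N' => (Ex k M).biUnion fun f' =>
        Zq I B i ε ε' N f N' f'

lemma card_bUN' {α β : Type*} [DecidableEq β] (s : Finset α) (f : α → Finset β) (n c : ℕ)
    (hs : s.card ≤ n) (h : ∀ a ∈ s, (f a).card ≤ c) : (s.biUnion f).card ≤ n * c :=
  (card_bUN s f c h).trans (Nat.mul_le_mul_right c hs)

lemma card_ZZq (I : Finset (Fin k)) (B M : ℕ) :
    (ZZq I B M).card ≤ I.card * (2 * (2 * ((2 * M + 1) * ((2 * M + 1) ^ (2 * k) *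
      ((2 * M + 1) * ((2 * M + 1) ^ (2 * k) * (18 * (S B).card ^ (I.card - 1)))))))) := by
  classical
  have h2 : ({1, -1} : Finset ℤ).card ≤ 2 := Finset.card_le_two
  have h3 : (Finset.Icc (-(M : ℤ)) M).card ≤ 2 * M + 1 := by
    rw [Int.card_Icc]
    omega
  rw [ZZq]
  refine card_bUN' _ _ _ _ le_rfl fun i hi => ?_
  refine card_bUN' _ _ _ _ h2 fun ε hε => ?_
  refine card_bUN' _ _ _ _ h2 fun ε' hε' => ?_
  refine card_bUN' _ _ _ _ h3 fun N _ => ?_
  refine card_bUN' _ _ _ _ (card_Ex k M).le fun f _ => ?_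
  refine card_bUN' _ _ _ _ h3 fun N' _ => ?_
  refine card_bUN' _ _ _ _ (card_Ex k M).le fun f' _ => ?_
  rw [Finset.mem_insert, Finset.mem_singleton] at hε hε'
  exact card_Zq hi hε hε' N f N' f'

lemma orb_of_orbR {a b : ℚ} (h : OrbR (a : ℝ) (b : ℝ)) : Orb a b := by
  rcases h with h | h | h | h | h | h
  · exact Or.inl (by exact_mod_cast h)
  · exact Or.inr (Or.inl (by exact_mod_cast h))
  · exact Or.inr (Or.inr (Or.inl (by exact_mod_cast h)))
  · exact Or.inr (Or.inr (Or.inr (Or.inl (by exact_mod_cast h))))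
  · exact Or.inr (Or.inr (Or.inr (Or.inr (Or.inl (by exact_mod_cast h)))))
  · exact Or.inr (Or.inr (Or.inr (Or.inr (Or.inr (by exact_mod_cast h)))))

lemma abs_of_rel {I : Finset (Fin k)} {t : Fin k → ℚ} {z : Fin k × Bool} (hz : crd t z ≠ 0)
    {N : ℤ} (hN : N ≠ 0) {f : Fin k × Bool → ℤ}
    (h : (N : ℝ) * Real.log (crd t z : ℝ) = ∑ x ∈ gens I, (f x : ℝ) * Real.log (crd t x : ℝ)) :
    ∃ ε : ℤ, (ε = 1 ∨ ε = -1) ∧ ((crd t z : ℚ) : ℝ) = (ε : ℝ) * MoR I t (ρq N f) := by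
  have hN' : (N : ℝ) ≠ 0 := by exact_mod_cast hN
  have hz' : ((crd t z : ℚ) : ℝ) ≠ 0 := by exact_mod_cast hz
  have h1 : Real.log (crd t z : ℝ) = ∑ x ∈ gens I, ρq N f x * Real.log (crd t x : ℝ) := by
    apply mul_left_cancel₀ hN'
    rw [h, Finset.mul_sum]
    apply Finset.sum_congr rfl
    intro x _
    unfold ρq
    field_simp
  have h2 : MoR I t (ρq N f) = |((crd t z : ℚ) : ℝ)| := by
    unfold MoR
    rw [← h1, Real.exp_log_eq_abs hz']
  rw [h2]
  rcases abs_choice ((crd t z : ℚ) : ℝ) with h3 | h3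
  · exact ⟨1, Or.inl rfl, by rw [h3]; push_cast; ring⟩
  · exact ⟨-1, Or.inr rfl, by rw [h3]; push_cast; ring⟩

/-- a tuple of small rank which is not special -/
theorem mem_ZZq {B : ℕ} (hB : 1 ≤ B) {t : Fin k → ℚ} (ht : ∀ i, InBox B (t i))
    {I : Finset (Fin k)} (hI : MulIndep t (gens I))
    (hrel : ∀ j, j ∉ I → ∀ b : Bool, ∃ (n : ℤ) (e : Fin k × Bool → ℤ), n ≠ 0 ∧
        crd t (j, b) ^ n * ∏ x ∈ gens I, crd t x ^ e x = 1)
    (hS : ¬ Special I.card t) : rs I t ∈ ZZq I B (MB k (Nat.log 2 (2 * B))) := by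
  classical
  have htn : ∀ i, t i ≠ 0 ∧ t i ≠ 1 := fun i => ⟨(ht i).1, (ht i).2.1⟩
  unfold Special at hS
  push Not at hS
  obtain ⟨j, hj⟩ := hS I le_rfl
  have hjI : j ∉ I := fun h => hj j h (Or.inl rfl)
  obtain ⟨n, e, hn, he⟩ := hrel j hjI false
  obtain ⟨n', e', hn', he'⟩ := hrel j hjI true
  obtain ⟨N, f, hN, hNM, hf, hlog⟩ := cramer hB ht hI hn he
  obtain ⟨N', f', hN', hNM', hf', hlog'⟩ := cramer hB ht hI hn' he'
  obtain ⟨ε, hε, h3⟩ := abs_of_rel (crd_ne htn _) hN hlog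
  obtain ⟨ε', hε', h3'⟩ := abs_of_rel (crd_ne htn _) hN' hlog'
  have e1 : ((crd t (j, false) : ℚ) : ℝ) = t j := rfl
  have e2 : ((crd t (j, true) : ℚ) : ℝ) = 1 - (t j : ℝ) := by
    change (((1 - t j : ℚ)) : ℝ) = _
    push_cast
    rfl
  rw [e1] at h3
  rw [e2] at h3'
  have heq : (ε : ℝ) * MoR I t (ρq N f) + (ε' : ℝ) * MoR I t (ρq N' f') = 1 := by
    rw [← h3, ← h3']
    ring
  have hcr : ∀ g, MoR I (rs I t) g = MoR I t g :=
    fun g => MoR_congr (fun i hi => rs_of_mem hi) g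
  have hnot : ∃ i ∈ I, ¬ (ρq N f (i, false) = 0 ∧ ρq N f (i, true) = 0 ∧
      ρq N' f' (i, false) = 0 ∧ ρq N' f' (i, true) = 0) := by
    by_contra hcon
    push Not at hcon
    have h5 : MoR I t (ρq N f) = 1 := by
      unfold MoR
      rw [Finset.sum_eq_zero, Real.exp_zero]
      rintro ⟨i, b⟩ hx
      have hi := mem_gens.1 hx
      obtain ⟨g1, g2, g3, g4⟩ := hcon i hi
      cases b
      · rw [g1, zero_mul]
      · rw [g2, zero_mul]
    have h6 : MoR I t (ρq N' f') = 1 := by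
      unfold MoR
      rw [Finset.sum_eq_zero, Real.exp_zero]
      rintro ⟨i, b⟩ hx
      have hi := mem_gens.1 hx
      obtain ⟨g1, g2, g3, g4⟩ := hcon i hi
      cases b
      · rw [g3, zero_mul]
      · rw [g4, zero_mul]
    rw [h5, h6] at heq
    rcases hε with rfl | rfl <;> rcases hε' with rfl | rfl <;> norm_num at heq
  obtain ⟨i, hi, hT⟩ := hnot
  simp only [ZZq, Finset.mem_biUnion]
  refine ⟨i, hi, ε, ?_, ε', ?_, N, ?_, f, mem_Ex.2 hf, N', ?_, f', mem_Ex.2 hf', ?_⟩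
  · rw [Finset.mem_insert, Finset.mem_singleton]; exact hε
  · rw [Finset.mem_insert, Finset.mem_singleton]; exact hε'
  · rw [Finset.mem_Icc]; exact abs_le.1 hNM
  · rw [Finset.mem_Icc]; exact abs_le.1 hNM'
  · rw [Zq, Finset.mem_filter, rs_mem_PP]
    refine ⟨fun j _ => mem_S.2 (ht j), ?_, hT, ?_⟩
    · rw [hcr, hcr]
      exact heq
    · rw [hcr, rs_of_mem hi, ← h3]
      exact fun h => hj i hi (orb_of_orbR h)

end Pool.Agent.E8helper35.RP
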