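import Pool.Agent.E8helper35.RP.CramerS
import Pool.Agent.E8helper35.RP.ZeroQ

/-!
# Counting with powers of logarithms
-/

set_option autoImplicit false

namespace Pool.Agent.E8helper35.RP

open Finset

variable {k : ℕ}

/-- a dependent set gives a relation -/
lemma dep_rel {t : Fin k → ℚ} {s : Finset (Fin k × Bool)} {z : Fin k × Bool} (hz : z ∉ s)
    (hs : MulIndep t s) (hd : ¬ MulIndep t (insert z s)) :
    ∃ (n : ℤ) (e : Fin k × Bool → ℤ), n ≠ 0 ∧ crd t z ^ n * ∏ x ∈ s, crd t x ^ e x = 1 := by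
  unfold MulIndep at hd
  push Not at hd
  obtain ⟨e, he, x, hx, hex⟩ := hd
  rw [Finset.prod_insert hz] at he
  refine ⟨e z, e, ?_, he⟩
  intro h0
  rw [h0, zpow_zero, one_mul] at he
  have h3 := hs e he
  rw [Finset.mem_insert] at hx
  rcases hx with hx | hx
  · rw [hx] at hex
    exact hex h0
  · exact hex (h3 x hx)

/-- the structure of tuples of small rank -/
theorem struct2 {r : ℕ} {t : Fin k → ℚ} (hr : RankLE r t) :
    ∃ I : Finset (Fin k), MulIndep t (gens I) ∧ 2 * I.card ≤ r ∧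
      (∀ j, j ∉ I → ¬ MulIndep t (gens (insert j I))) ∧
      (r = 2 * I.card → ∀ j, j ∉ I → ∀ b : Bool, ∃ (n : ℤ) (e : Fin k × Bool → ℤ), n ≠ 0 ∧
        crd t (j, b) ^ n * ∏ x ∈ gens I, crd t x ^ e x = 1) := by
  classical
  obtain ⟨I, hI, hmax⟩ := Finset.exists_max_image
    ((Finset.univ : Finset (Finset (Fin k))).filter fun I => MulIndep t (gens I)) Finset.card
    ⟨∅, by rw [Finset.mem_filter]; exact ⟨Finset.mem_univ _, indep_empty t⟩⟩
  rw [Finset.mem_filter] at hI
  refine ⟨I, hI.2, by rw [← card_gens]; exact hr _ hI.2, fun j hj => ?_, fun hrI j hj b => ?_⟩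
  · intro h
    have h2 := hmax (insert j I) (by rw [Finset.mem_filter]; exact ⟨Finset.mem_univ _, h⟩)
    rw [Finset.card_insert_of_notMem hj] at h2
    omega
  · have hnot : (j, b) ∉ gens I := by rw [mem_gens]; exact hj
    apply dep_rel hnot hI.2
    intro h
    have h2 := hr _ h
    rw [Finset.card_insert_of_notMem hnot, card_gens] at h2
    omega

/-- a relation for each further number -/
theorem compl_rel {B : ℕ} (hB : 1 ≤ B) {t : Fin k → ℚ} (ht : ∀ i, InBox B (t i))
    {I : Finset (Fin k)} (hI : MulIndep t (gens I)) {j : Fin k} (hj : j ∉ I)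
    (hd : ¬ MulIndep t (gens (insert j I))) :
    ∃ (a b : ℤ) (f : Fin k × Bool → ℤ), (a ≠ 0 ∨ b ≠ 0) ∧
      |a| ≤ (MB k (Nat.log 2 (2 * B)) : ℕ) ∧ |b| ≤ (MB k (Nat.log 2 (2 * B)) : ℕ) ∧
      (∀ x, |f x| ≤ (MB k (Nat.log 2 (2 * B)) : ℕ)) ∧
      (a : ℝ) * Real.log (t j : ℝ) + (b : ℝ) * Real.log (1 - (t j : ℝ)) =
        ∑ x ∈ gens I, (f x : ℝ) * Real.log (crd t x : ℝ) := by
  classical
  have e1 : ((crd t (j, false) : ℚ) : ℝ) = t j := rfl
  have e2 : ((crd t (j, true) : ℚ) : ℝ) = 1 - (t j : ℝ) := by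
    change (((1 - t j : ℚ)) : ℝ) = _
    push_cast
    rfl
  have hz : (j, false) ∉ gens I := by rw [mem_gens]; exact hj
  by_cases h1 : MulIndep t (insert (j, false) (gens I))
  · have hz2 : (j, true) ∉ insert (j, false) (gens I) := by
      rw [Finset.mem_insert, mem_gens]
      simp [hj]
    have hgens : gens (insert j I) = insert (j, true) (insert (j, false) (gens I)) := by
      ext ⟨a, b⟩
      simp only [mem_gens, Finset.mem_insert, Prod.mk.injEq]
      cases b <;> simp
    rw [hgens] at hd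
    obtain ⟨n, e, hn, he⟩ := dep_rel hz2 h1 hd
    obtain ⟨N, f, hN, hNM, hf, hlog⟩ := cramers hB ht h1 hn he
    rw [Finset.sum_insert hz, e1, e2] at hlog
    refine ⟨-f (j, false), N, f, Or.inr hN, ?_, hNM, hf, ?_⟩
    · rw [abs_neg]; exact hf _
    · push_cast
      linarith
  · obtain ⟨n, e, hn, he⟩ := dep_rel hz hI h1
    obtain ⟨N, f, hN, hNM, hf, hlog⟩ := cramers hB ht hI hn he
    rw [e1] at hlog
    refine ⟨N, 0, f, Or.inl hN, hNM, by simp, hf, ?_⟩
    push_cast
    linarith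

/-- at most six solutions -/
theorem log_sols {a b c : ℝ} (hab : a ≠ 0 ∨ b ≠ 0) (T : Finset ℚ)
    (hT : ∀ z ∈ T, z ≠ 0 ∧ z ≠ 1 ∧ a * Real.log (z : ℝ) + b * Real.log (1 - (z : ℝ)) = c) :
    T.card ≤ 6 := by
  classical
  have key : ∀ J : Set ℝ, J.OrdConnected → (0 : ℝ) ∉ J → (1 : ℝ) ∉ J →
      ∃ T' : Finset ℚ, (∀ z ∈ T, (z : ℝ) ∈ J → z ∈ T') ∧ T'.card ≤ 2 := by
    intro J hJ h0 h1
    obtain ⟨T', hT'⟩ : ∃ T', T' = T.filter (fun z : ℚ => (z : ℝ) ∈ J) := ⟨_, rfl⟩
    refine ⟨T', fun z hz hzJ => by rw [hT']; exact Finset.mem_filter.2 ⟨hz, hzJ⟩, ?_⟩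
    by_contra hcon
    push Not at hcon
    have hcard : (T'.image (fun z : ℚ => (z : ℝ))).card = T'.card :=
      Finset.card_image_of_injective _ Rat.cast_injective
    have hmem : ∀ z ∈ T', z ∈ T ∧ (z : ℝ) ∈ J := fun z hz => by
      rwa [hT', Finset.mem_filter] at hz
    have hn0 : ∀ t ∈ J, t ≠ 0 := fun t ht h => h0 (h ▸ ht)
    have hn1 : ∀ t ∈ J, (1 : ℝ) - t ≠ 0 := fun t ht => sub_ne_zero.2 (fun h => h1 (h ▸ ht))
    obtain ⟨T1, g1, g2⟩ := rolle (f := fun t => a * Real.log t + b * Real.log (1 - t) - c)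
      (f' := fun t => a * t⁻¹ + b * (-1 / (1 - t))) hJ
      (fun t ht => by
        have d1 : HasDerivAt (fun t => a * Real.log t) (a * t⁻¹) t :=
          (Real.hasDerivAt_log (hn0 t ht)).const_mul a
        have d2 : HasDerivAt (fun t : ℝ => Real.log (1 - t)) (-1 / (1 - t)) t := by
          have := ((hasDerivAt_id t).const_sub 1).log (hn1 t ht)
          simpa using this
        exact (d1.add (d2.const_mul b)).sub_const c)
      (T'.image (fun z : ℚ => (z : ℝ)))
      (fun t ht => by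
        obtain ⟨z, hz, rfl⟩ := Finset.mem_image.1 ht
        exact (hmem z hz).2)
      (fun t ht => by
        obtain ⟨z, hz, rfl⟩ := Finset.mem_image.1 ht
        have := (hT z (hmem z hz).1).2.2
        linarith)
    obtain ⟨u, hu, v, hv, huv⟩ := Finset.one_lt_card.1 (by omega : 1 < T1.card)
    have hz0 : ∀ t ∈ T1, a * (1 - t) - b * t = 0 := by
      intro t ht
      obtain ⟨k1, k2⟩ := g1 t ht
      have k3 := hn0 t k1
      have k4 := hn1 t k1
      have k5 : a * (1 - t) - b * t = (a * t⁻¹ + b * (-1 / (1 - t))) * (t * (1 - t)) := by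
        field_simp
        ring
      rw [k5, k2, zero_mul]
    obtain ⟨ha, hb⟩ := lin0 huv (hz0 u hu) (hz0 v hv)
    rcases hab with h | h
    · exact h ha
    · exact h hb
  obtain ⟨T1, m1, k1⟩ := key (Set.Iio 0) Set.ordConnected_Iio (by simp) (by simp)
  obtain ⟨T2, m2, k2⟩ := key (Set.Ioo 0 1) Set.ordConnected_Ioo (by simp) (by simp)
  obtain ⟨T3, m3, k3⟩ := key (Set.Ioi 1) Set.ordConnected_Ioi (by simp) (by simp)
  have hsub : T ⊆ (T1 ∪ T2) ∪ T3 := by
    intro z hz
    obtain ⟨h0, h1, _⟩ := hT z hz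
    rw [Finset.mem_union, Finset.mem_union]
    rcases lt_or_gt_of_ne h0 with h | h
    · left; left
      exact m1 z hz (by rw [Set.mem_Iio]; exact_mod_cast h)
    · rcases lt_or_gt_of_ne h1 with h' | h'
      · left; right
        exact m2 z hz (by rw [Set.mem_Ioo]; exact ⟨by exact_mod_cast h, by exact_mod_cast h'⟩)
      · right
        exact m3 z hz (by rw [Set.mem_Ioi]; exact_mod_cast h')
  have h1 := Finset.card_le_card hsub
  have h2 := Finset.card_union_le (T1 ∪ T2) T3
  have h3 := Finset.card_union_le T1 T2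
  omega

open scoped Classical in
/-- the solutions of one relation -/
noncomputable def C1 (B : ℕ) (I : Finset (Fin k)) (t : Fin k → ℚ) (a b : ℤ)
    (f : Fin k × Bool → ℤ) : Finset ℚ :=
  (S B).filter fun z => (a ≠ 0 ∨ b ≠ 0) ∧ (a : ℝ) * Real.log (z : ℝ) +
    (b : ℝ) * Real.log (1 - (z : ℝ)) = ∑ x ∈ gens I, (f x : ℝ) * Real.log (crd t x : ℝ)

lemma card_C1 (B : ℕ) (I : Finset (Fin k)) (t : Fin k → ℚ) (a b : ℤ) (f : Fin k × Bool → ℤ) :
    (C1 B I t a b f).card ≤ 6 := by
  classical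
  by_cases hab : a ≠ 0 ∨ b ≠ 0
  · apply log_sols (a := (a : ℝ)) (b := (b : ℝ))
      (c := ∑ x ∈ gens I, (f x : ℝ) * Real.log (crd t x : ℝ))
    · rcases hab with h | h
      · left; exact_mod_cast h
      · right; exact_mod_cast h
    · intro z hz
      rw [C1, Finset.mem_filter, mem_S] at hz
      exact ⟨hz.1.1, hz.1.2.1, hz.2.2⟩
  · have : C1 B I t a b f = ∅ := by
      rw [C1, Finset.filter_eq_empty_iff]
      intro z _ h
      exact hab h.1
    rw [this]
    simp

open scoped Classical in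
/-- the possible further numbers -/
noncomputable def CC (B M : ℕ) (I : Finset (Fin k)) (t : Fin k → ℚ) : Finset ℚ :=
  (Finset.Icc (-(M : ℤ)) M).biUnion fun a => (Finset.Icc (-(M : ℤ)) M).biUnion fun b =>
    (Ex k M).biUnion fun f => C1 B I t a b f

lemma card_CC (B M : ℕ) (I : Finset (Fin k)) (t : Fin k → ℚ) :
    (CC B M I t).card ≤ (2 * M + 1) * ((2 * M + 1) * ((2 * M + 1) ^ (2 * k) * 6)) := by
  classical
  have h3 : (Finset.Icc (-(M : ℤ)) M).card ≤ 2 * M + 1 := by
    rw [Int.card_Icc]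
    omega
  rw [CC]
  refine card_bUN' _ _ _ _ h3 fun a _ => ?_
  refine card_bUN' _ _ _ _ h3 fun b _ => ?_
  refine card_bUN' _ _ _ _ (card_Ex k M).le fun f _ => ?_
  exact card_C1 B I t a b f

lemma CC_congr {B M : ℕ} {I : Finset (Fin k)} {t t' : Fin k → ℚ} (h : ∀ i ∈ I, t i = t' i) :
    CC B M I t = CC B M I t' := by
  classical
  have h1 : ∀ f : Fin k × Bool → ℤ, ∑ x ∈ gens I, (f x : ℝ) * Real.log (crd t x : ℝ) =
      ∑ x ∈ gens I, (f x : ℝ) * Real.log (crd t' x : ℝ) := by
    intro f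
    apply Finset.sum_congr rfl
    intro x hx
    unfold crd
    rw [h x.1 (mem_gens.1 hx)]
  unfold CC C1
  simp only [h1]

/-- the counting lemma -/
theorem countL {B M : ℕ} (X : Finset (Fin k) → Finset (Fin k → ℚ)) (T : Finset (Fin k → ℚ))
    (hT : ∀ t ∈ T, (∀ i, InBox B (t i)) ∧ ∃ I, rs I t ∈ X I ∧ ∀ j, j ∉ I → t j ∈ CC B M I t)
    {c : ℝ} (hc : ∀ I, ((X I).card : ℝ) ≤ c) :
    (T.card : ℝ) ≤ 2 ^ k * (c * (7 * (2 * (M : ℝ) + 1) ^ (2 * k + 2)) ^ k) := by
  classical
  obtain ⟨u, hu⟩ : ∃ u : ℝ, u = (7 * (2 * (M : ℝ) + 1) ^ (2 * k + 2)) ^ k := ⟨_, rfl⟩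
  have hu0 : 0 ≤ u := by rw [hu]; positivity
  rw [← hu]
  have hsub : T ⊆ (univ : Finset (Finset (Fin k))).biUnion
      (fun I => T.filter (fun t => rs I t ∈ X I ∧ ∀ j, j ∉ I → t j ∈ CC B M I t)) := by
    intro t ht
    obtain ⟨_, I, h1, h2⟩ := hT t ht
    rw [Finset.mem_biUnion]
    exact ⟨I, Finset.mem_univ _, Finset.mem_filter.2 ⟨ht, h1, h2⟩⟩
  have h1 : (T.card : ℝ) ≤ (((univ : Finset (Finset (Fin k))).biUnion
      (fun I => T.filter (fun t => rs I t ∈ X I ∧ ∀ j, j ∉ I → t j ∈ CC B M I t))).card : ℕ) :=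
    Nat.cast_le.2 (Finset.card_le_card hsub)
  refine h1.trans ((card_bU _ _ (fun _ => c * u) (fun I _ => ?_)).trans ?_)
  · obtain ⟨TI, hTI⟩ : ∃ TI, TI = T.filter (fun t => rs I t ∈ X I ∧
        ∀ j, j ∉ I → t j ∈ CC B M I t) := ⟨_, rfl⟩
    rw [← hTI]
    have hmaps : ∀ t ∈ TI, rs I t ∈ X I := by
      intro t ht
      rw [hTI, Finset.mem_filter] at ht
      exact ht.2.1
    rw [Finset.card_eq_sum_card_fiberwise hmaps, Nat.cast_sum]
    have hfib : ∀ x ∈ X I, (((TI.filter (fun t => rs I t = x)).card : ℕ) : ℝ) ≤ u := by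
      intro x hx
      rcases Finset.eq_empty_or_nonempty (TI.filter (fun t => rs I t = x)) with he | ⟨t0, ht0⟩
      · rw [he, Finset.card_empty, Nat.cast_zero]
        exact hu0
      · rw [Finset.mem_filter] at ht0
        obtain ⟨ht0, hx0⟩ := ht0
        have hle : (TI.filter (fun t => rs I t = x)).card ≤ ((CC B M I t0).card + 1) ^ k := by
          have hsub2 : TI.filter (fun t => rs I t = x) ⊆
              Fintype.piFinset (fun j => if j ∈ I then {t0 j} else CC B M I t0) := by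
            intro t ht
            rw [Finset.mem_filter] at ht
            obtain ⟨ht, hxt⟩ := ht
            rw [hTI, Finset.mem_filter] at ht
            have hag : ∀ i ∈ I, t i = t0 i := by
              intro i hi
              have h2 := congrFun (hxt.trans hx0.symm) i
              rwa [rs_of_mem hi, rs_of_mem hi] at h2
            rw [Fintype.mem_piFinset]
            intro j
            by_cases hj : j ∈ I
            · rw [if_pos hj, Finset.mem_singleton]
              exact hag j hj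
            · rw [if_neg hj, ← CC_congr hag]
              exact ht.2.2 j hj
          refine (Finset.card_le_card hsub2).trans ?_
          rw [Fintype.card_piFinset]
          calc ∏ j, (if j ∈ I then ({t0 j} : Finset ℚ) else CC B M I t0).card
              ≤ ∏ _j : Fin k, ((CC B M I t0).card + 1) :=
                Finset.prod_le_prod (fun _ _ => Nat.zero_le _) fun j _ => by
                  split_ifs
                  · rw [Finset.card_singleton]; omega
                  · omega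
            _ = ((CC B M I t0).card + 1) ^ k := by
                rw [Finset.prod_const, Finset.card_univ, Fintype.card_fin]
        have hCC : ((CC B M I t0).card : ℝ) + 1 ≤ 7 * (2 * (M : ℝ) + 1) ^ (2 * k + 2) := by
          have h2 : ((CC B M I t0).card : ℝ) ≤ (2 * (M : ℝ) + 1) * ((2 * (M : ℝ) + 1) *
              ((2 * (M : ℝ) + 1) ^ (2 * k) * 6)) := by
            exact_mod_cast card_CC B M I t0
          have h3 : (1 : ℝ) ≤ (2 * (M : ℝ) + 1) ^ (2 * k + 2) :=
            one_le_pow₀ (by have : (0 : ℝ) ≤ M := Nat.cast_nonneg _; linarith)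
          have h4 : (2 * (M : ℝ) + 1) * ((2 * (M : ℝ) + 1) *
              ((2 * (M : ℝ) + 1) ^ (2 * k) * 6)) = 6 * (2 * (M : ℝ) + 1) ^ (2 * k + 2) := by
            rw [pow_add]
            ring
          linarith
        calc (((TI.filter (fun t => rs I t = x)).card : ℕ) : ℝ)
            ≤ ((((CC B M I t0).card + 1) ^ k : ℕ) : ℝ) := by exact_mod_cast hle
          _ = (((CC B M I t0).card : ℝ) + 1) ^ k := by push_cast; ring
          _ ≤ u := by
              rw [hu]
              exact pow_le_pow_left₀ (by positivity) hCC k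
    refine (Finset.sum_le_sum hfib).trans ?_
    rw [Finset.sum_const, nsmul_eq_mul]
    exact mul_le_mul_of_nonneg_right (hc I) hu0
  · rw [Finset.sum_const, nsmul_eq_mul, Finset.card_univ, Fintype.card_finset, Fintype.card_fin]
    push_cast
    exact le_rfl

end Pool.Agent.E8helper35.RP
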