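import Pool.Agent.E8helper35.RP.Spec

/-!
# The number of special tuples
-/

set_option autoImplicit false

namespace Pool.Agent.E8helper35.RP

open Finset

variable {k : ℕ}

lemma sum_sq34 (n : ℕ) (hn : 2 ≤ n) :
    ∑ d ∈ Finset.Icc 2 n, 1 / (d : ℝ) ^ 2 ≤ 3 / 4 - 1 / (n : ℝ) + 0 := by
  induction n, hn using Nat.le_induction with
  | base => norm_num
  | succ n hn ih =>
    have hIcc : Finset.Icc 2 (n + 1) = insert (n + 1) (Finset.Icc 2 n) := by
      ext x
      simp only [Finset.mem_Icc, Finset.mem_insert]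
      omega
    rw [hIcc, Finset.sum_insert (by simp)]
    have h0 : (0 : ℝ) < n := by
      have : 0 < n := by omega
      exact_mod_cast this
    have h1 : 1 / ((n : ℝ) + 1) ^ 2 ≤ 1 / (n : ℝ) - 1 / ((n : ℝ) + 1) := by
      rw [div_sub_div _ _ h0.ne' (by positivity), div_le_div_iff₀ (by positivity) (by positivity)]
      nlinarith
    push_cast
    linarith

/-- pairs of coprime numbers -/
lemma card_cop (B : ℕ) (hB : 1 ≤ B) :
    (B : ℝ) ^ 2 / 4 ≤ ((((Finset.Icc 1 B) ×ˢ (Finset.Icc 1 B)).filter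
      (fun x : ℕ × ℕ => Nat.Coprime x.1 x.2)).card : ℝ) := by
  classical
  -- the complement
  have h1 : ((Finset.Icc 1 B) ×ˢ (Finset.Icc 1 B)).filter (fun x : ℕ × ℕ => ¬ Nat.Coprime x.1 x.2) ⊆
      (Finset.Icc 2 B).biUnion (fun d => ((Finset.Icc 1 (B / d)) ×ˢ (Finset.Icc 1 (B / d))).image
        (fun x => (d * x.1, d * x.2))) := by
    intro x hx
    rw [Finset.mem_filter, Finset.mem_product, Finset.mem_Icc, Finset.mem_Icc] at hx
    obtain ⟨⟨⟨h1, h2⟩, h3, h4⟩, h5⟩ := hx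
    rw [Finset.mem_biUnion]
    obtain ⟨g, hg⟩ : ∃ g, g = Nat.gcd x.1 x.2 := ⟨_, rfl⟩
    have hg0 : 0 < g := by rw [hg]; exact Nat.gcd_pos_of_pos_left _ (by omega)
    have hg1 : g ≠ 1 := by rw [hg]; exact h5
    obtain ⟨a, ha⟩ : g ∣ x.1 := by rw [hg]; exact Nat.gcd_dvd_left _ _
    obtain ⟨b, hb⟩ : g ∣ x.2 := by rw [hg]; exact Nat.gcd_dvd_right _ _
    have ha0 : 1 ≤ a := by
      rcases Nat.eq_zero_or_pos a with h | h
      · rw [h, mul_zero] at ha; omega
      · exact h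
    have hb0 : 1 ≤ b := by
      rcases Nat.eq_zero_or_pos b with h | h
      · rw [h, mul_zero] at hb; omega
      · exact h
    refine ⟨g, ?_, ?_⟩
    · rw [Finset.mem_Icc]
      refine ⟨by omega, ?_⟩
      calc g = g * 1 := (mul_one g).symm
        _ ≤ g * a := Nat.mul_le_mul_left g ha0
        _ = x.1 := ha.symm
        _ ≤ B := h2
    · rw [Finset.mem_image]
      refine ⟨(a, b), ?_, ?_⟩
      · rw [Finset.mem_product, Finset.mem_Icc, Finset.mem_Icc]
        refine ⟨⟨ha0, ?_⟩, hb0, ?_⟩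
        · simp only
          rw [Nat.le_div_iff_mul_le hg0, mul_comm, ← ha]
          exact h2
        · simp only
          rw [Nat.le_div_iff_mul_le hg0, mul_comm, ← hb]
          exact h4
      · simp only
        rw [← ha, ← hb]
  have h2 : (((((Finset.Icc 1 B) ×ˢ (Finset.Icc 1 B)).filter
      (fun x : ℕ × ℕ => ¬ Nat.Coprime x.1 x.2)).card : ℕ) : ℝ) ≤ 3 / 4 * (B : ℝ) ^ 2 := by
    have h3 : (((((Finset.Icc 1 B) ×ˢ (Finset.Icc 1 B)).filter
      (fun x : ℕ × ℕ => ¬ Nat.Coprime x.1 x.2)).card : ℕ) : ℝ) ≤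
        ∑ d ∈ Finset.Icc 2 B, (((B / d) * (B / d) : ℕ) : ℝ) := by
      have h4 := (Finset.card_le_card h1).trans Finset.card_biUnion_le
      have h5 : ∀ d ∈ Finset.Icc 2 B, (((Finset.Icc 1 (B / d)) ×ˢ (Finset.Icc 1 (B / d))).image
        (fun x => (d * x.1, d * x.2))).card ≤ (B / d) * (B / d) := by
        intro d _
        refine Finset.card_image_le.trans (le_of_eq ?_)
        rw [Finset.card_product, Nat.card_Icc, Nat.add_sub_cancel]
      have h6 := h4.trans (Finset.sum_le_sum h5)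
      exact_mod_cast h6
    rcases Nat.lt_or_ge B 2 with hB2 | hB2
    · have : B = 1 := by omega
      subst this
      refine h3.trans ?_
      rw [Finset.Icc_eq_empty (by omega), Finset.sum_empty]
      norm_num
    · refine h3.trans ?_
      have h7 : ∀ d ∈ Finset.Icc 2 B, (((B / d) * (B / d) : ℕ) : ℝ) ≤
          (B : ℝ) ^ 2 * (1 / (d : ℝ) ^ 2) := by
        intro d hd
        have h8 : ((B / d : ℕ) : ℝ) ≤ (B : ℝ) / d := Nat.cast_div_le
        have h9 : (0 : ℝ) ≤ ((B / d : ℕ) : ℝ) := Nat.cast_nonneg _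
        calc (((B / d) * (B / d) : ℕ) : ℝ) = ((B / d : ℕ) : ℝ) * ((B / d : ℕ) : ℝ) := by push_cast; ring
          _ ≤ ((B : ℝ) / d) * ((B : ℝ) / d) := mul_le_mul h8 h8 h9 (h9.trans h8)
          _ = (B : ℝ) ^ 2 * (1 / (d : ℝ) ^ 2) := by ring
      refine (Finset.sum_le_sum h7).trans ?_
      rw [← Finset.mul_sum]
      have h10 := sum_sq34 B hB2
      have h11 : (0 : ℝ) ≤ 1 / (B : ℝ) := by positivity
      have h12 : (0 : ℝ) ≤ (B : ℝ) ^ 2 := by positivity
      nlinarith
  have h3 := Finset.card_filter_add_card_filter_not (s := (Finset.Icc 1 B) ×ˢ (Finset.Icc 1 B))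
    (fun x : ℕ × ℕ => Nat.Coprime x.1 x.2)
  rw [Finset.card_product, Nat.card_Icc, Nat.add_sub_cancel] at h3
  have h4 : ((((Finset.Icc 1 B) ×ˢ (Finset.Icc 1 B)).filter
      (fun x : ℕ × ℕ => Nat.Coprime x.1 x.2)).card : ℝ) +
      ((((Finset.Icc 1 B) ×ˢ (Finset.Icc 1 B)).filter
      (fun x : ℕ × ℕ => ¬ Nat.Coprime x.1 x.2)).card : ℝ) = (B : ℝ) * B := by
    exact_mod_cast h3
  nlinarith

lemma card_S_ge {B : ℕ} (hB : 1 ≤ B) : (B : ℝ) ^ 2 / 4 ≤ ((S B).card : ℝ) := by
  classical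
  refine (card_cop B hB).trans ?_
  have h : (((Finset.Icc 1 B) ×ˢ (Finset.Icc 1 B)).filter
      (fun x : ℕ × ℕ => Nat.Coprime x.1 x.2)).card ≤ (S B).card := by
    have hnd : ∀ x : ℕ × ℕ, 1 ≤ x.2 → Nat.Coprime x.1 x.2 →
        (-((x.1 : ℚ) / x.2)).num = -(x.1 : ℤ) ∧ (-((x.1 : ℚ) / x.2)).den = x.2 := by
      intro x h1 h2
      have h3 := Rat.num_div_eq_of_coprime (a := (x.1 : ℤ)) (b := (x.2 : ℤ)) (by omega)
        (by rw [Int.natAbs_natCast, Int.natAbs_natCast]; exact h2)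
      have h4 := Rat.den_div_eq_of_coprime (a := (x.1 : ℤ)) (b := (x.2 : ℤ)) (by omega)
        (by rw [Int.natAbs_natCast, Int.natAbs_natCast]; exact h2)
      push_cast at h3 h4
      rw [Rat.num_neg_eq_neg_num, Rat.den_neg_eq_den]
      exact ⟨by rw [h3], by exact_mod_cast h4⟩
    apply Finset.card_le_card_of_injOn (fun x : ℕ × ℕ => -((x.1 : ℚ) / x.2))
    · intro x hx
      rw [Finset.mem_coe, Finset.mem_filter, Finset.mem_product, Finset.mem_Icc,
        Finset.mem_Icc] at hx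
      obtain ⟨⟨⟨h1, h2⟩, h3, h4⟩, h5⟩ := hx
      rw [Finset.mem_coe, mem_S]
      obtain ⟨h6, h7⟩ := hnd x h3 h5
      have hp : (0 : ℚ) < (x.1 : ℚ) / x.2 := by
        have h8 : (0 : ℚ) < x.1 := by exact_mod_cast h1
        have h9 : (0 : ℚ) < x.2 := by exact_mod_cast h3
        positivity
      refine ⟨?_, ?_, ?_, ?_⟩
      · simp only; linarith
      · simp only; linarith
      · simp only; rw [h6]; omega
      · simp only; rw [h7]; exact h4
    · intro x hx y hy hxy
      rw [Finset.mem_coe, Finset.mem_filter, Finset.mem_product, Finset.mem_Icc,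
        Finset.mem_Icc] at hx hy
      obtain ⟨h6, h7⟩ := hnd x hx.1.2.1 hx.2
      obtain ⟨h6', h7'⟩ := hnd y hy.1.2.1 hy.2
      simp only at hxy
      rw [hxy] at h6 h7
      rw [h6] at h6'
      rw [h7] at h7'
      exact Prod.ext (by omega) h7'
  exact_mod_cast h

/-- many special tuples -/
theorem special_ge (k m : ℕ) (hm : 1 ≤ m) (hmk : m ≤ k) {B : ℕ} (hB : 1 ≤ B) :
    ∃ T : Finset (Fin k → ℚ), (∀ t ∈ T, (∀ i, InBox B (t i)) ∧ Special m t) ∧
      (1 / 4 : ℝ) ^ m * (B : ℝ) ^ (2 * m) ≤ T.card := by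
  classical
  have hmin : ∀ j : Fin k, min j.val (m - 1) < m := fun j => by
    have := Nat.min_le_right j.val (m - 1)
    omega
  refine ⟨(Fintype.piFinset (fun _ : Fin m => S B)).image
    (fun s => fun j : Fin k => s ⟨min j.val (m - 1), hmin j⟩), ?_, ?_⟩
  · intro t ht
    obtain ⟨s, hs, rfl⟩ := Finset.mem_image.1 ht
    rw [Fintype.mem_piFinset] at hs
    refine ⟨fun i => mem_S.1 (hs _), ?_⟩
    refine ⟨Finset.univ.image (fun i : Fin m => (⟨i.val, by omega⟩ : Fin k)), ?_, ?_⟩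
    · refine Finset.card_image_le.trans ?_
      rw [Finset.card_univ, Fintype.card_fin]
    · intro j
      refine ⟨⟨min j.val (m - 1), lt_of_lt_of_le (hmin j) hmk⟩, ?_, Or.inl ?_⟩
      · rw [Finset.mem_image]
        exact ⟨⟨min j.val (m - 1), hmin j⟩, Finset.mem_univ _, rfl⟩
      · simp only
        congr 2
        rw [min_assoc, min_self]
  · rw [Finset.card_image_of_injective]
    · rw [Fintype.card_piFinset, Finset.prod_const, Finset.card_univ, Fintype.card_fin]
      push_cast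
      rw [pow_mul, ← mul_pow]
      apply pow_le_pow_left₀ (by positivity)
      have := card_S_ge hB
      linarith
    · intro s s' h
      funext i
      have h1 := congrFun h ⟨i.val, by omega⟩
      simp only at h1
      have h2 : (⟨min i.val (m - 1), hmin ⟨i.val, by omega⟩⟩ : Fin m) = i := by
        apply Fin.ext
        simp only
        apply Nat.min_eq_left
        have := i.isLt
        omega
      rw [h2] at h1
      exact h1

/-- the six maps -/
noncomputable def orbm (n : Fin 6) (a : ℚ) : ℚ :=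
  if n = 0 then a else if n = 1 then 1 - a else if n = 2 then 1 / a else if n = 3 then 1 / (1 - a)
    else if n = 4 then a / (a - 1) else (a - 1) / a

lemma orb_orbm {a b : ℚ} (h : Orb a b) : ∃ n, b = orbm n a := by
  rcases h with h | h | h | h | h | h
  · exact ⟨0, h⟩
  · exact ⟨1, h⟩
  · exact ⟨2, h⟩
  · exact ⟨3, h⟩
  · exact ⟨4, h⟩
  · exact ⟨5, h⟩

/-- not too many special tuples -/
theorem special_le (k m : ℕ) {B : ℕ} (hB : 1 ≤ B) (T : Finset (Fin k → ℚ))
    (hT : ∀ t ∈ T, (∀ i, InBox B (t i)) ∧ Special m t) :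
    (T.card : ℝ) ≤ ((2 : ℝ) ^ k * (k * 6 : ℝ) ^ k * 3 ^ m) * (B : ℝ) ^ (2 * m) := by
  classical
  have hS1 : 1 ≤ (S B).card := by
    apply Finset.card_pos.2
    refine ⟨-1, mem_S.2 ⟨by norm_num, by norm_num, ?_, ?_⟩⟩
    · simpa using hB
    · simpa using hB
  have h1 : T ⊆ ((Finset.univ : Finset (Finset (Fin k))).filter (fun I => I.card ≤ m)).biUnion
      (fun I => (Finset.univ : Finset (Fin k → Fin k × Fin 6)).biUnion
        (fun σ => (PP I (fun _ => S B)).image (fun u => fun j => orbm (σ j).2 (u (σ j).1)))) := by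
    intro t ht
    obtain ⟨h1, I, hI, hO⟩ := hT t ht
    rw [Finset.mem_biUnion]
    refine ⟨I, Finset.mem_filter.2 ⟨Finset.mem_univ _, hI⟩, ?_⟩
    choose i hi hOi using hO
    choose n hn using fun j => orb_orbm (hOi j)
    rw [Finset.mem_biUnion]
    refine ⟨fun j => (i j, n j), Finset.mem_univ _, ?_⟩
    rw [Finset.mem_image]
    refine ⟨rs I t, rs_mem_PP.2 (fun j _ => mem_S.2 (h1 j)), ?_⟩
    funext j
    simp only
    rw [rs_of_mem (hi j)]
    exact (hn j).symm
  have h2 : T.card ≤ 2 ^ k * ((k * 6) ^ k * (S B).card ^ m) := by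
    refine (Finset.card_le_card h1).trans ?_
    refine (card_bUN _ _ ((k * 6) ^ k * (S B).card ^ m) fun I hI => ?_).trans ?_
    · refine (card_bUN _ _ ((S B).card ^ m) fun σ _ => ?_).trans (le_of_eq ?_)
      · refine Finset.card_image_le.trans ?_
        rw [card_PPS]
        exact Nat.pow_le_pow_right hS1 (Finset.mem_filter.1 hI).2
      · rw [Finset.card_univ, Fintype.card_fun, Fintype.card_prod, Fintype.card_fin,
          Fintype.card_fin]
    · apply Nat.mul_le_mul_right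
      refine (Finset.card_filter_le _ _).trans (le_of_eq ?_)
      rw [Finset.card_univ, Fintype.card_finset, Fintype.card_fin]
  have h3 : (T.card : ℝ) ≤ (2 : ℝ) ^ k * ((k * 6 : ℝ) ^ k * ((S B).card : ℝ) ^ m) := by
    exact_mod_cast h2
  have h4 : ((S B).card : ℝ) ^ m ≤ 3 ^ m * (B : ℝ) ^ (2 * m) := by
    rw [pow_mul, ← mul_pow]
    apply pow_le_pow_left₀ (Nat.cast_nonneg _)
    exact_mod_cast card_S hB
  refine h3.trans ?_
  calc (2 : ℝ) ^ k * ((k * 6 : ℝ) ^ k * ((S B).card : ℝ) ^ m)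
      ≤ (2 : ℝ) ^ k * ((k * 6 : ℝ) ^ k * (3 ^ m * (B : ℝ) ^ (2 * m))) := by gcongr
    _ = _ := by ring

end Pool.Agent.E8helper35.RP
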