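import Pool.Agent.E8helper35.RP.Low

/-!
# Rational points of small rank on the powers of the line `x + y = 1`
-/

set_option autoImplicit false

namespace Pool.Agent.E8helper35.RP

open Finset

variable {k : ℕ}

/-- The monomial `∏ t_i ^ a_i (1 - t_i) ^ a'_i`, for the exponents `a = (a_i, a'_i)`. -/
def mon {k : ℕ} (t : Fin k → ℚ) (a : Fin k ⊕ Fin k → ℤ) : ℚ :=
  (∏ i, t i ^ a (Sum.inl i)) * ∏ i, (1 - t i) ^ a (Sum.inr i)

/-- The `k`-tuples of rational numbers different from `0` and `1`, of height at most `B`, for which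
the `2 k` numbers `t_i`, `1 - t_i` satisfy at least `2 k - r` independent multiplicative relations,
that is, generate a group of rank at most `r`. -/
def Pts (k r B : ℕ) : Set (Fin k → ℚ) :=
  {t | (∀ i, t i ≠ 0 ∧ t i ≠ 1 ∧ (t i).num.natAbs ≤ B ∧ (t i).den ≤ B) ∧
    ∃ Λ : Submodule ℤ (Fin k ⊕ Fin k → ℤ), 2 * k ≤ r + Module.finrank ℤ Λ ∧
      ∀ a ∈ Λ, mon t a = 1}

/-- The numbers `t`, `1 - t`, `1 / t`, `1 / (1 - t)`, `t / (t - 1)`, `(t - 1) / t`. -/
def six (t : ℚ) : Fin 6 → ℚ :=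
  ![t, 1 - t, 1 / t, 1 / (1 - t), t / (t - 1), (t - 1) / t]

/-- For `σ j = (i_j, g_j)`, the tuples of numbers different from `0` and `1` with
`t_j = g_j (t_(i_j))` for all `j`. -/
def SpV {k : ℕ} (σ : Fin k → Fin k × Fin 6) : Set (Fin k → ℚ) :=
  {t | (∀ i, t i ≠ 0 ∧ t i ≠ 1) ∧ ∀ j, t j = six (t (σ j).1) (σ j).2}

/-- The number of indices `i_j`: a bound for the dimension of `SpV σ`. -/
def par {k : ℕ} (σ : Fin k → Fin k × Fin 6) : ℕ :=
  (Finset.univ.image fun j => (σ j).1).card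

/-! ### indices -/

/-- the identification of the indices -/
def io {k : ℕ} (x : Fin k × Bool) : Fin k ⊕ Fin k := if x.2 then Sum.inr x.1 else Sum.inl x.1

lemma io_inj : Function.Injective (io (k := k)) := by
  rintro ⟨i, b⟩ ⟨j, c⟩ h
  cases b <;> cases c <;> simp_all [io]

lemma io_surj (y : Fin k ⊕ Fin k) : ∃ x, io x = y := by
  rcases y with i | i
  · exact ⟨(i, false), rfl⟩
  · exact ⟨(i, true), rfl⟩

lemma mon_eq (t : Fin k → ℚ) (a : Fin k ⊕ Fin k → ℤ) :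
    mon t a = ∏ x : Fin k × Bool, crd t x ^ a (io x) := by
  rw [Fintype.prod_prod_type]
  simp only [Fintype.prod_bool]
  rw [Finset.prod_mul_distrib, mul_comm]
  rfl

lemma mon_zero (t : Fin k → ℚ) : mon t 0 = 1 := by
  rw [mon_eq]
  apply Finset.prod_eq_one
  intro x _
  simp

lemma mon_add {t : Fin k → ℚ} (ht : ∀ i, t i ≠ 0 ∧ t i ≠ 1) (a b : Fin k ⊕ Fin k → ℤ) :
    mon t (a + b) = mon t a * mon t b := by
  rw [mon_eq, mon_eq, mon_eq, ← Finset.prod_mul_distrib]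
  apply Finset.prod_congr rfl
  intro x _
  rw [Pi.add_apply, zpow_add₀ (crd_ne ht x)]

lemma mon_smul (t : Fin k → ℚ) (c : ℤ) (a : Fin k ⊕ Fin k → ℤ) :
    mon t (c • a) = mon t a ^ c := by
  rw [mon_eq, mon_eq, ← Finset.prod_zpow]
  apply Finset.prod_congr rfl
  intro x _
  rw [Pi.smul_apply, smul_eq_mul, mul_comm, zpow_mul]

lemma mon_single (t : Fin k → ℚ) (x : Fin k × Bool) (c : ℤ) :
    mon t (Pi.single (io x) c) = crd t x ^ c := by
  classical
  rw [mon_eq, Finset.prod_eq_single_of_mem x (Finset.mem_univ _)]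
  · rw [Pi.single_eq_same]
  · intro y _ hy
    rw [Pi.single_eq_of_ne (fun h => hy (io_inj h)), zpow_zero]

theorem rank_of_rel {t : Fin k → ℚ} {r : ℕ} {Λ : Submodule ℤ (Fin k ⊕ Fin k → ℤ)}
    (h : 2 * k ≤ r + Module.finrank ℤ Λ) (hΛ : ∀ a ∈ Λ, mon t a = 1) : RankLE r t := by
  classical
  intro s hs
  obtain ⟨π, hπ⟩ : ∃ π : Λ →ₗ[ℤ] ({x // x ∈ sᶜ} → ℤ), ∀ a x, π a x = a.1 (io x.1) :=
    ⟨{ toFun := fun a x => a.1 (io x.1)
       map_add' := fun a b => by funext x; rfl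
       map_smul' := fun c a => by funext x; rfl }, fun a x => rfl⟩
  have hinj : Function.Injective π := by
    rw [injective_iff_map_eq_zero]
    intro a ha
    have h1 : ∀ x, x ∉ s → a.1 (io x) = 0 := by
      intro x hx
      have := hπ a ⟨x, Finset.mem_compl.2 hx⟩
      rw [ha] at this
      exact this.symm
    have h2 : ∏ x ∈ s, crd t x ^ a.1 (io x) = 1 := by
      have h3 := hΛ a.1 a.2
      rw [mon_eq] at h3
      rw [← h3]
      apply Finset.prod_subset (Finset.subset_univ s)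
      intro x _ hx
      rw [h1 x hx, zpow_zero]
    have h4 := hs (fun x => a.1 (io x)) h2
    apply Subtype.ext
    funext y
    obtain ⟨x, rfl⟩ := io_surj y
    by_cases hx : x ∈ s
    · exact h4 x hx
    · exact h1 x hx
  have h5 := LinearMap.finrank_le_finrank_of_injective hinj
  rw [Module.finrank_fintype_fun_eq_card, Fintype.card_coe, Finset.card_compl, Fintype.card_prod,
    Fintype.card_fin, Fintype.card_bool] at h5
  have h6 : s.card ≤ k * 2 := by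
    have := Finset.card_le_univ s
    rwa [Fintype.card_prod, Fintype.card_fin, Fintype.card_bool] at this
  omega

/-! ### the special varieties -/

/-- exponents -/
def αt (n : Fin 6) (b : Bool) : ℤ := if b then ![0, 1, -1, 1, 0, -1] n else ![1, 0, -1, 0, 1, -1] n

/-- exponents -/
def βt (n : Fin 6) (b : Bool) : ℤ := if b then ![1, 0, 1, -1, -1, 0] n else ![0, 1, 0, -1, -1, 1] n

lemma six_rel {a : ℚ} (h0 : a ≠ 0) (h1 : a ≠ 1) (n : Fin 6) (b : Bool) :
    (if b then 1 - six a n else six a n) ^ (2 : ℤ) *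
      (a ^ (-2 * αt n b) * (1 - a) ^ (-2 * βt n b)) = 1 := by
  have h2 : (1 : ℚ) - a ≠ 0 := sub_ne_zero.2 h1.symm
  have h3 : a - 1 ≠ 0 := sub_ne_zero.2 h1
  have key : ∀ (c : ℚ) (α β : ℤ) (ε : ℚ), ε ^ 2 = 1 → c = ε * (a ^ α * (1 - a) ^ β) →
      c ^ (2 : ℤ) * (a ^ (-2 * α) * (1 - a) ^ (-2 * β)) = 1 := by
    intro c α β ε hε hc
    rw [hc, mul_zpow, mul_zpow, ← zpow_mul, ← zpow_mul]
    have h4 : ε ^ (2 : ℤ) = 1 := hε
    rw [h4]
    have h5 : a ^ (α * 2) * a ^ (-2 * α) = 1 := by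
      rw [← zpow_add₀ h0, show α * 2 + -2 * α = 0 by ring, zpow_zero]
    have h6 : (1 - a) ^ (β * 2) * (1 - a) ^ (-2 * β) = 1 := by
      rw [← zpow_add₀ h2, show β * 2 + -2 * β = 0 by ring, zpow_zero]
    linear_combination (1 - a) ^ (β * 2) * (1 - a) ^ (-2 * β) * h5 + h6
  cases b
  · fin_cases n
    · exact key _ 1 0 1 (by norm_num) (by simp [six])
    · exact key _ 0 1 1 (by norm_num) (by simp [six])
    · exact key _ (-1) 0 1 (by norm_num) (by simp [six])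
    · exact key _ 0 (-1) 1 (by norm_num) (by simp [six])
    · exact key _ 1 (-1) (-1) (by norm_num) (by
        change a / (a - 1) = _
        rw [zpow_neg_one, zpow_one]; field_simp; ring)
    · exact key _ (-1) 1 (-1) (by norm_num) (by
        change (a - 1) / a = _
        rw [zpow_neg_one, zpow_one]; field_simp; ring)
  · fin_cases n
    · exact key _ 0 1 1 (by norm_num) (by simp [six])
    · exact key _ 1 0 1 (by norm_num) (by simp [six])
    · exact key _ (-1) 1 (-1) (by norm_num) (by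
        change 1 - 1 / a = _
        rw [zpow_neg_one, zpow_one]; field_simp; ring)
    · exact key _ 1 (-1) (-1) (by norm_num) (by
        change 1 - 1 / (1 - a) = _
        rw [zpow_neg_one, zpow_one]; field_simp; ring)
    · exact key _ 0 (-1) 1 (by norm_num) (by
        change 1 - a / (a - 1) = _
        rw [zpow_neg_one, zpow_zero]; field_simp; ring)
    · exact key _ (-1) 0 1 (by norm_num) (by
        change 1 - (a - 1) / a = _
        rw [zpow_neg_one, zpow_zero]; field_simp; ring)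

/-- the relations on a special variety -/
theorem rel_SpV (σ : Fin k → Fin k × Fin 6) : ∃ Λ : Submodule ℤ (Fin k ⊕ Fin k → ℤ),
    2 * k ≤ 2 * par σ + Module.finrank ℤ Λ ∧ ∀ t ∈ SpV σ, ∀ a ∈ Λ, mon t a = 1 := by
  classical
  obtain ⟨I, hI⟩ : ∃ I : Finset (Fin k), I = Finset.univ.image fun j => (σ j).1 := ⟨_, rfl⟩
  have hσI : ∀ j, (σ j).1 ∈ I := fun j => by
    rw [hI]; exact Finset.mem_image_of_mem _ (Finset.mem_univ j)
  have hpar : par σ = I.card := by rw [hI]; rfl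
  obtain ⟨Λ, hΛ⟩ : ∃ Λ : Submodule ℤ (Fin k ⊕ Fin k → ℤ),
      ∀ a, a ∈ Λ ↔ ∀ t ∈ SpV σ, mon t a = 1 :=
    ⟨{ carrier := {a | ∀ t ∈ SpV σ, mon t a = 1}
       add_mem' := fun {a b} ha hb t ht => by rw [mon_add ht.1, ha t ht, hb t ht, one_mul]
       zero_mem' := fun t _ => mon_zero t
       smul_mem' := fun c a ha t ht => by rw [mon_smul, ha t ht, one_zpow] }, fun a => Iff.rfl⟩
  refine ⟨Λ, ?_, fun t ht a ha => (hΛ a).1 ha t ht⟩
  obtain ⟨v, hv⟩ : ∃ v : Fin k × Bool → (Fin k ⊕ Fin k → ℤ), ∀ x, v x =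
      Pi.single (io x) 2 + (Pi.single (io ((σ x.1).1, false)) (-2 * αt (σ x.1).2 x.2) +
        Pi.single (io ((σ x.1).1, true)) (-2 * βt (σ x.1).2 x.2)) := ⟨_, fun x => rfl⟩
  have hvΛ : ∀ x, v x ∈ Λ := by
    intro x
    rw [hΛ]
    intro t ht
    rw [hv, mon_add ht.1, mon_add ht.1, mon_single, mon_single, mon_single]
    have h1 := six_rel (ht.1 (σ x.1).1).1 (ht.1 (σ x.1).1).2 (σ x.1).2 x.2
    rw [← ht.2 x.1] at h1
    exact h1
  have hli : LinearIndependent ℤ (fun x : {x // x ∈ (gens I)ᶜ} => (⟨v x.1, hvΛ x.1⟩ : Λ)) := by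
    rw [Fintype.linearIndependent_iff]
    intro g hg x0
    have h1 : ∑ x : {x // x ∈ (gens I)ᶜ}, g x * v x.1 (io x0.1) = 0 := by
      have h2 := congrArg (fun a : Λ => a.1 (io x0.1)) hg
      simp only [Submodule.coe_sum, Submodule.coe_smul, Finset.sum_apply, Pi.smul_apply,
        smul_eq_mul] at h2
      exact h2
    have hx0 : x0.1.1 ∉ I := fun h => (Finset.mem_compl.1 x0.2) (mem_gens.2 h)
    rw [Finset.sum_eq_single_of_mem x0 (Finset.mem_univ _)] at h1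
    · rw [hv, Pi.add_apply, Pi.add_apply, Pi.single_eq_same,
        Pi.single_eq_of_ne (fun h => hx0 (by rw [io_inj h]; exact hσI _)),
        Pi.single_eq_of_ne (fun h => hx0 (by rw [io_inj h]; exact hσI _))] at h1
      omega
    · intro x _ hx
      rw [hv, Pi.add_apply, Pi.add_apply,
        Pi.single_eq_of_ne (fun h => hx (Subtype.ext (io_inj h).symm)),
        Pi.single_eq_of_ne (fun h => hx0 (by rw [io_inj h]; exact hσI _)),
        Pi.single_eq_of_ne (fun h => hx0 (by rw [io_inj h]; exact hσI _))]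
      ring
  have h1 := hli.fintype_card_le_finrank
  rw [Fintype.card_coe, Finset.card_compl, Fintype.card_prod, Fintype.card_fin, Fintype.card_bool,
    card_gens] at h1
  rw [hpar]
  omega

lemma special_iff {m : ℕ} {t : Fin k → ℚ} (ht : ∀ i, t i ≠ 0 ∧ t i ≠ 1) :
    Special m t ↔ ∃ σ, par σ ≤ m ∧ t ∈ SpV σ := by
  classical
  constructor
  · rintro ⟨I, hI, hO⟩
    choose i hi hOi using hO
    have h6 : ∀ j, ∃ n, t j = six (t (i j)) n := by
      intro j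
      rcases hOi j with h | h | h | h | h | h
      · exact ⟨0, h⟩
      · exact ⟨1, h⟩
      · exact ⟨2, h⟩
      · exact ⟨3, h⟩
      · exact ⟨4, h⟩
      · exact ⟨5, h⟩
    choose n hn using h6
    refine ⟨fun j => (i j, n j), ?_, ht, hn⟩
    refine (Finset.card_le_card ?_).trans hI
    intro x hx
    obtain ⟨j, _, rfl⟩ := Finset.mem_image.1 hx
    exact hi j
  · rintro ⟨σ, hσ, _, h⟩
    refine ⟨Finset.univ.image fun j => (σ j).1, hσ, fun j =>
      ⟨(σ j).1, Finset.mem_image_of_mem _ (Finset.mem_univ j), ?_⟩⟩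
    rw [h j]
    generalize (σ j).2 = n
    unfold Orb
    fin_cases n
    · exact Or.inl rfl
    · exact Or.inr (Or.inl rfl)
    · exact Or.inr (Or.inr (Or.inl rfl))
    · exact Or.inr (Or.inr (Or.inr (Or.inl rfl)))
    · exact Or.inr (Or.inr (Or.inr (Or.inr (Or.inl rfl))))
    · exact Or.inr (Or.inr (Or.inr (Or.inr (Or.inr rfl))))

lemma Pts_spec {r B : ℕ} {t : Fin k → ℚ} (h : t ∈ Pts k r B) :
    (∀ i, InBox B (t i)) ∧ RankLE r t := by
  obtain ⟨h1, Λ, h2, h3⟩ := h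
  exact ⟨h1, rank_of_rel h2 h3⟩

lemma Pts_finite (k r B : ℕ) : (Pts k r B).Finite := by
  apply (Fintype.piFinset (fun _ : Fin k => S B)).finite_toSet.subset
  intro t ht
  rw [Finset.mem_coe, Fintype.mem_piFinset]
  exact fun i => mem_S.2 ((Pts_spec ht).1 i)

lemma mem_Pts {m r B : ℕ} (hr : 2 * m ≤ r) {t : Fin k → ℚ} (h1 : ∀ i, InBox B (t i))
    (h2 : Special m t) : t ∈ Pts k r B := by
  obtain ⟨σ, hσ, hσt⟩ := (special_iff (fun i => ⟨(h1 i).1, (h1 i).2.1⟩)).1 h2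
  obtain ⟨Λ, hΛ, hΛ'⟩ := rel_SpV σ
  exact ⟨h1, Λ, by omega, hΛ' t hσt⟩

theorem main (k m : ℕ) (hm : 1 ≤ m) (hmk : m ≤ k) :
    (∀ r B : ℕ, (Pts k r B).Finite) ∧
    (∃ c : ℝ, 0 < c ∧ ∀ r B : ℕ, 2 * m ≤ r → 1 ≤ B →
      c * (B : ℝ) ^ (2 * m) ≤ (Pts k r B).ncard) ∧
    (∃ C : ℝ, ∀ B : ℕ, 1 ≤ B → ((Pts k (2 * m) B).ncard : ℝ) ≤ C * (B : ℝ) ^ (2 * m)) ∧
    (∀ ε : ℝ, 0 < ε → ∃ C : ℝ, ∀ B : ℕ, 1 ≤ B →
      ((Pts k (2 * m + 1) B).ncard : ℝ) ≤ C * (B : ℝ) ^ (2 * (m : ℝ) + ε)) ∧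
    (∀ σ : Fin k → Fin k × Fin 6, par σ ≤ m → ∃ Λ : Submodule ℤ (Fin k ⊕ Fin k → ℤ),
      2 * (k - m) ≤ Module.finrank ℤ Λ ∧ ∀ t ∈ SpV σ, ∀ a ∈ Λ, mon t a = 1) ∧
    ∃ C : ℝ, ∀ B : ℕ, 1 ≤ B →
      (({t ∈ Pts k (2 * m) B | ∀ σ, par σ ≤ m → t ∉ SpV σ}).ncard : ℝ) ≤
        C * (B : ℝ) ^ (2 * (m : ℝ) - 1 / (12 * m)) := by
  classical
  have hncard : ∀ (P : Set (Fin k → ℚ)) (hP : P.Finite), (P.ncard : ℝ) = (hP.toFinset.card : ℝ) :=
    fun P hP => by rw [Set.ncard_eq_toFinset_card P hP]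
  have hfin : ∀ B, ({t ∈ Pts k (2 * m) B | ∀ σ, par σ ≤ m → t ∉ SpV σ}).Finite :=
    fun B => (Pts_finite k (2 * m) B).subset (Set.sep_subset _ _)
  obtain ⟨C2, hC2⟩ := upper_B k m hm
  have hexc : ∀ B : ℕ, 1 ≤ B → (({t ∈ Pts k (2 * m) B | ∀ σ, par σ ≤ m → t ∉ SpV σ}).ncard : ℝ) ≤
        C2 * (B : ℝ) ^ (2 * (m : ℝ) - 1 / (12 * m)) := by
    intro B hB
    rw [hncard _ (hfin B)]
    apply hC2 B hB
    intro t ht
    rw [Set.Finite.mem_toFinset] at ht
    obtain ⟨h1, h2⟩ := Pts_spec ht.1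
    refine ⟨h1, h2, fun h => ?_⟩
    obtain ⟨σ, hσ, hσt⟩ := (special_iff (fun i => ⟨(h1 i).1, (h1 i).2.1⟩)).1 h
    exact ht.2 σ hσ hσt
  refine ⟨fun r B => Pts_finite k r B, ⟨(1 / 4 : ℝ) ^ m, by positivity, fun r B hr hB => ?_⟩, ?_,
    fun ε hε => ?_, fun σ hσ => ?_, C2, hexc⟩
  · obtain ⟨T, hT, hc⟩ := special_ge k m hm hmk hB
    refine hc.trans ?_
    rw [hncard _ (Pts_finite k r B)]
    have h : T ⊆ (Pts_finite k r B).toFinset := by
      intro t ht
      rw [Set.Finite.mem_toFinset]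
      exact mem_Pts hr (hT t ht).1 (hT t ht).2
    exact_mod_cast Finset.card_le_card h
  · refine ⟨((2 : ℝ) ^ k * (k * 6 : ℝ) ^ k * 3 ^ m) + |C2|, fun B hB => ?_⟩
    have hB1 : (1 : ℝ) ≤ B := by exact_mod_cast hB
    rw [hncard _ (Pts_finite k (2 * m) B)]
    obtain ⟨T, hT⟩ : ∃ T, T = (Pts_finite k (2 * m) B).toFinset := ⟨_, rfl⟩
    rw [← hT]
    have hTm : ∀ t ∈ T, t ∈ Pts k (2 * m) B := fun t ht => by
      rwa [hT, Set.Finite.mem_toFinset] at ht
    have h1 := special_le k m hB (T.filter (Special m)) (fun t ht => by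
      rw [Finset.mem_filter] at ht
      exact ⟨(Pts_spec (hTm t ht.1)).1, ht.2⟩)
    have h2 : ((T.filter (fun t => ¬ Special m t)).card : ℝ) ≤
        C2 * (B : ℝ) ^ (2 * (m : ℝ) - 1 / (12 * m)) := by
      apply hC2 B hB
      intro t ht
      rw [Finset.mem_filter] at ht
      exact ⟨(Pts_spec (hTm t ht.1)).1, (Pts_spec (hTm t ht.1)).2, ht.2⟩
    have h3 : (B : ℝ) ^ (2 * (m : ℝ) - 1 / (12 * m)) ≤ (B : ℝ) ^ (2 * m) := by
      have h4 : (B : ℝ) ^ (2 * m) = (B : ℝ) ^ (2 * (m : ℝ)) := by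
        rw [← Real.rpow_natCast]
        push_cast
        rfl
      rw [h4]
      apply Real.rpow_le_rpow_of_exponent_le hB1
      have : (0 : ℝ) ≤ 1 / (12 * (m : ℝ)) := by positivity
      linarith
    have h5 : C2 * (B : ℝ) ^ (2 * (m : ℝ) - 1 / (12 * m)) ≤ |C2| * (B : ℝ) ^ (2 * m) :=
      mul_le_mul (le_abs_self C2) h3 (by positivity) (abs_nonneg _)
    have h6 : (T.card : ℝ) = ((T.filter (Special m)).card : ℝ) +
        ((T.filter (fun t => ¬ Special m t)).card : ℝ) := by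
      exact_mod_cast (Finset.card_filter_add_card_filter_not (s := T) (Special m)).symm
    rw [h6, add_mul]
    linarith
  · obtain ⟨C, hC⟩ := upper_A k m hε
    refine ⟨C, fun B hB => ?_⟩
    rw [hncard _ (Pts_finite k (2 * m + 1) B)]
    apply hC B hB
    intro t ht
    rw [Set.Finite.mem_toFinset] at ht
    exact Pts_spec ht
  · obtain ⟨Λ, h1, h2⟩ := rel_SpV σ
    exact ⟨Λ, by omega, h2⟩

end Pool.Agent.E8helper35.RP
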