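import Pool.Agent.E8helper35.RP.Count

/-!
# The counting theorem: upper bounds
-/

set_option autoImplicit false

namespace Pool.Agent.E8helper35.RP

open Finset

variable {k : ℕ}

lemma nn_le {B : ℕ} {a : ℚ} (h : InBox B a) : nn a ≤ 2 * B ^ 3 := by
  unfold nn
  have h1 := h.2.2.1
  have h2 := h.2.2.2
  have h3 : (Y a).natAbs ≤ 2 * B := W_le h 1
  calc a.num.natAbs * (Y a).natAbs * a.den ≤ B * (2 * B) * B :=
        Nat.mul_le_mul (Nat.mul_le_mul h1 h3) h2
    _ = 2 * B ^ 3 := by ring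

lemma NI_le {B : ℕ} (hB : 1 ≤ B) {t : Fin k → ℚ} {I : Finset (Fin k)} (ht : ∀ i ∈ I, InBox B (t i)) :
    NI t I ≤ (2 * B ^ 3) ^ k := by
  unfold NI
  calc ∏ i ∈ I, nn (t i) ≤ ∏ i ∈ I, (2 * B ^ 3) := Finset.prod_le_prod (fun _ _ => Nat.zero_le _)
        fun i hi => nn_le (ht i hi)
    _ = (2 * B ^ 3) ^ I.card := by rw [Finset.prod_const]
    _ ≤ (2 * B ^ 3) ^ k := by
        apply Nat.pow_le_pow_right
        · positivity
        · exact (Finset.card_le_univ I).trans (by rw [Fintype.card_fin])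

lemma NI_congr {t t' : Fin k → ℚ} {I : Finset (Fin k)} (h : ∀ i ∈ I, t i = t' i) :
    NI t I = NI t' I := by
  unfold NI
  exact Finset.prod_congr rfl fun i hi => by rw [h i hi]

/-- the counting lemma -/
theorem count {B : ℕ} (hB : 1 ≤ B) (X : Finset (Fin k) → Finset (Fin k → ℚ))
    (T : Finset (Fin k → ℚ))
    (hT : ∀ t ∈ T, (∀ i, InBox B (t i)) ∧ ∃ I, rs I t ∈ X I ∧ ∀ j, j ∉ I → Adm (NI t I) (t j))
    {c u : ℝ} (hc : ∀ I, ((X I).card : ℝ) ≤ c) (hu : 0 ≤ u)
    (hU : ∀ N : ℕ, N ≠ 0 → N ≤ (2 * B ^ 3) ^ k → (((AA B N).card : ℝ) + 1) ^ k ≤ u) :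
    (T.card : ℝ) ≤ 2 ^ k * (c * u) := by
  classical
  have hsub : T ⊆ (univ : Finset (Finset (Fin k))).biUnion
      (fun I => T.filter (fun t => rs I t ∈ X I ∧ ∀ j, j ∉ I → Adm (NI t I) (t j))) := by
    intro t ht
    obtain ⟨_, I, h1, h2⟩ := hT t ht
    rw [Finset.mem_biUnion]
    exact ⟨I, Finset.mem_univ _, Finset.mem_filter.2 ⟨ht, h1, h2⟩⟩
  have h1 : (T.card : ℝ) ≤ (((univ : Finset (Finset (Fin k))).biUnion
      (fun I => T.filter (fun t => rs I t ∈ X I ∧ ∀ j, j ∉ I → Adm (NI t I) (t j)))).card : ℕ) :=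
    Nat.cast_le.2 (Finset.card_le_card hsub)
  refine h1.trans ((card_bU _ _ (fun _ => c * u) (fun I _ => ?_)).trans ?_)
  · obtain ⟨TI, hTI⟩ : ∃ TI, TI = T.filter (fun t => rs I t ∈ X I ∧
        ∀ j, j ∉ I → Adm (NI t I) (t j)) := ⟨_, rfl⟩
    rw [← hTI]
    have hmaps : ∀ t ∈ TI, rs I t ∈ X I := by
      intro t ht
      rw [hTI, Finset.mem_filter] at ht
      exact ht.2.1
    rw [Finset.card_eq_sum_card_fiberwise hmaps, Nat.cast_sum]
    have hfib : ∀ x ∈ X I, (((TI.filter (fun t => rs I t = x)).card : ℕ) : ℝ) ≤ u := by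
      intro x hx
      rcases Finset.eq_empty_or_nonempty (TI.filter (fun t => rs I t = x)) with he | ⟨t0, ht0⟩
      · rw [he, Finset.card_empty, Nat.cast_zero]
        exact hu
      · rw [Finset.mem_filter] at ht0
        obtain ⟨ht0, hx0⟩ := ht0
        rw [hTI, Finset.mem_filter] at ht0
        have hb0 := (hT t0 ht0.1).1
        obtain ⟨N, hN⟩ : ∃ N, N = NI t0 I := ⟨_, rfl⟩
        have hN0 : N ≠ 0 := by rw [hN]; exact NI_ne (fun i => ⟨(hb0 i).1, (hb0 i).2.1⟩) I
        have hNle : N ≤ (2 * B ^ 3) ^ k := by rw [hN]; exact NI_le hB fun i _ => hb0 i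
        have hle : (TI.filter (fun t => rs I t = x)).card ≤ ((AA B N).card + 1) ^ k := by
          have hsub2 : TI.filter (fun t => rs I t = x) ⊆
              Fintype.piFinset (fun j => if j ∈ I then {t0 j} else AA B N) := by
            intro t ht
            rw [Finset.mem_filter] at ht
            obtain ⟨ht, hxt⟩ := ht
            rw [hTI, Finset.mem_filter] at ht
            have hb := (hT t ht.1).1
            have hag : ∀ i ∈ I, t i = t0 i := by
              intro i hi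
              have h2 := congrFun (hxt.trans hx0.symm) i
              rwa [rs_of_mem hi, rs_of_mem hi] at h2
            rw [Fintype.mem_piFinset]
            intro j
            by_cases hj : j ∈ I
            · rw [if_pos hj, Finset.mem_singleton]
              exact hag j hj
            · rw [if_neg hj, AA, Finset.mem_filter]
              refine ⟨mem_S.2 (hb j), ?_⟩
              rw [hN, ← NI_congr hag]
              exact ht.2.2 j hj
          refine (Finset.card_le_card hsub2).trans ?_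
          rw [Fintype.card_piFinset]
          calc ∏ j, (if j ∈ I then ({t0 j} : Finset ℚ) else AA B N).card
              ≤ ∏ _j : Fin k, ((AA B N).card + 1) :=
                Finset.prod_le_prod (fun _ _ => Nat.zero_le _) fun j _ => by
                  split_ifs
                  · rw [Finset.card_singleton]; omega
                  · omega
            _ = ((AA B N).card + 1) ^ k := by
                rw [Finset.prod_const, Finset.card_univ, Fintype.card_fin]
        calc (((TI.filter (fun t => rs I t = x)).card : ℕ) : ℝ)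
            ≤ ((((AA B N).card + 1) ^ k : ℕ) : ℝ) := by exact_mod_cast hle
          _ = (((AA B N).card : ℝ) + 1) ^ k := by push_cast; ring
          _ ≤ u := hU N hN0 hNle
    refine (Finset.sum_le_sum hfib).trans ?_
    rw [Finset.sum_const, nsmul_eq_mul]
    exact mul_le_mul_of_nonneg_right (hc I) hu
  · rw [Finset.sum_const, nsmul_eq_mul, Finset.card_univ, Fintype.card_finset, Fintype.card_fin]
    push_cast
    exact le_rfl

/-- tuples of rank at most `2 m + 1` -/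
theorem upper_A (k m : ℕ) {η : ℝ} (hη : 0 < η) : ∃ C : ℝ, ∀ B : ℕ, 1 ≤ B →
    ∀ T : Finset (Fin k → ℚ), (∀ t ∈ T, (∀ i, InBox B (t i)) ∧ RankLE (2 * m + 1) t) →
      (T.card : ℝ) ≤ C * (B : ℝ) ^ (2 * m + η) := by
  classical
  obtain ⟨C, hC, hU⟩ := U_bound k hη
  refine ⟨2 ^ k * (3 ^ m * C), fun B hB T hT => ?_⟩
  have hB1 : (1 : ℝ) ≤ B := by exact_mod_cast hB
  have h := count hB (fun I => if I.card ≤ m then PP I (fun _ => S B) else ∅) T (fun t ht => by
    obtain ⟨h1, h2⟩ := hT t ht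
    obtain ⟨I, _, k2, k3, _⟩ := struct (fun i => ⟨(h1 i).1, (h1 i).2.1⟩) h2
    refine ⟨h1, I, ?_, k3⟩
    rw [if_pos (by omega), rs_mem_PP]
    exact fun j _ => mem_S.2 (h1 j)) (c := (3 * (B : ℝ) ^ 2) ^ m) (u := C * (B : ℝ) ^ η)
    (fun I => by
      split_ifs with hI
      · rw [card_PPS]
        have hS : ((S B).card : ℝ) ≤ 3 * (B : ℝ) ^ 2 := by exact_mod_cast card_S hB
        push_cast
        refine (pow_le_pow_left₀ (Nat.cast_nonneg _) hS _).trans ?_
        apply pow_le_pow_right₀ _ hI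
        nlinarith
      · rw [Finset.card_empty, Nat.cast_zero]
        positivity) (by positivity) (fun N hN0 hN => hU B hB N hN0 hN)
  refine h.trans (le_of_eq ?_)
  have e1 : (B : ℝ) ^ (2 * (m : ℝ) + η) = ((B : ℝ) ^ 2) ^ m * (B : ℝ) ^ η := by
    rw [Real.rpow_add (by linarith)]
    congr 1
    rw [← pow_mul, ← Real.rpow_natCast]
    push_cast
    ring_nf
  rw [e1, mul_pow]
  ring

/-- powers of logarithms -/
lemma log_pow (n : ℕ) : ∃ C : ℝ, 0 < C ∧ ∀ B : ℕ, 1 ≤ B →
    (2 * (Nat.log 2 (2 * B) : ℝ) + 1) ^ n ≤ C * (B : ℝ) := by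
  have hn : (0 : ℝ) < (n : ℝ) + 1 := by positivity
  obtain ⟨s, hs⟩ : ∃ s : ℝ, s = 1 / ((n : ℝ) + 1) := ⟨_, rfl⟩
  have hs0 : 0 < s := by rw [hs]; positivity
  have hl2 : 0 < Real.log 2 := Real.log_pos (by norm_num)
  obtain ⟨c, hc⟩ : ∃ c : ℝ, c = 2 * ((2 : ℝ) ^ s / s / Real.log 2) + 1 := ⟨_, rfl⟩
  have hcp : 0 < c := by rw [hc]; positivity
  refine ⟨c ^ n, by positivity, fun B hB => ?_⟩
  have hB1 : (1 : ℝ) ≤ B := by exact_mod_cast hB
  have hB0 : (0 : ℝ) ≤ B := by linarith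
  have h1 : (Nat.log 2 (2 * B) : ℝ) ≤ Real.logb 2 ((2 * B : ℕ) : ℝ) := Real.natLog_le_logb _ _
  have h2 : Real.log ((2 * B : ℕ) : ℝ) ≤ ((2 * B : ℕ) : ℝ) ^ s / s :=
    Real.log_le_rpow_div (Nat.cast_nonneg _) hs0
  have h3 : ((2 * B : ℕ) : ℝ) ^ s = (2 : ℝ) ^ s * (B : ℝ) ^ s := by
    rw [Nat.cast_mul, Nat.cast_ofNat, Real.mul_rpow (by norm_num) hB0]
  have hBs : (1 : ℝ) ≤ (B : ℝ) ^ s := Real.one_le_rpow hB1 hs0.le
  have h4 : 2 * (Nat.log 2 (2 * B) : ℝ) + 1 ≤ c * (B : ℝ) ^ s := by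
    have h5 : Real.logb 2 ((2 * B : ℕ) : ℝ) ≤ ((2 : ℝ) ^ s / s / Real.log 2) * (B : ℝ) ^ s := by
      rw [Real.logb, div_le_iff₀ hl2]
      refine h2.trans (le_of_eq ?_)
      rw [h3]
      field_simp
    rw [hc, add_mul, one_mul]
    nlinarith
  calc (2 * (Nat.log 2 (2 * B) : ℝ) + 1) ^ n ≤ (c * (B : ℝ) ^ s) ^ n :=
        pow_le_pow_left₀ (by positivity) h4 n
    _ = c ^ n * (B : ℝ) ^ (s * n) := by
        rw [mul_pow]
        congr 1
        rw [← Real.rpow_natCast, ← Real.rpow_mul hB0]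
    _ ≤ c ^ n * (B : ℝ) ^ (1 : ℝ) := by
        apply mul_le_mul_of_nonneg_left _ (by positivity)
        apply Real.rpow_le_rpow_of_exponent_le hB1
        rw [hs, one_div, inv_mul_le_iff₀ hn]
        linarith
    _ = c ^ n * (B : ℝ) := by rw [Real.rpow_one]

end Pool.Agent.E8helper35.RP
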