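import Pool.Agent.E8helper35.RP.ZeroQ
import Pool.Agent.E8helper35.RP.Upper

/-!
# The counting theorem: tuples of rank at most `2 m` which are not special
-/

set_option autoImplicit false

namespace Pool.Agent.E8helper35.RP

open Finset

variable {k : ℕ}

/-- powers of logarithms -/
lemma log_pow' (n : ℕ) {η : ℝ} (hη : 0 < η) : ∃ C : ℝ, 0 < C ∧ ∀ B : ℕ, 1 ≤ B →
    (2 * (Nat.log 2 (2 * B) : ℝ) + 1) ^ n ≤ C * (B : ℝ) ^ η := by
  have hn : (0 : ℝ) < (n : ℝ) + 1 := by positivity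
  obtain ⟨s, hs⟩ : ∃ s : ℝ, s = η / ((n : ℝ) + 1) := ⟨_, rfl⟩
  have hs0 : 0 < s := by rw [hs]; positivity
  have hl2 : 0 < Real.log 2 := Real.log_pos (by norm_num)
  obtain ⟨c, hc⟩ : ∃ c : ℝ, c = 2 * ((2 : ℝ) ^ s / s / Real.log 2) + 1 := ⟨_, rfl⟩
  have hcp : 0 < c := by rw [hc]; positivity
  refine ⟨c ^ n, by positivity, fun B hB => ?_⟩
  have hB1 : (1 : ℝ) ≤ B := by exact_mod_cast hB
  have hB0 : (0 : ℝ) ≤ B := by linarith
  have h1 : (Nat.log 2 (2 * B) : ℝ) ≤ Real.logb 2 ((2 * B : ℕ) : ℝ) := Real.natLog_le_logb _ _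
  have h2 : Real.log ((2 * B : ℕ) : ℝ) ≤ ((2 * B : ℕ) : ℝ) ^ s / s :=
    Real.log_le_rpow_div (Nat.cast_nonneg _) hs0
  have h3 : ((2 * B : ℕ) : ℝ) ^ s = (2 : ℝ) ^ s * (B : ℝ) ^ s := by
    rw [Nat.cast_mul, Nat.cast_ofNat, Real.mul_rpow (by norm_num) hB0]
  have hBs : (1 : ℝ) ≤ (B : ℝ) ^ s := Real.one_le_rpow hB1 hs0.le
  have h4 : 2 * (Nat.log 2 (2 * B) : ℝ) + 1 ≤ c * (B : ℝ) ^ s := by
    have h5 : Real.logb 2 ((2 * B : ℕ) : ℝ) ≤ ((2 : ℝ) ^ s / s / Real.log 2) * (B : ℝ) ^ s := by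
      rw [Real.logb, div_le_iff₀ hl2]
      refine h2.trans (le_of_eq ?_)
      rw [h3]
      field_simp
    rw [hc, add_mul, one_mul]
    nlinarith
  calc (2 * (Nat.log 2 (2 * B) : ℝ) + 1) ^ n ≤ (c * (B : ℝ) ^ s) ^ n :=
        pow_le_pow_left₀ (by positivity) h4 n
    _ = c ^ n * (B : ℝ) ^ (s * n) := by
        rw [mul_pow]
        congr 1
        rw [← Real.rpow_natCast, ← Real.rpow_mul hB0]
    _ ≤ c ^ n * (B : ℝ) ^ η := by
        apply mul_le_mul_of_nonneg_left _ (by positivity)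
        apply Real.rpow_le_rpow_of_exponent_le hB1
        rw [hs, div_mul_eq_mul_div, div_le_iff₀ hn]
        nlinarith [Nat.cast_nonneg (α := ℝ) n]

/-- the powers of `2 M + 1` -/
lemma MB_pow (k n : ℕ) {η : ℝ} (hη : 0 < η) : ∃ C : ℝ, 0 < C ∧ ∀ B : ℕ, 1 ≤ B →
    (2 * (MB k (Nat.log 2 (2 * B)) : ℝ) + 1) ^ n ≤ C * (B : ℝ) ^ η := by
  obtain ⟨C, hC, h⟩ := log_pow' (2 * k * n) hη
  obtain ⟨K, hK⟩ : ∃ K : ℝ, K = 2 * ((2 * k).factorial : ℝ) + 1 := ⟨_, rfl⟩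
  have hKp : 0 < K := by rw [hK]; positivity
  refine ⟨K ^ n * C, by positivity, fun B hB => ?_⟩
  obtain ⟨L, hL⟩ : ∃ L : ℝ, L = (Nat.log 2 (2 * B) : ℝ) := ⟨_, rfl⟩
  have hL0 : 0 ≤ L := by rw [hL]; exact Nat.cast_nonneg _
  have h1 : 2 * (MB k (Nat.log 2 (2 * B)) : ℝ) + 1 ≤ K * (2 * L + 1) ^ (2 * k) := by
    rw [MB, hK]
    push_cast
    rw [← hL]
    have h2 : L ^ (2 * k) ≤ (2 * L + 1) ^ (2 * k) := pow_le_pow_left₀ hL0 (by linarith) _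
    have h3 : (1 : ℝ) ≤ (2 * L + 1) ^ (2 * k) := one_le_pow₀ (by linarith)
    have h4 : (0 : ℝ) ≤ 2 * ((2 * k).factorial : ℝ) := by positivity
    calc 2 * (((2 * k).factorial : ℝ) * L ^ (2 * k)) + 1
        = 2 * ((2 * k).factorial : ℝ) * L ^ (2 * k) + 1 := by ring
      _ ≤ 2 * ((2 * k).factorial : ℝ) * (2 * L + 1) ^ (2 * k) + (2 * L + 1) ^ (2 * k) :=
          add_le_add (mul_le_mul_of_nonneg_left h2 h4) h3
      _ = (2 * ((2 * k).factorial : ℝ) + 1) * (2 * L + 1) ^ (2 * k) := by ring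
  calc (2 * (MB k (Nat.log 2 (2 * B)) : ℝ) + 1) ^ n ≤ (K * (2 * L + 1) ^ (2 * k)) ^ n :=
        pow_le_pow_left₀ (by positivity) h1 n
    _ = K ^ n * (2 * L + 1) ^ (2 * k * n) := by rw [mul_pow, ← pow_mul]
    _ ≤ K ^ n * (C * (B : ℝ) ^ η) := by
        apply mul_le_mul_of_nonneg_left _ (by positivity)
        rw [hL]
        exact h B hB
    _ = K ^ n * C * (B : ℝ) ^ η := by ring

/-- tuples of rank at most `2 m` with more than `m` orbits -/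
theorem upper_Q (k m : ℕ) (hm : 1 ≤ m) {η : ℝ} (hη : 0 < η) : ∃ C : ℝ, ∀ B : ℕ, 1 ≤ B →
    ∀ T : Finset (Fin k → ℚ), (∀ t ∈ T, (∀ i, InBox B (t i)) ∧ RankLE (2 * m) t ∧ ¬ Special m t) →
      (T.card : ℝ) ≤ C * (B : ℝ) ^ (2 * (m : ℝ) - 2 + η) := by
  classical
  obtain ⟨C, hC, hU⟩ := U_bound k (half_pos hη)
  obtain ⟨C', hC', hL⟩ := MB_pow k (4 * k + 2) (half_pos hη)
  obtain ⟨m', hm'⟩ : ∃ m', m = m' + 1 := ⟨m - 1, by omega⟩
  obtain ⟨C1, hC1⟩ : ∃ C1 : ℝ, C1 = 3 ^ m' + 72 * m * C' * 3 ^ m' := ⟨_, rfl⟩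
  refine ⟨2 ^ k * (C1 * C), fun B hB T hT => ?_⟩
  have hB1 : (1 : ℝ) ≤ B := by exact_mod_cast hB
  have hB0 : (0 : ℝ) < B := by linarith
  have hS : ((S B).card : ℝ) ≤ 3 * (B : ℝ) ^ 2 := by exact_mod_cast card_S hB
  have h31 : (1 : ℝ) ≤ 3 * (B : ℝ) ^ 2 := by nlinarith
  obtain ⟨P, hP⟩ : ∃ P : ℝ, P = ((B : ℝ) ^ 2) ^ m' := ⟨_, rfl⟩
  have hP0 : 0 < P := by rw [hP]; positivity
  have hBη : (1 : ℝ) ≤ (B : ℝ) ^ (η / 2) := Real.one_le_rpow hB1 (half_pos hη).le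
  obtain ⟨E, hE⟩ : ∃ E : ℝ, E = P * (B : ℝ) ^ (η / 2) := ⟨_, rfl⟩
  have hPE : P ≤ E := by rw [hE]; nlinarith
  have hE0 : 0 < E := lt_of_lt_of_le hP0 hPE
  have hSm : ((S B).card : ℝ) ^ m' ≤ 3 ^ m' * P := by
    calc ((S B).card : ℝ) ^ m' ≤ (3 * (B : ℝ) ^ 2) ^ m' :=
          pow_le_pow_left₀ (Nat.cast_nonneg _) hS m'
      _ = 3 ^ m' * P := by rw [mul_pow, hP]
  have b1 : ∀ I : Finset (Fin k), I.card < m → ((PP I (fun _ => S B)).card : ℝ) ≤ 3 ^ m' * E := by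
    intro I hI
    rw [card_PPS]
    push_cast
    calc ((S B).card : ℝ) ^ I.card ≤ (3 * (B : ℝ) ^ 2) ^ I.card :=
          pow_le_pow_left₀ (Nat.cast_nonneg _) hS _
      _ ≤ (3 * (B : ℝ) ^ 2) ^ m' := pow_le_pow_right₀ h31 (by omega)
      _ = 3 ^ m' * P := by rw [mul_pow, hP]
      _ ≤ 3 ^ m' * E := mul_le_mul_of_nonneg_left hPE (by positivity)
  have b3 : ∀ I : Finset (Fin k), I.card = m →
      ((ZZq I B (MB k (Nat.log 2 (2 * B)))).card : ℝ) ≤ 72 * m * C' * 3 ^ m' * E := by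
    intro I hI
    have h := card_ZZq I B (MB k (Nat.log 2 (2 * B)))
    rw [hI] at h
    have hlog := hL B hB
    obtain ⟨M, hMd⟩ : ∃ M, M = MB k (Nat.log 2 (2 * B)) := ⟨_, rfl⟩
    rw [← hMd] at h hlog ⊢
    have h2 : ((ZZq I B M).card : ℝ) ≤ m * (2 * (2 * ((2 * (M : ℝ) + 1) *
        ((2 * (M : ℝ) + 1) ^ (2 * k) * ((2 * (M : ℝ) + 1) * ((2 * (M : ℝ) + 1) ^ (2 * k) *
          (18 * ((S B).card : ℝ) ^ m'))))))) := by
      have h3 : m - 1 = m' := by omega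
      rw [h3] at h
      exact_mod_cast h
    calc ((ZZq I B M).card : ℝ) ≤ m * (2 * (2 * ((2 * (M : ℝ) + 1) *
        ((2 * (M : ℝ) + 1) ^ (2 * k) * ((2 * (M : ℝ) + 1) * ((2 * (M : ℝ) + 1) ^ (2 * k) *
          (18 * ((S B).card : ℝ) ^ m'))))))) := h2
      _ = 72 * m * (2 * (M : ℝ) + 1) ^ (4 * k + 2) * ((S B).card : ℝ) ^ m' := by
          have : (2 * (M : ℝ) + 1) ^ (4 * k + 2) = (2 * (M : ℝ) + 1) ^ (2 * k) *
              (2 * (M : ℝ) + 1) ^ (2 * k) * (2 * (M : ℝ) + 1) * (2 * (M : ℝ) + 1) := by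
            rw [← pow_add, ← pow_succ, ← pow_succ]
            congr 1
            omega
          rw [this]
          ring
      _ ≤ 72 * m * (C' * (B : ℝ) ^ (η / 2)) * (3 ^ m' * P) :=
          mul_le_mul (mul_le_mul_of_nonneg_left hlog (by positivity)) hSm (by positivity)
            (by positivity)
      _ = 72 * m * C' * 3 ^ m' * E := by rw [hE]; ring
  have h := count hB (fun I => if I.card < m then PP I (fun _ => S B) else
      if I.card = m then ZZq I B (MB k (Nat.log 2 (2 * B))) else ∅) T (fun t ht => by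
    obtain ⟨h1, h2, h3⟩ := hT t ht
    obtain ⟨I, k1, k2, k3, k4⟩ := struct (fun i => ⟨(h1 i).1, (h1 i).2.1⟩) h2
    refine ⟨h1, I, ?_, k3⟩
    by_cases hI : I.card < m
    · rw [if_pos hI, rs_mem_PP]
      exact fun j _ => mem_S.2 (h1 j)
    · have hI' : I.card = m := by omega
      rw [if_neg hI, if_pos hI']
      exact mem_ZZq hB h1 k1 (k4 (by rw [hI'])) (by rw [hI']; exact h3))
    (c := C1 * E) (u := C * (B : ℝ) ^ (η / 2))
    (fun I => by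
      split_ifs with hI hI'
      · refine (b1 I hI).trans ?_
        apply mul_le_mul_of_nonneg_right _ hE0.le
        rw [hC1]
        have : (0 : ℝ) ≤ 72 * m * C' * 3 ^ m' := by positivity
        linarith
      · refine (b3 I hI').trans ?_
        apply mul_le_mul_of_nonneg_right _ hE0.le
        rw [hC1]
        have : (0 : ℝ) ≤ 3 ^ m' := by positivity
        linarith
      · rw [Finset.card_empty, Nat.cast_zero]
        have : 0 ≤ C1 := by rw [hC1]; positivity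
        positivity) (by positivity) (fun N hN0 hN => hU B hB N hN0 hN)
  refine h.trans (le_of_eq ?_)
  have e1 : (B : ℝ) ^ (2 * (m : ℝ) - 2 + η) = P * (B : ℝ) ^ (η / 2) * (B : ℝ) ^ (η / 2) := by
    have e2 : P = (B : ℝ) ^ (2 * (m : ℝ) - 2) := by
      rw [hP, ← pow_mul, ← Real.rpow_natCast]
      congr 1
      rw [hm']
      push_cast
      ring
    rw [e2, ← Real.rpow_add hB0, ← Real.rpow_add hB0]
    congr 1
    ring
  rw [e1, hE]
  ring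

end Pool.Agent.E8helper35.RP
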