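import Pool.Agent.E8helper35.RP.Main
import Pool.Agent.E8helper35.RP.UpperQ

/-!
# Rational points of small rank on the powers of the line `x + y = 1`, with sharp exponents
-/

set_option autoImplicit false

namespace Pool.Agent.E8helper35.RP

open Finset

variable {k : ℕ}

/-- The points of `Pts k (2 * m) B` which lie on no `SpV σ` with `par σ ≤ m`. -/
def Exc (k m B : ℕ) : Set (Fin k → ℚ) :=
  {t ∈ Pts k (2 * m) B | ∀ σ, par σ ≤ m → t ∉ SpV σ}

lemma Exc_finite (k m B : ℕ) : (Exc k m B).Finite :=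
  (Pts_finite k (2 * m) B).subset (Set.sep_subset _ _)

theorem exc_upper (k m : ℕ) (hm : 1 ≤ m) {ε : ℝ} (hε : 0 < ε) : ∃ C : ℝ, ∀ B : ℕ, 1 ≤ B →
    ((Exc k m B).ncard : ℝ) ≤ C * (B : ℝ) ^ (2 * (m : ℝ) - 2 + ε) := by
  classical
  obtain ⟨C, hC⟩ := upper_Q k m hm hε
  refine ⟨C, fun B hB => ?_⟩
  rw [Set.ncard_eq_toFinset_card _ (Exc_finite k m B)]
  apply hC B hB
  intro t ht
  rw [Set.Finite.mem_toFinset] at ht
  obtain ⟨h1, h2⟩ := Pts_spec ht.1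
  refine ⟨h1, h2, fun h => ?_⟩
  obtain ⟨σ, hσ, hσt⟩ := (special_iff (fun i => ⟨(h1 i).1, (h1 i).2.1⟩)).1 h
  exact ht.2 σ hσ hσt

end Pool.Agent.E8helper35.RP
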