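import Mathlib

/-!
# Equations `c₁ |t|^A |1 - t|^B + c₂ |t|^C |1 - t|^D = 1` with real exponents
-/

set_option autoImplicit false

namespace Pool.Agent.E8helper35.RP

open Finset

/-- Rolle's theorem for many zeros -/
lemma rolle {f f' : ℝ → ℝ} {J : Set ℝ} (hJ : J.OrdConnected) (hd : ∀ t ∈ J, HasDerivAt f (f' t) t)
    (T : Finset ℝ) (hTJ : ∀ t ∈ T, t ∈ J) (hT : ∀ t ∈ T, f t = 0) :
    ∃ T' : Finset ℝ, (∀ t ∈ T', t ∈ J ∧ f' t = 0) ∧ T.card ≤ T'.card + 1 := by
  classical
  have key : ∀ T : Finset ℝ, (∀ t ∈ T, t ∈ J) → (∀ t ∈ T, f t = 0) →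
      ∃ T' : Finset ℝ, (∀ t ∈ T', t ∈ J ∧ f' t = 0 ∧ ∃ y ∈ T, t < y) ∧ T.card ≤ T'.card + 1 := by
    intro T
    induction T using Finset.induction_on_max with
    | empty => exact fun _ _ => ⟨∅, by simp, by simp⟩
    | insert a s ha ih =>
      intro h1 h2
      obtain ⟨T', h3, h4⟩ := ih (fun t ht => h1 t (Finset.mem_insert_of_mem ht))
        (fun t ht => h2 t (Finset.mem_insert_of_mem ht))
      have has : a ∉ s := fun h => lt_irrefl _ (ha a h)
      rcases s.eq_empty_or_nonempty with hs | hs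
      · subst hs
        exact ⟨∅, by simp, by simp⟩
      · obtain ⟨b, hb, hbm⟩ := s.exists_max_image id hs
        have hba := ha b hb
        have hbJ := h1 b (Finset.mem_insert_of_mem hb)
        have haJ := h1 a (Finset.mem_insert_self a s)
        have hsub := hJ.out hbJ haJ
        obtain ⟨c, hc, hc0⟩ := exists_hasDerivAt_eq_zero (f := f) (f' := f') hba
          (fun x hx => (hd x (hsub hx)).continuousAt.continuousWithinAt)
          (by rw [h2 b (Finset.mem_insert_of_mem hb), h2 a (Finset.mem_insert_self a s)])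
          (fun x hx => hd x (hsub (Set.Ioo_subset_Icc_self hx)))
        have hcT : c ∉ T' := by
          intro h
          obtain ⟨_, _, y, hy, hlt⟩ := h3 c h
          have h5 : y ≤ b := hbm y hy
          linarith [hc.1]
        refine ⟨insert c T', ?_, ?_⟩
        · intro t ht
          rcases Finset.mem_insert.1 ht with rfl | ht
          · exact ⟨hsub (Set.Ioo_subset_Icc_self hc), hc0, a, Finset.mem_insert_self a s, hc.2⟩
          · obtain ⟨k1, k2, y, hy, hlt⟩ := h3 t ht
            exact ⟨k1, k2, y, Finset.mem_insert_of_mem hy, hlt⟩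
        · rw [Finset.card_insert_of_notMem has, Finset.card_insert_of_notMem hcT]
          omega
  obtain ⟨T', h1, h2⟩ := key T hTJ hT
  exact ⟨T', fun t ht => ⟨(h1 t ht).1, (h1 t ht).2.1⟩, h2⟩

lemma const_of {f f' : ℝ → ℝ} {J : Set ℝ} (hJ : J.OrdConnected)
    (hd : ∀ t ∈ J, HasDerivAt f (f' t) t) (h0 : ∀ t ∈ J, f' t = 0) {x y : ℝ} (hx : x ∈ J)
    (hy : y ∈ J) : f x = f y := by
  have key : ∀ x ∈ J, ∀ y ∈ J, x < y → f x = f y := by
    intro x hx y hy hxy
    have hsub := hJ.out hx hy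
    obtain ⟨c, hc, hc0⟩ := exists_hasDerivAt_eq_slope f f' hxy
      (fun x hx => (hd x (hsub hx)).continuousAt.continuousWithinAt)
      (fun x hx => hd x (hsub (Set.Ioo_subset_Icc_self hx)))
    rw [h0 c (hsub (Set.Ioo_subset_Icc_self hc)), eq_comm, div_eq_zero_iff] at hc0
    rcases hc0 with h | h
    · linarith
    · linarith
  rcases lt_trichotomy x y with h | h | h
  · exact key x hx y hy h
  · rw [h]
  · exact (key y hy x hx h).symm

lemma cubic_zero {a b c d : ℝ} (T : Finset ℝ) (hc : 4 ≤ T.card)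
    (hT : ∀ t ∈ T, a * t ^ 3 + b * t ^ 2 + c * t + d = 0) : a = 0 ∧ b = 0 ∧ c = 0 ∧ d = 0 := by
  obtain ⟨p, hp⟩ : ∃ p : Polynomial ℝ, p = Polynomial.C a * Polynomial.X ^ 3 +
    Polynomial.C b * Polynomial.X ^ 2 + Polynomial.C c * Polynomial.X + Polynomial.C d := ⟨_, rfl⟩
  have h0 : p = 0 := by
    by_contra hne
    have h1 : T.val ⊆ p.roots := by
      intro t ht
      rw [Polynomial.mem_roots hne, Polynomial.IsRoot, hp]
      simp only [Polynomial.eval_add, Polynomial.eval_mul, Polynomial.eval_C, Polynomial.eval_pow,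
        Polynomial.eval_X]
      exact hT t ht
    have h2 := Polynomial.card_le_degree_of_subset_roots h1
    have h3 : p.natDegree ≤ 3 := by rw [hp]; exact Polynomial.natDegree_cubic_le
    omega
  have hco : ∀ n, p.coeff n = 0 := fun n => by rw [h0, Polynomial.coeff_zero]
  have e0 := hco 0
  have e1 := hco 1
  have e2 := hco 2
  have e3 := hco 3
  rw [hp] at e0 e1 e2 e3
  simp [Polynomial.coeff_X, Polynomial.coeff_C, Polynomial.coeff_X_pow] at e0 e1 e2 e3
  exact ⟨e3, e2, e1, e0⟩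

/-- `|t| ^ A |1 - t| ^ B` -/
noncomputable def EE (A B t : ℝ) : ℝ := Real.exp (A * Real.log t + B * Real.log (1 - t))

lemma EE_pos (A B t : ℝ) : 0 < EE A B t := Real.exp_pos _

lemma EE_mul (A B C D t : ℝ) : EE A B t * EE C D t = EE (A + C) (B + D) t := by
  unfold EE
  rw [← Real.exp_add]
  congr 1
  ring

lemma EE_deriv (A B : ℝ) {t : ℝ} (h0 : t ≠ 0) (h1 : t ≠ 1) :
    HasDerivAt (EE A B) (EE A B t * (A / t - B / (1 - t))) t := by
  have h1' : (1 : ℝ) - t ≠ 0 := sub_ne_zero.2 h1.symm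
  have d1 : HasDerivAt (fun t => A * Real.log t) (A * t⁻¹) t := (Real.hasDerivAt_log h0).const_mul A
  have d2 : HasDerivAt (fun t : ℝ => Real.log (1 - t)) (-1 / (1 - t)) t := by
    have := ((hasDerivAt_id t).const_sub 1).log h1'
    simpa using this
  have d3 := (d1.add (d2.const_mul B)).exp
  refine d3.congr_deriv ?_
  unfold EE
  simp only [Pi.add_apply]
  field_simp
  ring

/-- the zeros of the function -/
theorem many_zeros {J : Set ℝ} (hJ : J.OrdConnected) (h0 : (0 : ℝ) ∉ J) (h1 : (1 : ℝ) ∉ J)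
    {c₁ c₂ A B C D : ℝ} (T : Finset ℝ) (hTJ : ∀ t ∈ T, t ∈ J)
    (hT : ∀ t ∈ T, c₁ * EE A B t + c₂ * EE C D t - 1 = 0) (hcard : 7 ≤ T.card) :
    (∀ t ∈ J, c₁ * EE A B t + c₂ * EE C D t - 1 = 0) ∧
    (∀ t ∈ J, c₁ * EE A B t * (A * (1 - t) - B * t) + c₂ * EE C D t * (C * (1 - t) - D * t) = 0) ∧
    (c₂ ≠ 0 → (A - C) * A * C = 0 ∧ (A + B - C - D) * (A + B) * (C + D) = 0 ∧
      -(A - C) * (A * (C + D) + (A + B) * C) - (A + B - C - D) * A * C + (A * D - B * C) = 0 ∧
      (A - C) * (A + B) * (C + D) + (A + B - C - D) * (A * (C + D) + (A + B) * C) -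
        (A * D - B * C) = 0) := by
  classical
  have hn0 : ∀ t ∈ J, t ≠ 0 := fun t ht h => h0 (h ▸ ht)
  have hn1 : ∀ t ∈ J, t ≠ 1 := fun t ht h => h1 (h ▸ ht)
  have hn1' : ∀ t ∈ J, (1 : ℝ) - t ≠ 0 := fun t ht => sub_ne_zero.2 (hn1 t ht).symm
  -- the first derivative
  obtain ⟨T1, k1, k1c⟩ := rolle (f := fun t => c₁ * EE A B t + c₂ * EE C D t - 1)
    (f' := fun t => c₁ * (EE A B t * (A / t - B / (1 - t))) + c₂ * (EE C D t * (C / t - D / (1 - t))))
    hJ (fun t ht => (((EE_deriv A B (hn0 t ht) (hn1 t ht)).const_mul c₁).add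
      ((EE_deriv C D (hn0 t ht) (hn1 t ht)).const_mul c₂)).sub_const 1) T hTJ hT
  -- the function `H`
  obtain ⟨a, ha⟩ : ∃ a, a = A - C := ⟨_, rfl⟩
  obtain ⟨b, hb⟩ : ∃ b, b = B - D := ⟨_, rfl⟩
  have hHF : ∀ t ∈ J, (c₁ * (EE a b t * (A - (A + B) * t)) + c₂ * (C - (C + D) * t)) * EE C D t =
      c₁ * EE A B t * (A * (1 - t) - B * t) + c₂ * EE C D t * (C * (1 - t) - D * t) := by
    intro t _
    have h2 : EE a b t * EE C D t = EE A B t := by
      rw [EE_mul, ha, hb]
      congr 1 <;> ring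
    linear_combination c₁ * (A - (A + B) * t) * h2
  have hFF : ∀ t ∈ J, (c₁ * (EE A B t * (A / t - B / (1 - t))) +
      c₂ * (EE C D t * (C / t - D / (1 - t)))) * (t * (1 - t)) =
      c₁ * EE A B t * (A * (1 - t) - B * t) + c₂ * EE C D t * (C * (1 - t) - D * t) := by
    intro t ht
    have := hn0 t ht
    have := hn1' t ht
    field_simp
  have hH1 : ∀ t ∈ T1, c₁ * (EE a b t * (A - (A + B) * t)) + c₂ * (C - (C + D) * t) = 0 := by
    intro t ht
    obtain ⟨h2, h3⟩ := k1 t ht
    have h4 := hFF t h2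
    rw [h3, zero_mul, ← hHF t h2] at h4
    rcases mul_eq_zero.1 h4.symm with h | h
    · exact h
    · exact absurd h (EE_pos C D t).ne'
  -- its derivatives
  have dH : ∀ t ∈ J, HasDerivAt (fun t => c₁ * (EE a b t * (A - (A + B) * t)) +
      c₂ * (C - (C + D) * t)) (c₁ * (EE a b t * ((a / t - b / (1 - t)) * (A - (A + B) * t) -
        (A + B))) - c₂ * (C + D)) t := by
    intro t ht
    have e1 := EE_deriv a b (hn0 t ht) (hn1 t ht)
    have e2 : HasDerivAt (fun t : ℝ => A - (A + B) * t) (-(A + B)) t := by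
      have := ((hasDerivAt_id t).const_mul (A + B)).const_sub A
      simpa using this
    have e3 : HasDerivAt (fun t : ℝ => C - (C + D) * t) (-(C + D)) t := by
      have := ((hasDerivAt_id t).const_mul (C + D)).const_sub C
      simpa using this
    refine (((e1.mul e2).const_mul c₁).add (e3.const_mul c₂)).congr_deriv ?_
    ring
  have dH2 : ∀ t ∈ J, HasDerivAt (fun t => c₁ * (EE a b t * ((a / t - b / (1 - t)) *
      (A - (A + B) * t) - (A + B))) - c₂ * (C + D))
      (c₁ * EE a b t * (((A + B) * (-(a + b) - (a + b) ^ 2)) * t ^ 3 +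
        (2 * (A + B) * (a + b) - A * (a + b) + A * (a + b) ^ 2 + 2 * (A + B) * a * (a + b)) * t ^ 2 +
        (- (A + B) * a + 2 * A * a - 2 * A * a * (a + b) - (A + B) * a ^ 2) * t +
        (A * a ^ 2 - A * a)) / (t * (1 - t)) ^ 2) t := by
    intro t ht
    have g0 := hn0 t ht
    have g1 := hn1' t ht
    have e1 := EE_deriv a b (hn0 t ht) (hn1 t ht)
    have e2 : HasDerivAt (fun t : ℝ => A - (A + B) * t) (-(A + B)) t := by
      have := ((hasDerivAt_id t).const_mul (A + B)).const_sub A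
      simpa using this
    have e4 : HasDerivAt (fun t : ℝ => a / t - b / (1 - t)) (-a / t ^ 2 - b / (1 - t) ^ 2) t := by
      have f1 : HasDerivAt (fun t : ℝ => a / t) (-a / t ^ 2) t := by
        have := (hasDerivAt_const t a).div (hasDerivAt_id t) g0
        exact this.congr_deriv (by simp)
      have f2 : HasDerivAt (fun t : ℝ => b / (1 - t)) (b / (1 - t) ^ 2) t := by
        have := (hasDerivAt_const t b).div ((hasDerivAt_id t).const_sub 1) g1
        exact this.congr_deriv (by simp)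
      exact f1.sub f2
    refine (((e1.mul ((e4.mul e2).sub_const (A + B))).const_mul c₁).sub_const
      (c₂ * (C + D))).congr_deriv ?_
    simp only [Pi.mul_apply]
    field_simp
    ring
  obtain ⟨T2, k2, k2c⟩ := rolle hJ dH T1 (fun t ht => (k1 t ht).1) hH1
  obtain ⟨T3, k3, k3c⟩ := rolle hJ dH2 T2 (fun t ht => (k2 t ht).1) (fun t ht => (k2 t ht).2)
  -- nonempty sets
  have hne : T1.Nonempty := Finset.card_pos.1 (by omega)
  have hne2 : T2.Nonempty := Finset.card_pos.1 (by omega)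
  have hne0 : T.Nonempty := Finset.card_pos.1 (by omega)
  obtain ⟨t0, ht0⟩ := hne0
  obtain ⟨t1, ht1⟩ := hne
  obtain ⟨t2, ht2⟩ := hne2
  have hc1 : c₁ = 0 ∨ c₁ ≠ 0 := em _
  have hH2 : ∀ t ∈ J, c₁ * EE a b t * (((A + B) * (-(a + b) - (a + b) ^ 2)) * t ^ 3 +
        (2 * (A + B) * (a + b) - A * (a + b) + A * (a + b) ^ 2 + 2 * (A + B) * a * (a + b)) * t ^ 2 +
        (- (A + B) * a + 2 * A * a - 2 * A * a * (a + b) - (A + B) * a ^ 2) * t +
        (A * a ^ 2 - A * a)) / (t * (1 - t)) ^ 2 = 0 := by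
    rcases hc1 with hc1 | hc1
    · intro t _
      rw [hc1, zero_mul, zero_mul, zero_div]
    · obtain ⟨r3, r2, r1, r0⟩ := cubic_zero T3 (by omega) (fun t ht => by
        obtain ⟨g1, g2⟩ := k3 t ht
        rw [div_eq_zero_iff] at g2
        rcases g2 with g2 | g2
        · rcases mul_eq_zero.1 g2 with g2 | g2
          · exact absurd g2 (mul_ne_zero hc1 (EE_pos a b t).ne')
          · exact g2
        · exact absurd g2 (pow_ne_zero 2 (mul_ne_zero (hn0 t g1) (hn1' t g1))))
      intro t _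
      rw [r3, r2, r1, r0]
      simp
  have hH1' : ∀ t ∈ J, (c₁ * (EE a b t * ((a / t - b / (1 - t)) * (A - (A + B) * t) -
        (A + B))) - c₂ * (C + D)) = 0 := by
    intro t ht
    have h2 := const_of hJ dH2 hH2 ht (k2 t2 ht2).1
    rw [h2]
    exact (k2 t2 ht2).2
  have hH0 : ∀ t ∈ J, c₁ * (EE a b t * (A - (A + B) * t)) + c₂ * (C - (C + D) * t) = 0 := by
    intro t ht
    have h2 := const_of hJ dH hH1' ht (k1 t1 ht1).1
    rw [h2]
    exact hH1 t1 ht1
  have hP : ∀ t ∈ J, c₁ * EE A B t * (A * (1 - t) - B * t) +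
      c₂ * EE C D t * (C * (1 - t) - D * t) = 0 := by
    intro t ht
    rw [← hHF t ht, hH0 t ht, zero_mul]
  refine ⟨fun t ht => ?_, hP, fun hc2 => ?_⟩
  · have hF' : ∀ t ∈ J, c₁ * (EE A B t * (A / t - B / (1 - t))) +
      c₂ * (EE C D t * (C / t - D / (1 - t))) = 0 := by
      intro t ht
      have h2 := hFF t ht
      rw [hP t ht] at h2
      rcases mul_eq_zero.1 h2 with h | h
      · exact h
      · exact absurd h (mul_ne_zero (hn0 t ht) (hn1' t ht))
    have h2 := const_of (f := fun t => c₁ * EE A B t + c₂ * EE C D t - 1)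
      (f' := fun t => c₁ * (EE A B t * (A / t - B / (1 - t))) +
        c₂ * (EE C D t * (C / t - D / (1 - t))))
      hJ (fun t ht => (((EE_deriv A B (hn0 t ht) (hn1 t ht)).const_mul c₁).add
        ((EE_deriv C D (hn0 t ht) (hn1 t ht)).const_mul c₂)).sub_const 1) hF' ht (hTJ t0 ht0)
    rw [h2]
    exact hT t0 ht0
  · have hR : ∀ t ∈ J, (-((A + B - C - D) * (A + B) * (C + D))) * t ^ 3 +
        ((A - C) * (A + B) * (C + D) + (A + B - C - D) * (A * (C + D) + (A + B) * C) -
        (A * D - B * C)) * t ^ 2 + (-(A - C) * (A * (C + D) + (A + B) * C) -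
        (A + B - C - D) * A * C + (A * D - B * C)) * t + (A - C) * A * C = 0 := by
      intro t ht
      have g0 := hn0 t ht
      have g1 := hn1' t ht
      have e1 := hH0 t ht
      have e2 := hH1' t ht
      have e3 : c₂ * ((A - (A + B) * t) * (-(C + D)) - (C - (C + D) * t) *
          ((a / t - b / (1 - t)) * (A - (A + B) * t) - (A + B))) = 0 := by
        linear_combination (A - (A + B) * t) * e2 -
          ((a / t - b / (1 - t)) * (A - (A + B) * t) - (A + B)) * e1
      have e4 := (mul_eq_zero.1 e3).resolve_left hc2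
      have e5 : ((A - (A + B) * t) * (-(C + D)) - (C - (C + D) * t) *
          ((a / t - b / (1 - t)) * (A - (A + B) * t) - (A + B))) * (t * (1 - t)) =
          (A - (A + B) * t) * (-(C + D)) * (t * (1 - t)) - (C - (C + D) * t) *
          ((a * (1 - t) - b * t) * (A - (A + B) * t) - (A + B) * (t * (1 - t))) := by
        field_simp
      rw [e4, zero_mul, ha, hb] at e5
      linear_combination e5
    obtain ⟨r3, r2, r1, r0⟩ := cubic_zero T1 (by omega) (fun t ht => hR t (k1 t ht).1)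
    exact ⟨r0, neg_eq_zero.1 r3, r1, r2⟩

end Pool.Agent.E8helper35.RP
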