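import Pool.Agent.E8helper35.RP.MainQ

/-!
# Many exceptional points
-/

set_option autoImplicit false

namespace Pool.Agent.E8helper35.RP

open Finset

variable {k : ℕ}

/-- a lattice of relations of one point -/
theorem rel_general {t : Fin k → ℚ} (ht : ∀ i, t i ≠ 0 ∧ t i ≠ 1) {I : Finset (Fin k)}
    (v : Fin k × Bool → (Fin k ⊕ Fin k → ℤ)) (hv : ∀ x, x ∉ gens I → mon t (v x) = 1)
    (hdiag : ∀ x, x ∉ gens I → v x (io x) ≠ 0)
    (hoff : ∀ x y, x ∉ gens I → y ∉ gens I → y ≠ x → v y (io x) = 0) :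
    ∃ Λ : Submodule ℤ (Fin k ⊕ Fin k → ℤ), 2 * k ≤ 2 * I.card + Module.finrank ℤ Λ ∧
      ∀ a ∈ Λ, mon t a = 1 := by
  classical
  obtain ⟨Λ, hΛ⟩ : ∃ Λ : Submodule ℤ (Fin k ⊕ Fin k → ℤ), ∀ a, a ∈ Λ ↔ mon t a = 1 :=
    ⟨{ carrier := {a | mon t a = 1}
       add_mem' := fun {a b} ha hb => by
        change mon t (a + b) = 1
        rw [mon_add ht]
        rw [Set.mem_ofPred_eq] at ha hb
        rw [ha, hb, one_mul]
       zero_mem' := mon_zero t
       smul_mem' := fun c a ha => by
        change mon t (c • a) = 1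
        rw [Set.mem_ofPred_eq] at ha
        rw [mon_smul, ha, one_zpow] }, fun a => Iff.rfl⟩
  refine ⟨Λ, ?_, fun a ha => (hΛ a).1 ha⟩
  have hli : LinearIndependent ℤ (fun x : {x // x ∈ (gens I)ᶜ} =>
      (⟨v x.1, (hΛ _).2 (hv x.1 (Finset.mem_compl.1 x.2))⟩ : Λ)) := by
    rw [Fintype.linearIndependent_iff]
    intro g hg x0
    have h1 : ∑ x : {x // x ∈ (gens I)ᶜ}, g x * v x.1 (io x0.1) = 0 := by
      have h2 := congrArg (fun a : Λ => a.1 (io x0.1)) hg
      simp only [Submodule.coe_sum, Submodule.coe_smul, Finset.sum_apply, Pi.smul_apply,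
        smul_eq_mul] at h2
      exact h2
    have hx0 := Finset.mem_compl.1 x0.2
    rw [Finset.sum_eq_single_of_mem x0 (Finset.mem_univ _)] at h1
    · exact (mul_eq_zero.1 h1).resolve_right (hdiag _ hx0)
    · intro x _ hx
      rw [hoff x0.1 x.1 hx0 (Finset.mem_compl.1 x.2) (fun h => hx (Subtype.ext h)), mul_zero]
  have h1 := hli.fintype_card_le_finrank
  rw [Fintype.card_coe, Finset.card_compl, Fintype.card_prod, Fintype.card_fin, Fintype.card_bool,
    card_gens] at h1
  omega

/-- the numbers of the box between `0` and `1 / 2` -/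
noncomputable def QB (B : ℕ) : Finset ℚ := (S B).filter (fun a => 0 < a ∧ a < 1 / 2)

lemma card_QB {b B : ℕ} (hb : 1 ≤ b) (hbB : 3 * b ≤ B) : (b : ℝ) ^ 2 / 4 ≤ ((QB B).card : ℝ) := by
  classical
  refine (card_cop b hb).trans ?_
  have h : (((Finset.Icc 1 b) ×ˢ (Finset.Icc 1 b)).filter
      (fun x : ℕ × ℕ => Nat.Coprime x.1 x.2)).card ≤ (QB B).card := by
    have hnd : ∀ x : ℕ × ℕ, 1 ≤ x.2 → Nat.Coprime x.1 x.2 →
        ((x.1 : ℚ) / (2 * x.1 + x.2 : ℕ)).num = (x.1 : ℤ) ∧
          ((x.1 : ℚ) / (2 * x.1 + x.2 : ℕ)).den = 2 * x.1 + x.2 := by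
      intro x h1 h2
      have hco : Nat.Coprime x.1 (2 * x.1 + x.2) := by
        rw [add_comm, Nat.Coprime, Nat.gcd_add_mul_right_right]
        exact h2
      have h3 := Rat.num_div_eq_of_coprime (a := (x.1 : ℤ)) (b := ((2 * x.1 + x.2 : ℕ) : ℤ))
        (by omega) (by rw [Int.natAbs_natCast, Int.natAbs_natCast]; exact hco)
      have h4 := Rat.den_div_eq_of_coprime (a := (x.1 : ℤ)) (b := ((2 * x.1 + x.2 : ℕ) : ℤ))
        (by omega) (by rw [Int.natAbs_natCast, Int.natAbs_natCast]; exact hco)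
      rw [Int.cast_natCast, Int.cast_natCast] at h3 h4
      exact ⟨h3, by exact_mod_cast h4⟩
    apply Finset.card_le_card_of_injOn (fun x : ℕ × ℕ => (x.1 : ℚ) / (2 * x.1 + x.2 : ℕ))
    · intro x hx
      rw [Finset.mem_coe, Finset.mem_filter, Finset.mem_product, Finset.mem_Icc,
        Finset.mem_Icc] at hx
      obtain ⟨⟨⟨h1, h2⟩, h3, h4⟩, h5⟩ := hx
      rw [Finset.mem_coe, QB, Finset.mem_filter, mem_S]
      obtain ⟨h6, h7⟩ := hnd x h3 h5
      have h8 : (0 : ℚ) < x.1 := by exact_mod_cast h1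
      have h9 : (0 : ℚ) < x.2 := by exact_mod_cast h3
      have h10 : (0 : ℚ) < ((2 * x.1 + x.2 : ℕ) : ℚ) := by push_cast; positivity
      have hp : (0 : ℚ) < (x.1 : ℚ) / (2 * x.1 + x.2 : ℕ) := div_pos h8 h10
      have hl : (x.1 : ℚ) / (2 * x.1 + x.2 : ℕ) < 1 / 2 := by
        rw [div_lt_div_iff₀ h10 (by norm_num)]
        push_cast
        linarith
      simp only at hp hl ⊢
      refine ⟨⟨hp.ne', by intro h; rw [h] at hl; norm_num at hl, ?_, ?_⟩, hp, hl⟩
      · rw [h6]; omega
      · rw [h7]; omega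
    · intro x hx y hy hxy
      rw [Finset.mem_coe, Finset.mem_filter, Finset.mem_product, Finset.mem_Icc,
        Finset.mem_Icc] at hx hy
      obtain ⟨h6, h7⟩ := hnd x hx.1.2.1 hx.2
      obtain ⟨h6', h7'⟩ := hnd y hy.1.2.1 hy.2
      simp only at hxy
      rw [hxy] at h6 h7
      rw [h6] at h6'
      rw [h7] at h7'
      exact Prod.ext (by omega) (by omega)
  exact_mod_cast h

lemma special_half {m : ℕ} {t : Fin k → ℚ} (ht : ∀ i, 0 < t i ∧ t i < 1 / 2) (h : Special m t) :
    (Finset.univ.image t).card ≤ m := by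
  classical
  obtain ⟨I, hI, hO⟩ := h
  refine le_trans (Finset.card_le_card (t := I.image t) ?_) (Finset.card_image_le.trans hI)
  intro q hq
  obtain ⟨j, _, rfl⟩ := Finset.mem_image.1 hq
  obtain ⟨i, hi, h⟩ := hO j
  have hi1 := ht i
  have hj1 := ht j
  rw [Finset.mem_image]
  refine ⟨i, hi, ?_⟩
  rcases h with h | h | h | h | h | h
  · exact h.symm
  · exfalso; linarith [hi1.2, hj1.2]
  · exfalso
    have : (1 : ℚ) < 1 / t i := by rw [lt_div_iff₀ hi1.1]; linarith [hi1.2]
    linarith [hj1.2]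
  · exfalso
    have : (1 : ℚ) < 1 / (1 - t i) := by
      rw [lt_div_iff₀ (by linarith [hi1.2])]; linarith [hi1.1]
    linarith [hj1.2]
  · exfalso
    have : t i / (t i - 1) < 0 := div_neg_of_pos_of_neg hi1.1 (by linarith [hi1.2])
    linarith [hj1.1]
  · exfalso
    have : (t i - 1) / t i < 0 := div_neg_of_neg_of_pos (by linarith [hi1.2]) hi1.1
    linarith [hj1.1]

/-- the exceptional tuples -/
noncomputable def ext (k m : ℕ) (s : Fin m → ℚ) : Fin k → ℚ :=
  fun j => if h : j.val < m then s ⟨j.val, h⟩ else if j.val = m then 1 / 3 else 1 / 4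

theorem exc_lower (k m : ℕ) (hm : 1 ≤ m) (hmk : m < k) : ∃ c : ℝ, 0 < c ∧ ∃ B₀ : ℕ,
    ∀ B : ℕ, B₀ ≤ B → c * (B : ℝ) ^ (2 * m - 2) ≤ (Exc k m B).ncard := by
  classical
  obtain ⟨m', rfl⟩ : ∃ m', m = m' + 1 := ⟨m - 1, by omega⟩
  refine ⟨(1 / 288) ^ m', by positivity, 288 * (m' + 1), fun B hB => ?_⟩
  -- the numbers
  obtain ⟨Q, hQ⟩ : ∃ Q : Finset ℚ, Q = ((QB B).erase (1 / 3)).erase (1 / 4) := ⟨_, rfl⟩
  have hQm : ∀ a ∈ Q, InBox B a ∧ (0 < a ∧ a < 1 / 2) ∧ a ≠ 1 / 3 ∧ a ≠ 1 / 4 := by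
    intro a ha
    rw [hQ, Finset.mem_erase, Finset.mem_erase, QB, Finset.mem_filter, mem_S] at ha
    exact ⟨ha.2.2.1, ha.2.2.2, ha.2.1, ha.1⟩
  have hn3 : (1 / 3 : ℚ).num = 1 ∧ (1 / 3 : ℚ).den = 3 := by norm_num
  have hn4 : (1 / 4 : ℚ).num = 1 ∧ (1 / 4 : ℚ).den = 4 := by norm_num
  have hb3 : InBox B (1 / 3 : ℚ) := ⟨by norm_num, by norm_num, by rw [hn3.1]; simp; omega,
    by rw [hn3.2]; omega⟩
  have hb4 : InBox B (1 / 4 : ℚ) := ⟨by norm_num, by norm_num, by rw [hn4.1]; simp; omega,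
    by rw [hn4.2]; omega⟩
  -- the image
  obtain ⟨T, hT⟩ : ∃ T : Finset (Fin k → ℚ), T = (Finset.univ : Finset (Fin m' ↪ Q)).image
      (fun s => ext k m' (fun i => (s i : ℚ))) := ⟨_, rfl⟩
  have hinj : Function.Injective (fun s : Fin m' ↪ Q => ext k m' (fun i => (s i : ℚ))) := by
    intro s s' h
    ext i
    have h1 := congrFun h ⟨i.val, by omega⟩
    simp only [ext, Fin.eta] at h1
    rw [dif_pos i.isLt, dif_pos i.isLt] at h1
    exact h1
  have hTc : T.card = Q.card.descFactorial m' := by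
    rw [hT, Finset.card_image_of_injective _ hinj, Finset.card_univ, Fintype.card_embedding_eq,
      Fintype.card_coe, Fintype.card_fin]
  -- the members
  have hmem : ∀ t ∈ T, t ∈ Exc k (m' + 1) B := by
    intro t ht
    rw [hT, Finset.mem_image] at ht
    obtain ⟨s, _, rfl⟩ := ht
    have hbox : ∀ j, InBox B (ext k m' (fun i => (s i : ℚ)) j) := by
      intro j
      unfold ext
      split_ifs
      · exact (hQm _ (s _).2).1
      · exact hb3
      · exact hb4
    have hhalf : ∀ j, 0 < ext k m' (fun i => (s i : ℚ)) j ∧ ext k m' (fun i => (s i : ℚ)) j < 1 / 2 := by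
      intro j
      unfold ext
      split_ifs
      · exact (hQm _ (s _).2).2.1
      · norm_num
      · norm_num
    have hne : ∀ i, ext k m' (fun i => (s i : ℚ)) i ≠ 0 ∧ ext k m' (fun i => (s i : ℚ)) i ≠ 1 :=
      fun i => ⟨(hbox i).1, (hbox i).2.1⟩
    -- not special
    have hns : ¬ Special (m' + 1) (ext k m' (fun i => (s i : ℚ))) := by
      intro h
      have h1 := special_half hhalf h
      have h2 : Function.Injective (fun j : Fin (m' + 2) =>
          ext k m' (fun i => (s i : ℚ)) ⟨j.val, by omega⟩) := by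
        intro a b hab
        simp only [ext] at hab
        apply Fin.ext
        split_ifs at hab with g1 g2 g3 g4 g5 g6
        · have := s.injective (Subtype.ext hab)
          simpa using this
        · exact absurd hab (hQm _ (s _).2).2.2.1
        · exact absurd hab (hQm _ (s _).2).2.2.2
        · exact absurd hab.symm (hQm _ (s _).2).2.2.1
        · omega
        · norm_num at hab
        · exact absurd hab.symm (hQm _ (s _).2).2.2.2
        · norm_num at hab
        · omega
      have h3 : m' + 2 ≤ (Finset.univ.image (ext k m' (fun i => (s i : ℚ)))).card := by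
        calc m' + 2 = (Finset.univ.image (fun j : Fin (m' + 2) =>
              ext k m' (fun i => (s i : ℚ)) ⟨j.val, by omega⟩)).card := by
              rw [Finset.card_image_of_injective _ h2, Finset.card_univ, Fintype.card_fin]
          _ ≤ _ := by
              apply Finset.card_le_card
              intro q hq
              obtain ⟨j, _, rfl⟩ := Finset.mem_image.1 hq
              exact Finset.mem_image_of_mem _ (Finset.mem_univ _)
      omega
    -- the relations
    obtain ⟨I, hI⟩ : ∃ I : Finset (Fin k), I = Finset.univ.filter (fun i => i.val < m' + 1) :=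
      ⟨_, rfl⟩
    have hIc : I.card ≤ m' + 1 := by
      have h1 : I ⊆ Finset.univ.image (fun i : Fin (m' + 1) => (⟨i.val, by omega⟩ : Fin k)) := by
        intro i hi
        rw [hI, Finset.mem_filter] at hi
        rw [Finset.mem_image]
        exact ⟨⟨i.val, hi.2⟩, Finset.mem_univ _, rfl⟩
      refine (Finset.card_le_card h1).trans (Finset.card_image_le.trans ?_)
      rw [Finset.card_univ, Fintype.card_fin]
    have hout : ∀ x : Fin k × Bool, x ∉ gens I → m' < x.1.val := by
      intro x hx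
      rw [mem_gens, hI, Finset.mem_filter] at hx
      push Not at hx
      have := hx (Finset.mem_univ _)
      omega
    obtain ⟨e1, he1⟩ : ∃ e1 : Fin k, e1 = ⟨m', by omega⟩ := ⟨_, rfl⟩
    have hte1 : ext k m' (fun i => (s i : ℚ)) e1 = 1 / 3 := by
      rw [he1]
      unfold ext
      rw [dif_neg (by simp), if_pos rfl]
    obtain ⟨Λ, hΛ1, hΛ2⟩ := rel_general hne (I := I)
      (fun x => Pi.single (io x) 1 + (Pi.single (io (e1, false)) (if x.2 then -1 else -2) +
        Pi.single (io (e1, true)) 2))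
      (fun x hx => by
        have hx1 := hout x hx
        rw [mon_add hne, mon_add hne, mon_single, mon_single, mon_single]
        have g1 : crd (ext k m' (fun i => (s i : ℚ))) (e1, false) = 1 / 3 := hte1
        have g2 : crd (ext k m' (fun i => (s i : ℚ))) (e1, true) = 2 / 3 := by
          change 1 - ext k m' (fun i => (s i : ℚ)) e1 = _
          rw [hte1]
          norm_num
        have g3 : ext k m' (fun i => (s i : ℚ)) x.1 = 1 / 4 := by
          unfold ext
          rw [dif_neg (by omega), if_neg (by omega)]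
        rw [g1, g2]
        unfold crd
        rw [g3]
        split_ifs
        · norm_num [zpow_neg]
        · have : (-2 : ℤ) = -(2 : ℤ) := rfl
          rw [this, zpow_neg]
          norm_num)
      (fun x hx => by
        have hx1 := hout x hx
        have hne1 : ∀ b : Bool, io x ≠ io (e1, b) := by
          intro b h
          have := io_inj h
          rw [this, he1] at hx1
          simp at hx1
        simp only [Pi.add_apply]
        rw [Pi.single_eq_same, Pi.single_eq_of_ne (hne1 false), Pi.single_eq_of_ne (hne1 true)]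
        norm_num)
      (fun x y hx hy hyx => by
        have hx1 := hout x hx
        have hne1 : ∀ b : Bool, io x ≠ io (e1, b) := by
          intro b h
          have := io_inj h
          rw [this, he1] at hx1
          simp at hx1
        simp only [Pi.add_apply]
        rw [Pi.single_eq_of_ne (fun h => hyx (io_inj h).symm), Pi.single_eq_of_ne (hne1 false),
          Pi.single_eq_of_ne (hne1 true)]
        norm_num)
    refine ⟨⟨hbox, Λ, by omega, hΛ2⟩, fun σ hσ hσt => hns ((special_iff hne).2 ⟨σ, hσ, hσt⟩)⟩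
  -- the count
  have hTE : T.card ≤ (Exc k (m' + 1) B).ncard := by
    rw [Set.ncard_eq_toFinset_card _ (Exc_finite k (m' + 1) B)]
    apply Finset.card_le_card
    intro t ht
    rw [Set.Finite.mem_toFinset]
    exact hmem t ht
  obtain ⟨b, hb⟩ : ∃ b, b = B / 3 := ⟨_, rfl⟩
  have hb1 : 1 ≤ b := by omega
  have hb3' : 3 * b ≤ B := by omega
  have hb6 : (B : ℝ) / 6 ≤ b := by
    have : B ≤ 6 * b := by omega
    have h2 : (B : ℝ) ≤ 6 * b := by exact_mod_cast this
    linarith
  have hQB := card_QB hb1 hb3'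
  have hQc : (QB B).card ≤ Q.card + 2 := by
    rw [hQ]
    have h1 := Finset.pred_card_le_card_erase (s := QB B) (a := (1 / 3 : ℚ))
    have h2 := Finset.pred_card_le_card_erase (s := (QB B).erase (1 / 3 : ℚ)) (a := (1 / 4 : ℚ))
    omega
  have hB' : (288 : ℝ) * (m' + 1) ≤ B := by exact_mod_cast hB
  have hBpos : (1 : ℝ) ≤ B := by
    have : (0 : ℝ) ≤ m' := Nat.cast_nonneg _
    linarith
  have hQr : (B : ℝ) ^ 2 / 288 + m' ≤ (Q.card : ℝ) + 1 := by
    have h1 : ((QB B).card : ℝ) ≤ (Q.card : ℝ) + 2 := by exact_mod_cast hQc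
    have h2 : (B : ℝ) ^ 2 / 144 ≤ (b : ℝ) ^ 2 / 4 := by
      have : ((B : ℝ) / 6) ^ 2 ≤ (b : ℝ) ^ 2 := pow_le_pow_left₀ (by positivity) hb6 2
      linarith [this, show ((B : ℝ) / 6) ^ 2 / 4 = (B : ℝ) ^ 2 / 144 by ring]
    have h3 : (288 : ℝ) * (m' + 1) ≤ (B : ℝ) ^ 2 := by nlinarith
    linarith
  have hsub : ((Q.card + 1 - m' : ℕ) : ℝ) = (Q.card : ℝ) + 1 - m' := by
    rw [Nat.cast_sub]
    · push_cast; ring
    · have h1 : (m' : ℝ) ≤ (Q.card : ℝ) + 1 := by
        have : (0 : ℝ) ≤ (B : ℝ) ^ 2 / 288 := by positivity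
        linarith
      exact_mod_cast h1
  have hpow := Nat.pow_sub_le_descFactorial Q.card m'
  have hfin : ((1 : ℝ) / 288) ^ m' * (B : ℝ) ^ (2 * (m' + 1) - 2) ≤ ((Q.card + 1 - m' : ℕ) : ℝ) ^ m' := by
    have e1 : 2 * (m' + 1) - 2 = 2 * m' := by omega
    rw [e1, pow_mul, ← mul_pow, hsub]
    apply pow_le_pow_left₀ (by positivity)
    linarith
  refine hfin.trans ?_
  have h5 : (Q.card + 1 - m') ^ m' ≤ (Exc k (m' + 1) B).ncard := by
    refine hpow.trans ?_
    rw [← hTc]
    exact hTE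
  exact_mod_cast h5

end Pool.Agent.E8helper35.RP
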