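import Pool.Agent.E8helper35.RP.UpperB

/-!
# Special tuples have small rank
-/

set_option autoImplicit false

namespace Pool.Agent.E8helper35.RP

open Finset

variable {k : ℕ}

open scoped Classical in
lemma Mo_single {I : Finset (Fin k)} {i : Fin k} (hi : i ∈ I) (t : Fin k → ℚ) (a b : ℤ) :
    Mo I t (fun x => if x = (i, false) then a else if x = (i, true) then b else 0) =
      t i ^ a * (1 - t i) ^ b := by
  rw [Mo_erase hi]
  have h1 : Mo (I.erase i) t
      (fun x => if x = (i, false) then a else if x = (i, true) then b else 0) = 1 := by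
    unfold Mo
    apply Finset.prod_eq_one
    intro x hx
    have hx1 := mem_gens.1 hx
    have hxi : x.1 ≠ i := Finset.ne_of_mem_erase hx1
    have h2 : x ≠ (i, false) := fun h => hxi (by rw [h])
    have h3 : x ≠ (i, true) := fun h => hxi (by rw [h])
    simp only
    rw [if_neg h2, if_neg h3, zpow_zero]
  rw [h1, mul_one, if_pos rfl, if_neg (by simp), if_pos rfl]

/-- the numbers `t_j`, `1 - t_j` are monomials up to sign -/
lemma orb_form {t : Fin k → ℚ} (ht : ∀ i, t i ≠ 0 ∧ t i ≠ 1) {I : Finset (Fin k)}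
    (h : ∀ j, ∃ i ∈ I, Orb (t i) (t j)) (x : Fin k × Bool) :
    ∃ (ε : ℚ) (f : Fin k × Bool → ℤ), (ε = 1 ∨ ε = -1) ∧ crd t x = ε * Mo I t f := by
  classical
  obtain ⟨i, hi, hO⟩ := h x.1
  have h0 := (ht i).1
  have h1 : (1 : ℚ) - t i ≠ 0 := sub_ne_zero.2 (ht i).2.symm
  have h1' : t i - 1 ≠ 0 := sub_ne_zero.2 (ht i).2
  have key : ∀ (ε : ℚ) (a b : ℤ), (ε = 1 ∨ ε = -1) →
      crd t x = ε * (t i ^ a * (1 - t i) ^ b) →
      ∃ (ε : ℚ) (f : Fin k × Bool → ℤ), (ε = 1 ∨ ε = -1) ∧ crd t x = ε * Mo I t f := by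
    intro ε a b hε he
    exact ⟨ε, _, hε, by rw [he, ← Mo_single hi t a b]⟩
  unfold crd at key ⊢
  obtain ⟨j, b⟩ := x
  simp only at hO key ⊢
  rcases hO with h | h | h | h | h | h <;> rw [h] at key ⊢ <;> cases b <;>
    simp only [Bool.false_eq_true, ↓reduceIte] at key ⊢
  · exact key 1 1 0 (Or.inl rfl) (by simp)
  · exact key 1 0 1 (Or.inl rfl) (by simp)
  · exact key 1 0 1 (Or.inl rfl) (by simp)
  · exact key 1 1 0 (Or.inl rfl) (by simp)
  · exact key 1 (-1) 0 (Or.inl rfl) (by simp)
  · exact key (-1) (-1) 1 (Or.inr rfl) (by rw [zpow_neg_one, zpow_one]; field_simp; ring)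
  · exact key 1 0 (-1) (Or.inl rfl) (by simp)
  · exact key (-1) 1 (-1) (Or.inr rfl) (by rw [zpow_neg_one, zpow_one]; field_simp; ring)
  · exact key (-1) 1 (-1) (Or.inr rfl) (by rw [zpow_neg_one, zpow_one]; field_simp; ring)
  · exact key 1 0 (-1) (Or.inl rfl) (by rw [zpow_neg_one, zpow_zero]; field_simp; ring)
  · exact key (-1) (-1) 1 (Or.inr rfl) (by rw [zpow_neg_one, zpow_one]; field_simp; ring)
  · exact key 1 (-1) 0 (Or.inl rfl) (by rw [zpow_neg_one, zpow_zero]; field_simp; ring)

theorem special_rank {m : ℕ} {t : Fin k → ℚ} (ht : ∀ i, t i ≠ 0 ∧ t i ≠ 1)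
    (h : Special m t) : RankLE (2 * m) t := by
  classical
  obtain ⟨I, hI, hO⟩ := h
  intro s hs
  choose ε f hε hf using orb_form ht hO
  have hcr := crd_ne ht
  have hM0 : ∀ g : Fin k × Bool → ℤ, Mo I t g ≠ 0 :=
    fun g => Finset.prod_ne_zero_iff.2 fun y _ => zpow_ne_zero _ (hcr y)
  -- linear independence
  have hli : LinearIndependent ℤ (fun x : s => fun y : gens I => f x.1 y.1) := by
    rw [Fintype.linearIndependent_iff]
    intro g hg
    obtain ⟨e, he⟩ : ∃ e : Fin k × Bool → ℤ,
        e = fun x => if hx : x ∈ s then 2 * g ⟨x, hx⟩ else 0 := ⟨_, rfl⟩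
    have hes : ∀ (x : Fin k × Bool) (hx : x ∈ s), e x = 2 * g ⟨x, hx⟩ := by
      intro x hx
      rw [he]
      simp only
      rw [dif_pos hx]
    have hsum : ∀ y ∈ gens I, ∑ x ∈ s, e x * f x y = 0 := by
      intro y hy
      have h1 := congrFun hg ⟨y, hy⟩
      simp only [Finset.sum_apply, Pi.smul_apply, smul_eq_mul, Pi.zero_apply] at h1
      rw [← Finset.sum_attach]
      have h2 : ∑ x ∈ s.attach, e x.1 * f x.1 y = 2 * ∑ x : s, g x * f x.1 y := by
        rw [Finset.mul_sum]
        apply Finset.sum_congr rfl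
        intro x _
        rw [hes x.1 x.2]
        ring
      rw [h2, h1, mul_zero]
    have hprod : ∏ x ∈ s, crd t x ^ e x = 1 := by
      have h1 : ∀ x ∈ s, crd t x ^ e x = ∏ y ∈ gens I, crd t y ^ (e x * f x y) := by
        intro x hx
        rw [hf x, mul_zpow]
        have h2 : ε x ^ e x = 1 := by
          rw [hes x hx, zpow_mul]
          have h3 : ε x ^ (2 : ℤ) = 1 := by
            rcases hε x with h | h <;> rw [h] <;> norm_num
          rw [h3, one_zpow]
        rw [h2, one_mul, Mo, ← Finset.prod_zpow]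
        apply Finset.prod_congr rfl
        intro y _
        rw [← zpow_mul, mul_comm (f x y)]
      rw [Finset.prod_congr rfl h1, Finset.prod_comm]
      apply Finset.prod_eq_one
      intro y hy
      have h3 : ∀ s' : Finset (Fin k × Bool),
          ∏ x ∈ s', crd t y ^ (e x * f x y) = crd t y ^ (∑ x ∈ s', e x * f x y) := by
        intro s'
        induction s' using Finset.induction_on with
        | empty => simp
        | insert a s' ha ih => rw [Finset.prod_insert ha, Finset.sum_insert ha, zpow_add₀ (hcr y), ih]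
      rw [h3, hsum y hy, zpow_zero]
    intro x
    have h4 := hs e hprod x.1 x.2
    rw [hes x.1 x.2] at h4
    have h5 : g x = 0 := by
      have : (⟨x.1, x.2⟩ : s) = x := rfl
      rw [this] at h4
      omega
    exact h5
  have h1 := hli.fintype_card_le_finrank
  rw [Module.finrank_fintype_fun_eq_card, Fintype.card_coe, Fintype.card_coe, card_gens] at h1
  omega

end Pool.Agent.E8helper35.RP
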