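import Mathlib

/-!
# Numbers composed of the prime factors of a given number
-/

set_option autoImplicit false

namespace Pool.Agent.E8helper35.RP

open Finset

/-- `n ↦ n ^ (-σ)` -/
noncomputable def pw (σ : ℝ) : ℕ →* ℝ where
  toFun n := (n : ℝ) ^ (-σ)
  map_one' := by simp
  map_mul' a b := by
    rw [Nat.cast_mul, Real.mul_rpow (Nat.cast_nonneg _) (Nat.cast_nonneg _)]

lemma pw_lt {σ : ℝ} (hσ : 0 < σ) {p : ℕ} (hp : p.Prime) : ‖pw σ p‖ < 1 := by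
  have h1 : (1 : ℝ) < p := by exact_mod_cast hp.one_lt
  have h2 : (0 : ℝ) ≤ (p : ℝ) ^ (-σ) := Real.rpow_nonneg (by positivity) _
  change ‖(p : ℝ) ^ (-σ)‖ < 1
  rw [Real.norm_of_nonneg h2]
  exact Real.rpow_lt_one_of_one_lt_of_neg h1 (by linarith)

lemma cnt_le {σ : ℝ} (hσ : 0 < σ) (s : Finset ℕ) (X : ℕ) (T : Finset ℕ)
    (hT : ∀ n ∈ T, n ≤ X ∧ n ∈ Nat.factoredNumbers s) :
    (T.card : ℝ) ≤ (X : ℝ) ^ σ * ∏ p ∈ s with p.Prime, (1 - pw σ p)⁻¹ := by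
  obtain ⟨_, h2⟩ := EulerProduct.summable_and_hasSum_factoredNumbers_prod_filter_prime_geometric
    (f := pw σ) (fun {p} hp => pw_lt hσ hp) s
  have hnn : ∀ n : ℕ, 0 ≤ pw σ n := fun n => Real.rpow_nonneg (Nat.cast_nonneg _) _
  have h3 : ∑ n ∈ T, pw σ n ≤ ∏ p ∈ s with p.Prime, (1 - pw σ p)⁻¹ := by
    have h4 : ∑ n ∈ T, pw σ n = ∑ n ∈ T.attach.image
        (fun n => (⟨n.1, (hT n.1 n.2).2⟩ : Nat.factoredNumbers s)), pw σ n := by
      rw [Finset.sum_image, Finset.sum_attach T (fun n => pw σ n)]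
      intro a _ b _ hab
      have := congrArg Subtype.val hab
      exact Subtype.ext this
    rw [h4]
    exact sum_le_hasSum _ (fun n _ => hnn n) h2
  have h5 : (T.card : ℝ) ≤ ∑ n ∈ T, (X : ℝ) ^ σ * pw σ n := by
    rw [Finset.card_eq_sum_ones, Nat.cast_sum]
    apply Finset.sum_le_sum
    intro n hn
    have hn0 : n ≠ 0 := (Nat.mem_factoredNumbers.1 (hT n hn).2).1
    have hnp : (0 : ℝ) < n := by exact_mod_cast Nat.pos_of_ne_zero hn0
    change ((1 : ℕ) : ℝ) ≤ (X : ℝ) ^ σ * (n : ℝ) ^ (-σ)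
    rw [Real.rpow_neg hnp.le, ← div_eq_mul_inv, Nat.cast_one,
      le_div_iff₀ (Real.rpow_pos_of_pos hnp _), one_mul]
    exact Real.rpow_le_rpow hnp.le (by exact_mod_cast (hT n hn).1) hσ.le
  rw [← Finset.mul_sum] at h5
  exact h5.trans (mul_le_mul_of_nonneg_left h3 (Real.rpow_nonneg (Nat.cast_nonneg _) _))

lemma prod_le {σ ε : ℝ} (hσ : 0 < σ) (hε : 0 < ε) : ∃ C : ℝ, 0 < C ∧ ∀ N : ℕ, N ≠ 0 →
    ∏ p ∈ N.primeFactors with p.Prime, (1 - pw σ p)⁻¹ ≤ C * (N : ℝ) ^ ε := by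
  -- bound
  have h2σ : (2 : ℝ) ^ (-σ) < 1 := Real.rpow_lt_one_of_one_lt_of_neg (by norm_num) (by linarith)
  have h2σp : (0 : ℝ) < (2 : ℝ) ^ (-σ) := Real.rpow_pos_of_pos (by norm_num) _
  obtain ⟨A, hA⟩ : ∃ A : ℝ, A = (1 - (2 : ℝ) ^ (-σ))⁻¹ := ⟨_, rfl⟩
  have hA1 : 1 ≤ A := by
    rw [hA]
    exact (one_le_inv₀ (by linarith)).2 (by linarith)
  -- the threshold
  have t1 : Filter.Tendsto (fun x : ℝ => x ^ (-σ)) Filter.atTop (nhds 0) :=
    tendsto_rpow_neg_atTop hσ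
  have t2 : Filter.Tendsto (fun x : ℝ => x ^ ε) Filter.atTop Filter.atTop :=
    tendsto_rpow_atTop hε
  have e1 : ∀ᶠ x : ℝ in Filter.atTop, x ^ (-σ) ≤ 1 / 2 :=
    (t1.eventually (gt_mem_nhds (by norm_num : (0 : ℝ) < 1 / 2))).mono fun x hx => le_of_lt hx
  have e2 : ∀ᶠ x : ℝ in Filter.atTop, (2 : ℝ) ≤ x ^ ε := t2.eventually_ge_atTop 2
  obtain ⟨P, hP⟩ := Filter.eventually_atTop.1 (e1.and e2)
  obtain ⟨Q, hQ⟩ := exists_nat_ge P
  refine ⟨A ^ Q, by positivity, fun N hN => ?_⟩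
  have hterm : ∀ p ∈ N.primeFactors.filter Nat.Prime, (1 - pw σ p)⁻¹ ≤
      (if p < Q then A else 1) * (p : ℝ) ^ ε := by
    intro p hp
    have hpp : p.Prime := (Finset.mem_filter.1 hp).2
    have hp1 : (1 : ℝ) < p := by exact_mod_cast hpp.one_lt
    have hp2 : (2 : ℝ) ≤ p := by exact_mod_cast hpp.two_le
    have hpe : (1 : ℝ) ≤ (p : ℝ) ^ ε := Real.one_le_rpow hp1.le hε.le
    have hpσ : (p : ℝ) ^ (-σ) ≤ (2 : ℝ) ^ (-σ) :=
      Real.rpow_le_rpow_of_nonpos (by norm_num) hp2 (by linarith)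
    change (1 - (p : ℝ) ^ (-σ))⁻¹ ≤ _
    split_ifs with h
    · have h1 : (1 - (p : ℝ) ^ (-σ))⁻¹ ≤ A := by
        rw [hA]
        exact inv_anti₀ (by linarith) (by linarith)
      calc (1 - (p : ℝ) ^ (-σ))⁻¹ ≤ A := h1
        _ = A * 1 := (mul_one A).symm
        _ ≤ A * (p : ℝ) ^ ε := mul_le_mul_of_nonneg_left hpe (by linarith)
    · have hge : P ≤ (p : ℝ) := hQ.trans (by exact_mod_cast Nat.le_of_not_lt h)
      obtain ⟨h1, h2⟩ := hP p hge
      rw [one_mul]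
      have h3 : (1 - (p : ℝ) ^ (-σ))⁻¹ ≤ 2 := by
        rw [inv_le_comm₀ (by linarith) (by norm_num)]
        linarith
      exact h3.trans h2
  have hpos : ∀ p ∈ N.primeFactors.filter Nat.Prime, 0 ≤ (1 - pw σ p)⁻¹ := by
    intro p hp
    have hpp : p.Prime := (Finset.mem_filter.1 hp).2
    have := pw_lt hσ hpp
    rw [Real.norm_eq_abs, abs_lt] at this
    exact inv_nonneg.2 (by linarith [this.2])
  refine (Finset.prod_le_prod hpos hterm).trans ?_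
  rw [Finset.prod_mul_distrib]
  have hcast : (∏ p ∈ N.primeFactors.filter Nat.Prime, (p : ℝ) ^ ε) ≤ (N : ℝ) ^ ε := by
    rw [Real.finsetProd_rpow _ _ (fun i _ => Nat.cast_nonneg i)]
    apply Real.rpow_le_rpow (Finset.prod_nonneg fun i _ => Nat.cast_nonneg i) _ hε.le
    have h1 : (∏ p ∈ N.primeFactors.filter Nat.Prime, p) ≤ N := by
      have h2 : N.primeFactors.filter Nat.Prime = N.primeFactors :=
        Finset.filter_true_of_mem fun p hp => Nat.prime_of_mem_primeFactors hp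
      rw [h2]
      exact Nat.le_of_dvd (Nat.pos_of_ne_zero hN) (Nat.prod_primeFactors_dvd N)
    rw [← Nat.cast_prod]
    exact_mod_cast h1
  have hA2 : (∏ p ∈ N.primeFactors.filter Nat.Prime, (if p < Q then A else 1)) ≤ A ^ Q := by
    rw [Finset.prod_ite, Finset.prod_const, Finset.prod_const_one, mul_one]
    apply pow_le_pow_right₀ hA1
    calc ((N.primeFactors.filter Nat.Prime).filter fun p => p < Q).card
        ≤ (Finset.range Q).card := Finset.card_le_card fun p hp => by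
          rw [Finset.mem_range]
          exact (Finset.mem_filter.1 hp).2
      _ = Q := Finset.card_range Q
  exact mul_le_mul hA2 hcast (Finset.prod_nonneg fun i _ => Real.rpow_nonneg (Nat.cast_nonneg _) _)
    (by positivity)

/-- `n` is composed of primes which divide `N` -/
def Fac (N n : ℕ) : Prop := ∀ p, p.Prime → p ∣ n → p ∣ N

open scoped Classical in
/-- the numbers up to `X` composed of the primes which divide `N` -/
noncomputable def FS (N X : ℕ) : Finset ℕ := (Finset.Icc 1 X).filter (Fac N)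

lemma mem_FS {N X n : ℕ} : n ∈ FS N X ↔ (1 ≤ n ∧ n ≤ X) ∧ Fac N n := by
  classical
  rw [FS, Finset.mem_filter, Finset.mem_Icc]

/-- there are at most `C X ^ σ N ^ ε` such numbers -/
lemma card_FS {σ ε : ℝ} (hσ : 0 < σ) (hε : 0 < ε) : ∃ C : ℝ, 0 < C ∧ ∀ N X : ℕ, N ≠ 0 →
    ((FS N X).card : ℝ) ≤ C * (X : ℝ) ^ σ * (N : ℝ) ^ ε := by
  obtain ⟨C, hC, h⟩ := prod_le hσ hε
  refine ⟨C, hC, fun N X hN => ?_⟩
  have h1 := cnt_le hσ N.primeFactors X (FS N X) (fun n hn => by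
    rw [mem_FS] at hn
    refine ⟨hn.1.2, Nat.mem_factoredNumbers'.2 fun p hp hpn => ?_⟩
    exact Nat.mem_primeFactors.2 ⟨hp, hn.2 p hp hpn, hN⟩)
  calc ((FS N X).card : ℝ) ≤ (X : ℝ) ^ σ * ∏ p ∈ N.primeFactors with p.Prime, (1 - pw σ p)⁻¹ := h1
    _ ≤ (X : ℝ) ^ σ * (C * (N : ℝ) ^ ε) :=
        mul_le_mul_of_nonneg_left (h N hN) (Real.rpow_nonneg (Nat.cast_nonneg _) _)
    _ = C * (X : ℝ) ^ σ * (N : ℝ) ^ ε := by ring

end Pool.Agent.E8helper35.RP
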