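import Pool.Agent.E8helper35.RP.Upper

/-!
# The counting theorem: tuples of rank at most `2 m` which are not special
-/

set_option autoImplicit false

namespace Pool.Agent.E8helper35.RP

open Finset

variable {k : ℕ}

/-- tuples of rank at most `2 m` with more than `m` orbits -/
theorem upper_B (k m : ℕ) (hm : 1 ≤ m) : ∃ C : ℝ, ∀ B : ℕ, 1 ≤ B →
    ∀ T : Finset (Fin k → ℚ), (∀ t ∈ T, (∀ i, InBox B (t i)) ∧ RankLE (2 * m) t ∧ ¬ Special m t) →
      (T.card : ℝ) ≤ C * (B : ℝ) ^ (2 * (m : ℝ) - 1 / (12 * m)) := by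
  classical
  have hm0 : (0 : ℝ) < m := by exact_mod_cast hm
  have hm1 : (1 : ℝ) ≤ m := by exact_mod_cast hm
  have hη : (0 : ℝ) < 1 / (12 * m) := by positivity
  obtain ⟨C, hC, hU⟩ := U_bound k hη
  obtain ⟨C', hC', hL⟩ := log_pow (4 * k + 1)
  obtain ⟨e0, he0⟩ : ∃ e0 : ℝ, e0 = 1 / (6 * m) := ⟨_, rfl⟩
  have he0p : 0 < e0 := by rw [he0]; positivity
  have he01 : e0 ≤ 1 := by
    rw [he0, div_le_one (by positivity)]
    linarith
  obtain ⟨C1, hC1⟩ : ∃ C1 : ℝ, C1 = 3 ^ m + 3 * m * (30 + 864 * m) * 3 ^ m + 8 * m * C' * 3 ^ m :=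
    ⟨_, rfl⟩
  refine ⟨2 ^ k * (C1 * C), fun B hB T hT => ?_⟩
  have hB1 : (1 : ℝ) ≤ B := by exact_mod_cast hB
  have hB0 : (0 : ℝ) < B := by linarith
  obtain ⟨D, hD⟩ : ∃ D : ℝ, D = (B : ℝ) ^ e0 := ⟨_, rfl⟩
  have hD1 : 1 ≤ D := by rw [hD]; exact Real.one_le_rpow hB1 he0p.le
  have hDB : D ^ (6 * m) = B := by
    rw [hD, ← Real.rpow_natCast, ← Real.rpow_mul hB0.le, he0]
    push_cast
    rw [one_div_mul_cancel (by positivity), Real.rpow_one]
  have hS : ((S B).card : ℝ) ≤ 3 * (B : ℝ) ^ 2 := by exact_mod_cast card_S hB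
  have h31 : (1 : ℝ) ≤ 3 * (B : ℝ) ^ 2 := by nlinarith
  obtain ⟨m', hm'⟩ : ∃ m', m = m' + 1 := ⟨m - 1, by omega⟩
  obtain ⟨E, hE⟩ : ∃ E : ℝ, E = (B : ℝ) ^ (2 * (m : ℝ) - e0) := ⟨_, rfl⟩
  have hE0 : 0 < E := by rw [hE]; positivity
  -- comparison of powers
  have hpw : ((B : ℝ) ^ 2) ^ m' * B ≤ E := by
    have e1 : ((B : ℝ) ^ 2) ^ m' * B = (B : ℝ) ^ (2 * (m : ℝ) - 1) := by
      rw [← pow_mul, ← pow_succ, ← Real.rpow_natCast]
      congr 1
      rw [hm']
      push_cast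
      ring
    rw [e1, hE]
    exact Real.rpow_le_rpow_of_exponent_le hB1 (by linarith)
  have hpw2 : ((B : ℝ) ^ 2) ^ m' ≤ E := by
    refine le_trans ?_ hpw
    have h0 : (0 : ℝ) ≤ ((B : ℝ) ^ 2) ^ m' := by positivity
    nlinarith
  have hpw3 : ((B : ℝ) ^ 2) ^ m / D = E := by
    rw [hD, hE, Real.rpow_sub hB0]
    congr 1
    rw [← pow_mul, ← Real.rpow_natCast]
    congr 1
    push_cast
    ring
  have h3m : (3 : ℝ) ^ m' ≤ 3 ^ m := pow_le_pow_right₀ (by norm_num) (by omega)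
  have hSm : ((S B).card : ℝ) ^ m' ≤ 3 ^ m * ((B : ℝ) ^ 2) ^ m' := by
    calc ((S B).card : ℝ) ^ m' ≤ (3 * (B : ℝ) ^ 2) ^ m' :=
          pow_le_pow_left₀ (Nat.cast_nonneg _) hS m'
      _ = 3 ^ m' * ((B : ℝ) ^ 2) ^ m' := mul_pow _ _ _
      _ ≤ 3 ^ m * ((B : ℝ) ^ 2) ^ m' := mul_le_mul_of_nonneg_right h3m (by positivity)
  -- the three bounds
  have b1 : ∀ I : Finset (Fin k), I.card < m → ((PP I (fun _ => S B)).card : ℝ) ≤ 3 ^ m * E := by
    intro I hI
    rw [card_PPS]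
    push_cast
    calc ((S B).card : ℝ) ^ I.card ≤ (3 * (B : ℝ) ^ 2) ^ I.card :=
          pow_le_pow_left₀ (Nat.cast_nonneg _) hS _
      _ ≤ (3 * (B : ℝ) ^ 2) ^ m' := pow_le_pow_right₀ h31 (by omega)
      _ = 3 ^ m' * ((B : ℝ) ^ 2) ^ m' := mul_pow _ _ _
      _ ≤ 3 ^ m * E := mul_le_mul h3m hpw2 (by positivity) (by positivity)
  have b2 : ∀ I : Finset (Fin k), I.card = m → ((BadS I B D).card : ℝ) ≤
      3 * m * (30 + 864 * m) * 3 ^ m * E := by
    intro I hI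
    have h := card_BadS hB hD1 (I := I) (by rw [hI, hDB])
    rw [hI] at h
    refine h.trans (le_of_eq ?_)
    rw [mul_pow, ← hpw3]
    ring
  have b3 : ∀ I : Finset (Fin k), I.card = m → ((ZZ I B (Nat.log 2 (2 * B))).card : ℝ) ≤
      8 * m * C' * 3 ^ m * E := by
    intro I hI
    have h := card_ZZ I B (Nat.log 2 (2 * B))
    rw [hI] at h
    have hlog := hL B hB
    obtain ⟨L, hLd⟩ : ∃ L, L = Nat.log 2 (2 * B) := ⟨_, rfl⟩
    rw [← hLd] at h hlog ⊢
    have h2 : ((ZZ I B L).card : ℝ) ≤ m * (2 * (2 * ((2 * (L : ℝ) + 1) ^ (2 * k) *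
        ((2 * (L : ℝ) + 1) ^ (2 * k) * (4 * L * ((S B).card : ℝ) ^ m'))))) := by
      have h3 : m - 1 = m' := by omega
      rw [h3] at h
      exact_mod_cast h
    calc ((ZZ I B L).card : ℝ) ≤ m * (2 * (2 * ((2 * (L : ℝ) + 1) ^ (2 * k) *
        ((2 * (L : ℝ) + 1) ^ (2 * k) * (4 * L * ((S B).card : ℝ) ^ m'))))) := h2
      _ = (16 * (m : ℝ) * L) * (2 * (L : ℝ) + 1) ^ (4 * k) * ((S B).card : ℝ) ^ m' := by
          have : (2 * (L : ℝ) + 1) ^ (4 * k) =
              (2 * (L : ℝ) + 1) ^ (2 * k) * (2 * (L : ℝ) + 1) ^ (2 * k) := by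
            rw [← pow_add]
            congr 1
            omega
          rw [this]
          ring
      _ ≤ (8 * (m : ℝ) * (2 * L + 1)) * (2 * (L : ℝ) + 1) ^ (4 * k) * ((S B).card : ℝ) ^ m' := by
          apply mul_le_mul_of_nonneg_right _ (by positivity)
          apply mul_le_mul_of_nonneg_right _ (by positivity)
          nlinarith
      _ = 8 * (m : ℝ) * (2 * (L : ℝ) + 1) ^ (4 * k + 1) * ((S B).card : ℝ) ^ m' := by
          rw [pow_succ]
          ring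
      _ ≤ 8 * (m : ℝ) * (C' * B) * (3 ^ m * ((B : ℝ) ^ 2) ^ m') :=
          mul_le_mul (mul_le_mul_of_nonneg_left hlog (by positivity)) hSm (by positivity)
            (by positivity)
      _ = 8 * m * C' * 3 ^ m * (((B : ℝ) ^ 2) ^ m' * B) := by ring
      _ ≤ 8 * m * C' * 3 ^ m * E := mul_le_mul_of_nonneg_left hpw (by positivity)
  have h := count hB (fun I => if I.card < m then PP I (fun _ => S B) else
      if I.card = m then BadS I B D ∪ ZZ I B (Nat.log 2 (2 * B)) else ∅) T (fun t ht => by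
    obtain ⟨h1, h2, h3⟩ := hT t ht
    obtain ⟨I, _, k2, k3, k4⟩ := struct (fun i => ⟨(h1 i).1, (h1 i).2.1⟩) h2
    refine ⟨h1, I, ?_, k3⟩
    by_cases hI : I.card < m
    · rw [if_pos hI, rs_mem_PP]
      exact fun j _ => mem_S.2 (h1 j)
    · have hI' : I.card = m := by omega
      rw [if_neg hI, if_pos hI', Finset.mem_union]
      by_cases hG : Good I t
      · right
        exact mem_ZZ h1 hG (k4 (by rw [hI'])) (by rw [hI']; exact h3)
      · left
        exact mem_BadS h1 hD1 hG) (c := C1 * E) (u := C * (B : ℝ) ^ (1 / (12 * (m : ℝ))))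
    (fun I => by
      split_ifs with hI hI'
      · refine (b1 I hI).trans ?_
        apply mul_le_mul_of_nonneg_right _ hE0.le
        rw [hC1]
        have : (0 : ℝ) ≤ 3 * m * (30 + 864 * m) * 3 ^ m + 8 * m * C' * 3 ^ m := by positivity
        linarith
      · refine (card_uR _ _).trans ((add_le_add (b2 I hI') (b3 I hI')).trans ?_)
        rw [← add_mul]
        apply mul_le_mul_of_nonneg_right _ hE0.le
        rw [hC1]
        have : (0 : ℝ) ≤ 3 ^ m := by positivity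
        linarith
      · rw [Finset.card_empty, Nat.cast_zero]
        have : 0 ≤ C1 := by rw [hC1]; positivity
        positivity) (by positivity) (fun N hN0 hN => hU B hB N hN0 hN)
  refine h.trans (le_of_eq ?_)
  have e1 : (B : ℝ) ^ (2 * (m : ℝ) - 1 / (12 * m)) = E * (B : ℝ) ^ (1 / (12 * (m : ℝ))) := by
    rw [hE, ← Real.rpow_add hB0]
    congr 1
    rw [he0]
    field_simp
    ring
  rw [e1]
  ring

end Pool.Agent.E8helper35.RP
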