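import Pool.Agent.E8helper35.RP.Units

/-!
# Multiplicative relations between the numbers `t_i`, `1 - t_i`
-/

set_option autoImplicit false

namespace Pool.Agent.E8helper35.RP

open Finset

/-- the numbers `t_i` and `1 - t_i` -/
def crd {k : ℕ} (t : Fin k → ℚ) (x : Fin k × Bool) : ℚ := if x.2 then 1 - t x.1 else t x.1

/-- the numbers with indices in `s` are multiplicatively independent -/
def MulIndep {k : ℕ} (t : Fin k → ℚ) (s : Finset (Fin k × Bool)) : Prop :=
  ∀ e : Fin k × Bool → ℤ, ∏ x ∈ s, crd t x ^ e x = 1 → ∀ x ∈ s, e x = 0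

/-- the group generated by the numbers has rank at most `r` -/
def RankLE {k : ℕ} (r : ℕ) (t : Fin k → ℚ) : Prop :=
  ∀ s : Finset (Fin k × Bool), MulIndep t s → s.card ≤ r

section val

variable {p : ℕ} [hp : Fact p.Prime]

lemma val_zpow {a : ℚ} (ha : a ≠ 0) (n : ℤ) : padicValRat p (a ^ n) = n * padicValRat p a := by
  cases n with
  | ofNat n => rw [Int.ofNat_eq_natCast, zpow_natCast, padicValRat.pow]
  | negSucc n =>
    rw [zpow_negSucc, padicValRat.inv, padicValRat.pow, Int.negSucc_eq]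
    push_cast
    ring

lemma val_prod {ι : Type*} (s : Finset ι) (f : ι → ℚ) (e : ι → ℤ) (hf : ∀ x ∈ s, f x ≠ 0) :
    padicValRat p (∏ x ∈ s, f x ^ e x) = ∑ x ∈ s, e x * padicValRat p (f x) := by
  classical
  induction s using Finset.induction_on with
  | empty => simp
  | insert x s hx ih =>
    rw [Finset.prod_insert hx, Finset.sum_insert hx,
      padicValRat.mul (zpow_ne_zero _ (hf x (Finset.mem_insert_self x s)))
        (Finset.prod_ne_zero_iff.2 fun y hy =>
          zpow_ne_zero _ (hf y (Finset.mem_insert_of_mem hy))),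
      val_zpow (hf x (Finset.mem_insert_self x s)),
      ih fun y hy => hf y (Finset.mem_insert_of_mem hy)]

/-- the numerator of `1 - a` -/
def Y (a : ℚ) : ℤ := a.den - a.num

lemma Y_ne {a : ℚ} (h1 : a ≠ 1) : Y a ≠ 0 := by
  intro h
  apply h1
  have h2 : (a.num : ℚ) = a.den := by
    have : a.num = a.den := by unfold Y at h; omega
    exact_mod_cast this
  rw [← Rat.num_div_den a, h2]
  exact div_self (by exact_mod_cast a.den_nz)

lemma one_sub_eq (a : ℚ) : 1 - a = (Y a : ℚ) / (a.den : ℚ) := by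
  have hd : (a.den : ℚ) ≠ 0 := by exact_mod_cast a.den_nz
  rw [eq_div_iff hd, sub_mul, one_mul]
  have h : a * a.den = a.num := Rat.mul_den_eq_num a
  rw [h]
  unfold Y
  push_cast
  ring

lemma val_a {a : ℚ} : padicValRat p a = (padicValInt p a.num : ℤ) - padicValNat p a.den := by
  rw [padicValRat_def]

lemma val_b {a : ℚ} (h1 : a ≠ 1) :
    padicValRat p (1 - a) = (padicValInt p (Y a) : ℤ) - padicValNat p a.den := by
  have hd : (a.den : ℚ) ≠ 0 := by exact_mod_cast a.den_nz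
  have hy : ((Y a : ℤ) : ℚ) ≠ 0 := by exact_mod_cast Y_ne h1
  rw [one_sub_eq, padicValRat.div hy hd, padicValRat.of_int, padicValRat.of_nat]

lemma vi_zero {n : ℤ} (h : ¬ (p : ℤ) ∣ n) : padicValInt p n = 0 :=
  padicValInt.eq_zero_of_not_dvd h

lemma vi_pos {n : ℤ} (hn : n ≠ 0) (h : (p : ℤ) ∣ n) : 0 < padicValInt p n := by
  have h1 : p ∣ n.natAbs := Int.natCast_dvd.1 h
  exact Nat.pos_of_ne_zero fun h0 => by
    have : padicValNat p n.natAbs = 0 := h0
    rw [padicValNat.eq_zero_iff] at this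
    rcases this with h2 | h2 | h2
    · exact hp.out.one_lt.ne' h2
    · exact hn (Int.natAbs_eq_zero.1 h2)
    · exact h2 h1

lemma cop_num_den {a : ℚ} (h : (p : ℤ) ∣ a.num) : ¬ p ∣ a.den := by
  intro h2
  have h3 := a.reduced
  have h4 : p ∣ Nat.gcd a.num.natAbs a.den := Nat.dvd_gcd (Int.natCast_dvd.1 h) h2
  rw [Nat.Coprime] at h3
  rw [h3] at h4
  exact hp.out.one_lt.ne' (Nat.dvd_one.1 h4)

/-- a prime factor of the numerator -/
lemma at_num {a : ℚ} (h0 : a ≠ 0) (h1 : a ≠ 1) (h : (p : ℤ) ∣ a.num) :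
    padicValRat p a = padicValInt p a.num ∧ 0 < padicValInt p a.num ∧
      padicValRat p (1 - a) = 0 ∧ ¬ (p : ℤ) ∣ Y a ∧ ¬ p ∣ a.den := by
  have hd := cop_num_den h
  have hy : ¬ (p : ℤ) ∣ Y a := by
    intro h2
    apply hd
    have h3 : (p : ℤ) ∣ Y a + a.num := dvd_add h2 h
    have h4 : Y a + a.num = a.den := by unfold Y; ring
    rw [h4] at h3
    exact_mod_cast h3
  have hv : padicValNat p a.den = 0 := padicValNat.eq_zero_of_not_dvd hd
  refine ⟨by rw [val_a, hv]; simp, vi_pos (Rat.num_ne_zero.2 h0) h, ?_, hy, hd⟩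
  rw [val_b h1, vi_zero hy, hv]
  simp

/-- a prime factor of the numerator of `1 - a` -/
lemma at_Y {a : ℚ} (h1 : a ≠ 1) (h : (p : ℤ) ∣ Y a) :
    padicValRat p (1 - a) = padicValInt p (Y a) ∧ 0 < padicValInt p (Y a) ∧
      padicValRat p a = 0 ∧ ¬ (p : ℤ) ∣ a.num ∧ ¬ p ∣ a.den := by
  have hd : ¬ p ∣ a.den := by
    intro h2
    have h3 : (p : ℤ) ∣ (a.den : ℤ) := by exact_mod_cast h2
    have h4 : (p : ℤ) ∣ (a.den : ℤ) - Y a := dvd_sub h3 h
    have h5 : (a.den : ℤ) - Y a = a.num := by unfold Y; ring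
    rw [h5] at h4
    exact cop_num_den h4 h2
  have hx : ¬ (p : ℤ) ∣ a.num := by
    intro h2
    apply hd
    have h3 : (p : ℤ) ∣ Y a + a.num := dvd_add h h2
    have h4 : Y a + a.num = a.den := by unfold Y; ring
    rw [h4] at h3
    exact_mod_cast h3
  have hv : padicValNat p a.den = 0 := padicValNat.eq_zero_of_not_dvd hd
  refine ⟨by rw [val_b h1, hv]; simp, vi_pos (Y_ne h1) h, ?_, hx, hd⟩
  rw [val_a, vi_zero hx, hv]
  simp

/-- a prime factor of the denominator -/
lemma at_den {a : ℚ} (h1 : a ≠ 1) (h : p ∣ a.den) :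
    padicValRat p (1 - a) = padicValRat p a ∧ padicValRat p a < 0 := by
  have hx : ¬ (p : ℤ) ∣ a.num := fun h2 => cop_num_den h2 h
  have hy : ¬ (p : ℤ) ∣ Y a := fun h2 => (at_Y h1 h2).2.2.2.2 h
  have hv : 1 ≤ padicValNat p a.den := one_le_padicValNat_of_dvd a.den_nz h
  rw [val_b h1, val_a, vi_zero hx, vi_zero hy]
  refine ⟨rfl, ?_⟩
  have h5 : (1 : ℤ) ≤ ((padicValNat p a.den : ℕ) : ℤ) := by exact_mod_cast hv
  rw [Nat.cast_zero, zero_sub]
  linarith

/-- the product of the three numbers -/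
def nn (a : ℚ) : ℕ := a.num.natAbs * (Y a).natAbs * a.den

lemma nn_ne {a : ℚ} (h0 : a ≠ 0) (h1 : a ≠ 1) : nn a ≠ 0 := by
  unfold nn
  have := Int.natAbs_ne_zero.2 (Rat.num_ne_zero.2 h0)
  have := Int.natAbs_ne_zero.2 (Y_ne h1)
  have := a.den_nz
  positivity

lemma not_nn {a : ℚ} (h1 : a ≠ 1) (h : ¬ p ∣ nn a) :
    padicValRat p a = 0 ∧ padicValRat p (1 - a) = 0 := by
  have hx : ¬ (p : ℤ) ∣ a.num := fun h2 => h (by
    unfold nn; exact ((Int.natCast_dvd.1 h2).mul_right _).mul_right _)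
  have hy : ¬ (p : ℤ) ∣ Y a := fun h2 => h (by
    unfold nn; exact ((Int.natCast_dvd.1 h2).mul_left _).mul_right _)
  have hz : ¬ p ∣ a.den := fun h2 => h (by unfold nn; exact h2.mul_left _)
  have hv : padicValNat p a.den = 0 := padicValNat.eq_zero_of_not_dvd hz
  rw [val_a, val_b h1, vi_zero hx, vi_zero hy, hv]
  simp

end val

/-- two of the numbers are composed of prime factors of `N` -/
def Adm (N : ℕ) (a : ℚ) : Prop :=
  (Fac N a.num.natAbs ∧ Fac N (Y a).natAbs) ∨ (Fac N a.num.natAbs ∧ Fac N a.den) ∨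
    (Fac N (Y a).natAbs ∧ Fac N a.den)

/-- the generators with indices in `I` -/
def gens {k : ℕ} (I : Finset (Fin k)) : Finset (Fin k × Bool) := I ×ˢ univ

lemma card_gens {k : ℕ} (I : Finset (Fin k)) : (gens I).card = 2 * I.card := by
  rw [gens, Finset.card_product]
  simp [mul_comm]

lemma mem_gens {k : ℕ} {I : Finset (Fin k)} {x : Fin k × Bool} : x ∈ gens I ↔ x.1 ∈ I := by
  simp [gens]

lemma crd_ne {k : ℕ} {t : Fin k → ℚ} (ht : ∀ i, t i ≠ 0 ∧ t i ≠ 1) (x : Fin k × Bool) :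
    crd t x ≠ 0 := by
  unfold crd
  split_ifs
  · exact sub_ne_zero.2 (ht _).2.symm
  · exact (ht _).1

/-- the product of the numbers `nn (t i)` -/
def NI {k : ℕ} (t : Fin k → ℚ) (I : Finset (Fin k)) : ℕ := ∏ i ∈ I, nn (t i)

lemma NI_ne {k : ℕ} {t : Fin k → ℚ} (ht : ∀ i, t i ≠ 0 ∧ t i ≠ 1) (I : Finset (Fin k)) :
    NI t I ≠ 0 := Finset.prod_ne_zero_iff.2 fun i _ => nn_ne (ht i).1 (ht i).2

lemma crd_val {k : ℕ} {t : Fin k → ℚ} (ht : ∀ i, t i ≠ 0 ∧ t i ≠ 1) {I : Finset (Fin k)} {p : ℕ}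
    [Fact p.Prime] (hpN : ¬ p ∣ NI t I) {x : Fin k × Bool} (hx : x.1 ∈ I) :
    padicValRat p (crd t x) = 0 := by
  have h1 : ¬ p ∣ nn (t x.1) := fun h => hpN (h.trans (Finset.dvd_prod_of_mem _ hx))
  have h2 := not_nn (ht x.1).2 h1
  unfold crd
  split_ifs
  · exact h2.2
  · exact h2.1

lemma gens_insert {k : ℕ} {I : Finset (Fin k)} {j : Fin k} (hj : j ∉ I) (f : Fin k × Bool → ℚ) :
    ∏ x ∈ gens (insert j I), f x = (f (j, false) * f (j, true)) * ∏ x ∈ gens I, f x := by
  have h1 : gens (insert j I) = insert (j, false) (insert (j, true) (gens I)) := by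
    ext ⟨a, b⟩
    simp only [mem_gens, Finset.mem_insert, Prod.mk.injEq]
    cases b <;> simp
  rw [h1, Finset.prod_insert, Finset.prod_insert]
  · ring
  · rw [mem_gens]; exact hj
  · simp only [Finset.mem_insert, mem_gens, Prod.mk.injEq]
    simp [hj]

/-- a relation modulo the numbers with indices in `I` -/
lemma adm_of_rel {k : ℕ} {t : Fin k → ℚ} (ht : ∀ i, t i ≠ 0 ∧ t i ≠ 1) {I : Finset (Fin k)}
    {j : Fin k} {a b : ℤ} (hab : a ≠ 0 ∨ b ≠ 0) {e : Fin k × Bool → ℤ}
    (h : (t j ^ a * (1 - t j) ^ b) * ∏ x ∈ gens I, crd t x ^ e x = 1) : Adm (NI t I) (t j) := by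
  obtain ⟨h0, h1⟩ := ht j
  have h1' : (1 : ℚ) - t j ≠ 0 := sub_ne_zero.2 h1.symm
  have key : ∀ p : ℕ, p.Prime → ¬ p ∣ NI t I →
      a * padicValRat p (t j) + b * padicValRat p (1 - t j) = 0 := by
    intro p hp hpN
    have : Fact p.Prime := ⟨hp⟩
    have h2 := congrArg (padicValRat p) h
    rw [padicValRat.mul (mul_ne_zero (zpow_ne_zero _ h0) (zpow_ne_zero _ h1'))
      (Finset.prod_ne_zero_iff.2 fun x _ => zpow_ne_zero _ (crd_ne ht x)),
      padicValRat.mul (zpow_ne_zero _ h0) (zpow_ne_zero _ h1'), val_zpow h0, val_zpow h1',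
      val_prod _ _ _ (fun x _ => crd_ne ht x), padicValRat.one] at h2
    have h3 : ∑ x ∈ gens I, e x * padicValRat p (crd t x) = 0 :=
      Finset.sum_eq_zero fun x hx => by rw [crd_val ht hpN (mem_gens.1 hx), mul_zero]
    rw [h3, add_zero] at h2
    exact h2
  have hX : a ≠ 0 → Fac (NI t I) (t j).num.natAbs := by
    intro ha p hp hpd
    by_contra hpN
    have : Fact p.Prime := ⟨hp⟩
    obtain ⟨k1, k2, k3, _, _⟩ := at_num h0 h1 (Int.natCast_dvd.2 hpd)
    have := key p hp hpN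
    rw [k3, mul_zero, add_zero, k1] at this
    rcases mul_eq_zero.1 this with h | h
    · exact ha h
    · exact k2.ne' (by exact_mod_cast h)
  have hY : b ≠ 0 → Fac (NI t I) (Y (t j)).natAbs := by
    intro hb p hp hpd
    by_contra hpN
    have : Fact p.Prime := ⟨hp⟩
    obtain ⟨k1, k2, k3, _, _⟩ := at_Y h1 (Int.natCast_dvd.2 hpd)
    have := key p hp hpN
    rw [k3, mul_zero, zero_add, k1] at this
    rcases mul_eq_zero.1 this with h | h
    · exact hb h
    · exact k2.ne' (by exact_mod_cast h)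
  have hZ : a + b ≠ 0 → Fac (NI t I) (t j).den := by
    intro hab p hp hpd
    by_contra hpN
    have : Fact p.Prime := ⟨hp⟩
    obtain ⟨k1, k2⟩ := at_den (a := t j) h1 hpd
    have := key p hp hpN
    rw [k1, ← add_mul] at this
    rcases mul_eq_zero.1 this with h | h
    · exact hab h
    · exact k2.ne h
  by_cases ha : a = 0
  · have hb : b ≠ 0 := by
      rcases hab with h | h
      · exact absurd ha h
      · exact h
    exact Or.inr (Or.inr ⟨hY hb, hZ (by rw [ha, zero_add]; exact hb)⟩)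
  · by_cases hb : b = 0
    · exact Or.inr (Or.inl ⟨hX ha, hZ (by rw [hb, add_zero]; exact ha)⟩)
    · exact Or.inl ⟨hX ha, hY hb⟩

lemma indep_empty {k : ℕ} (t : Fin k → ℚ) : MulIndep t (gens ∅) := by
  intro e _ x hx
  rw [mem_gens] at hx
  exact absurd hx (Finset.notMem_empty _)

/-- the structure of tuples of small rank -/
theorem struct {k r : ℕ} {t : Fin k → ℚ} (ht : ∀ i, t i ≠ 0 ∧ t i ≠ 1) (hr : RankLE r t) :
    ∃ I : Finset (Fin k), MulIndep t (gens I) ∧ 2 * I.card ≤ r ∧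
      (∀ j, j ∉ I → Adm (NI t I) (t j)) ∧
      (r = 2 * I.card → ∀ j, j ∉ I → ∀ b : Bool, ∃ (n : ℤ) (e : Fin k × Bool → ℤ), n ≠ 0 ∧
        crd t (j, b) ^ n * ∏ x ∈ gens I, crd t x ^ e x = 1) := by
  classical
  obtain ⟨I, hI, hmax⟩ := Finset.exists_max_image
    ((Finset.univ : Finset (Finset (Fin k))).filter fun I => MulIndep t (gens I)) Finset.card
    ⟨∅, by rw [Finset.mem_filter]; exact ⟨Finset.mem_univ _, indep_empty t⟩⟩
  rw [Finset.mem_filter] at hI
  refine ⟨I, hI.2, by rw [← card_gens]; exact hr _ hI.2, fun j hj => ?_, fun hrI j hj b => ?_⟩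
  · have h1 : ¬ MulIndep t (gens (insert j I)) := by
      intro h
      have h2 := hmax (insert j I) (by rw [Finset.mem_filter]; exact ⟨Finset.mem_univ _, h⟩)
      rw [Finset.card_insert_of_notMem hj] at h2
      omega
    unfold MulIndep at h1
    push Not at h1
    obtain ⟨e, he, x, hx, hex⟩ := h1
    rw [gens_insert hj] at he
    have he' : (t j ^ e (j, false) * (1 - t j) ^ e (j, true)) * ∏ x ∈ gens I, crd t x ^ e x = 1 := by
      have e1 : crd t (j, false) = t j := rfl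
      have e2 : crd t (j, true) = 1 - t j := rfl
      rw [e1, e2] at he
      exact he
    refine adm_of_rel ht ?_ he'
    by_contra hcon
    rw [not_or, not_not, not_not] at hcon
    rw [hcon.1, hcon.2, zpow_zero, zpow_zero, one_mul, one_mul] at he'
    have h3 := hI.2 e he'
    rw [mem_gens, Finset.mem_insert] at hx
    rcases hx with hx | hx
    · obtain ⟨x1, x2⟩ := x
      simp only at hx
      subst hx
      cases x2
      · exact hex hcon.1
      · exact hex hcon.2
    · exact hex (h3 x (mem_gens.2 hx))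
  · have hnot : (j, b) ∉ gens I := by rw [mem_gens]; exact hj
    have h1 : ¬ MulIndep t (insert (j, b) (gens I)) := by
      intro h
      have h2 := hr _ h
      rw [Finset.card_insert_of_notMem hnot, card_gens] at h2
      omega
    unfold MulIndep at h1
    push Not at h1
    obtain ⟨e, he, x, hx, hex⟩ := h1
    rw [Finset.prod_insert hnot] at he
    refine ⟨e (j, b), e, ?_, he⟩
    intro h0
    rw [h0, zpow_zero, one_mul] at he
    have h3 := hI.2 e he
    rw [Finset.mem_insert] at hx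
    rcases hx with hx | hx
    · rw [hx] at hex
      exact hex h0
    · exact hex (h3 x hx)

end Pool.Agent.E8helper35.RP
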