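import Pool.Agent.E8helper35.RP.Form

/-!
# The zero sets
-/

set_option autoImplicit false

namespace Pool.Agent.E8helper35.RP

open Finset

variable {k : ℕ}

open scoped Classical in
/-- solutions of an equation, nontrivial in the `i`-th variable -/
noncomputable def Zs (I : Finset (Fin k)) (B : ℕ) (i : Fin k) (ε ε' : ℚ)
    (f f' : Fin k × Bool → ℤ) : Finset (Fin k → ℚ) :=
  (PP I (fun _ => S B)).filter (fun x => ε * Mo I x f + ε' * Mo I x f' = 1 ∧
    ¬ Triv (f (i, false)) (f (i, true)) (f' (i, false)) (f' (i, true))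
      (ε * Mo (I.erase i) x f) (ε' * Mo (I.erase i) x f'))

lemma mem_PPS {B : ℕ} {I : Finset (Fin k)} {x : Fin k → ℚ} :
    x ∈ PP I (fun _ => S B) ↔ (∀ j ∈ I, InBox B (x j)) ∧ ∀ j, j ∉ I → x j = 0 := by
  classical
  rw [PP, Fintype.mem_piFinset]
  constructor
  · intro h
    constructor
    · intro j hj
      have := h j
      rw [if_pos hj, mem_S] at this
      exact this
    · intro j hj
      have := h j
      rw [if_neg hj, Finset.mem_singleton] at this
      exact this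
  · rintro ⟨h1, h2⟩ j
    by_cases hj : j ∈ I
    · rw [if_pos hj, mem_S]
      exact h1 j hj
    · rw [if_neg hj, Finset.mem_singleton]
      exact h2 j hj

lemma card_PPS (I : Finset (Fin k)) (B : ℕ) :
    (PP I (fun _ => S B)).card = (S B).card ^ I.card := by
  rw [card_PP, Finset.prod_const]

lemma Mo_ne {I : Finset (Fin k)} {x : Fin k → ℚ} (h : ∀ j ∈ I, x j ≠ 0 ∧ x j ≠ 1)
    (f : Fin k × Bool → ℤ) : Mo I x f ≠ 0 := by
  refine Finset.prod_ne_zero_iff.2 fun y hy => zpow_ne_zero _ ?_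
  have := h y.1 (mem_gens.1 hy)
  unfold crd
  split_ifs
  · exact sub_ne_zero.2 this.2.symm
  · exact this.1

theorem card_Zs {I : Finset (Fin k)} {B : ℕ} {i : Fin k} (hi : i ∈ I) {ε ε' : ℚ}
    (hε : ε = 1 ∨ ε = -1) (hε' : ε' = 1 ∨ ε' = -1) {f f' : Fin k × Bool → ℤ} {L : ℕ}
    (hf : ∀ x, |f x| ≤ L) (hf' : ∀ x, |f' x| ≤ L) :
    (Zs I B i ε ε' f f').card ≤ 4 * L * (S B).card ^ (I.card - 1) := by
  classical
  have hε0 : ε ≠ 0 := by rcases hε with rfl | rfl <;> norm_num
  have hε0' : ε' ≠ 0 := by rcases hε' with rfl | rfl <;> norm_num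
  have h1 := Finset.card_le_mul_card_image (f := fun x => rs (I.erase i) x)
    (Zs I B i ε ε' f f') (4 * L) (by
      intro a ha
      -- the fibre
      obtain ⟨x0, hx0, rfl⟩ := Finset.mem_image.1 ha
      rw [Zs, Finset.mem_filter, mem_PPS] at hx0
      obtain ⟨⟨hx01, hx02⟩, hx03, hx04⟩ := hx0
      have hn : ∀ j ∈ I.erase i, x0 j ≠ 0 ∧ x0 j ≠ 1 := fun j hj =>
        ⟨(hx01 j (Finset.mem_of_mem_erase hj)).1, (hx01 j (Finset.mem_of_mem_erase hj)).2.1⟩
      have hagree : ∀ x ∈ (Zs I B i ε ε' f f').filter (fun x => rs (I.erase i) x =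
          rs (I.erase i) x0), ∀ j ∈ I.erase i, x j = x0 j := by
        intro x hx j hj
        have h2 := (Finset.mem_filter.1 hx).2
        have h3 := congrFun h2 j
        rwa [rs_of_mem hj, rs_of_mem hj] at h3
      rw [← Finset.card_image_of_injOn (f := fun x : Fin k → ℚ => x i)
        (s := (Zs I B i ε ε' f f').filter (fun x => rs (I.erase i) x = rs (I.erase i) x0))]
      · apply one_var (mul_ne_zero hε0 (Mo_ne hn f)) (mul_ne_zero hε0' (Mo_ne hn f'))
          (hf (i, false)) (hf (i, true)) (hf' (i, false)) (hf' (i, true)) hx04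
        intro z hz
        obtain ⟨x, hx, rfl⟩ := Finset.mem_image.1 hz
        have hag := hagree x hx
        have hx1 := (Finset.mem_filter.1 hx).1
        rw [Zs, Finset.mem_filter, mem_PPS] at hx1
        obtain ⟨⟨k1, _⟩, k3, _⟩ := hx1
        refine ⟨(k1 i hi).1, (k1 i hi).2.1, ?_⟩
        rw [Mo_erase hi x f, Mo_erase hi x f', Mo_congr hag f, Mo_congr hag f'] at k3
        linear_combination k3
      · intro x hx y hy hxy
        funext j
        have hx' := hx
        have hy' := hy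
        rw [Finset.mem_coe] at hx' hy'
        by_cases hji : j = i
        · rw [hji]; exact hxy
        · by_cases hjI : j ∈ I
          · have hj : j ∈ I.erase i := Finset.mem_erase.2 ⟨hji, hjI⟩
            rw [hagree x hx' j hj, hagree y hy' j hj]
          · have hx1 := (Finset.mem_filter.1 hx').1
            have hy1 := (Finset.mem_filter.1 hy').1
            rw [Zs, Finset.mem_filter, mem_PPS] at hx1 hy1
            rw [hx1.1.2 j hjI, hy1.1.2 j hjI])
  refine h1.trans (Nat.mul_le_mul_left _ ?_)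
  rw [← Finset.card_erase_of_mem hi, ← card_PPS]
  apply Finset.card_le_card
  intro a ha
  obtain ⟨x, hx, rfl⟩ := Finset.mem_image.1 ha
  rw [Zs, Finset.mem_filter, mem_PPS] at hx
  rw [mem_PPS]
  refine ⟨fun j hj => ?_, fun j hj => ?_⟩
  · rw [rs_of_mem hj]
    exact hx.1.1 j (Finset.mem_of_mem_erase hj)
  · rw [rs, if_neg hj]

/-- exponent vectors -/
noncomputable def Ex (k L : ℕ) : Finset (Fin k × Bool → ℤ) :=
  Fintype.piFinset (fun _ => Finset.Icc (-(L : ℤ)) L)

lemma mem_Ex {L : ℕ} {f : Fin k × Bool → ℤ} : f ∈ Ex k L ↔ ∀ x, |f x| ≤ L := by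
  rw [Ex, Fintype.mem_piFinset]
  constructor
  · intro h x
    have := h x
    rw [Finset.mem_Icc] at this
    exact abs_le.2 this
  · intro h x
    rw [Finset.mem_Icc]
    exact abs_le.1 (h x)

lemma card_Ex (k L : ℕ) : (Ex k L).card = (2 * L + 1) ^ (2 * k) := by
  rw [Ex, Fintype.card_piFinset, Finset.prod_const, Int.card_Icc, Finset.card_univ,
    Fintype.card_prod, Fintype.card_fin, Fintype.card_bool]
  have : ((L : ℤ) + 1 - -(L : ℤ)).toNat = 2 * L + 1 := by omega
  rw [this, mul_comm k 2]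

open scoped Classical in
/-- all the zero sets -/
noncomputable def ZZ (I : Finset (Fin k)) (B L : ℕ) : Finset (Fin k → ℚ) :=
  I.biUnion fun i => ({1, -1} : Finset ℚ).biUnion fun ε => ({1, -1} : Finset ℚ).biUnion fun ε' =>
    (Ex k L).biUnion fun f => (Ex k L).biUnion fun f' => Zs I B i ε ε' f f'

lemma card_bUN {α β : Type*} [DecidableEq β] (s : Finset α) (f : α → Finset β) (c : ℕ)
    (h : ∀ a ∈ s, (f a).card ≤ c) : (s.biUnion f).card ≤ s.card * c :=
  Finset.card_biUnion_le.trans ((Finset.sum_le_sum h).trans (by rw [Finset.sum_const, smul_eq_mul]))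

lemma card_ZZ (I : Finset (Fin k)) (B L : ℕ) :
    (ZZ I B L).card ≤ I.card * (2 * (2 * ((2 * L + 1) ^ (2 * k) * ((2 * L + 1) ^ (2 * k) *
      (4 * L * (S B).card ^ (I.card - 1)))))) := by
  classical
  have h2 : ({1, -1} : Finset ℚ).card ≤ 2 := Finset.card_le_two
  rw [ZZ]
  refine card_bUN _ _ _ fun i hi => ?_
  refine (card_bUN _ _ ((2 * ((2 * L + 1) ^ (2 * k) * ((2 * L + 1) ^ (2 * k) *
      (4 * L * (S B).card ^ (I.card - 1)))))) fun ε hε => ?_).trans (Nat.mul_le_mul_right _ h2)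
  refine (card_bUN _ _ (((2 * L + 1) ^ (2 * k) * ((2 * L + 1) ^ (2 * k) *
      (4 * L * (S B).card ^ (I.card - 1))))) fun ε' hε' => ?_).trans (Nat.mul_le_mul_right _ h2)
  rw [← card_Ex]
  refine card_bUN _ _ _ fun f hf => ?_
  refine card_bUN _ _ _ fun f' hf' => ?_
  rw [Finset.mem_insert, Finset.mem_singleton] at hε hε'
  exact card_Zs hi hε hε' (mem_Ex.1 hf) (mem_Ex.1 hf')

/-- at most `m` orbits -/
def Special (m : ℕ) (t : Fin k → ℚ) : Prop :=
  ∃ I : Finset (Fin k), I.card ≤ m ∧ ∀ j, ∃ i ∈ I, Orb (t i) (t j)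

/-- a tuple of small rank which is not special -/
theorem mem_ZZ {B : ℕ} {t : Fin k → ℚ} (ht : ∀ i, InBox B (t i)) {I : Finset (Fin k)}
    (hG : Good I t)
    (hrel : ∀ j, j ∉ I → ∀ b : Bool, ∃ (n : ℤ) (e : Fin k × Bool → ℤ), n ≠ 0 ∧
        crd t (j, b) ^ n * ∏ x ∈ gens I, crd t x ^ e x = 1)
    (hS : ¬ Special I.card t) : rs I t ∈ ZZ I B (Nat.log 2 (2 * B)) := by
  classical
  have htn : ∀ i, t i ≠ 0 ∧ t i ≠ 1 := fun i => ⟨(ht i).1, (ht i).2.1⟩
  unfold Special at hS
  push Not at hS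
  obtain ⟨j, hj⟩ := hS I le_rfl
  have hjI : j ∉ I := fun h => hj j h (Or.inl rfl)
  obtain ⟨n, e, hn, he⟩ := hrel j hjI false
  obtain ⟨n', e', hn', he'⟩ := hrel j hjI true
  obtain ⟨ε, f, h1, h2, h3⟩ := form ht hG hn he
  obtain ⟨ε', f', h1', h2', h3'⟩ := form ht hG hn' he'
  have heq : ε * Mo I t f + ε' * Mo I t f' = 1 := by
    rw [← h3, ← h3']
    change t j + (1 - t j) = 1
    ring
  have hcr : ∀ I' : Finset (Fin k), I' ⊆ I → ∀ g, Mo I' (rs I t) g = Mo I' t g :=
    fun I' hI' g => Mo_congr (fun i hi => rs_of_mem (hI' hi)) g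
  have hnot : ¬ ∀ i ∈ I, Triv (f (i, false)) (f (i, true)) (f' (i, false)) (f' (i, true))
      (ε * Mo (I.erase i) t f) (ε' * Mo (I.erase i) t f') := by
    intro hall
    obtain ⟨i, hi, hO⟩ := orb_of_triv htn h1 h1' heq hall
    rw [← h3] at hO
    exact hj i hi hO
  push Not at hnot
  obtain ⟨i, hi, hT⟩ := hnot
  simp only [ZZ, Finset.mem_biUnion]
  refine ⟨i, hi, ε, ?_, ε', ?_, f, mem_Ex.2 h2, f', mem_Ex.2 h2', ?_⟩
  · rw [Finset.mem_insert, Finset.mem_singleton]; exact h1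
  · rw [Finset.mem_insert, Finset.mem_singleton]; exact h1'
  · rw [Zs, Finset.mem_filter, rs_mem_PP]
    refine ⟨fun j _ => mem_S.2 (ht j), ?_, ?_⟩
    · rw [hcr I (Finset.Subset.refl I), hcr I (Finset.Subset.refl I)]
      exact heq
    · rw [hcr _ (Finset.erase_subset i I), hcr _ (Finset.erase_subset i I)]
      exact hT

end Pool.Agent.E8helper35.RP
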